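import Pool.Agent.PLX.Ns
import Pool.Agent.PLX.NUGC.DefC
import Pool.Agent.NUO.Conf
import Pool.Agent.NUO.ActInt
import Pool.Agent.NUCR.SumN

/-!
# TARGET-C: the sum over the configurations and over the numbers of quanta, one class

`glue_gen`, `glue_class`: the representation corollary of one class and the tilted bound of one
configuration with the prefactor `Q` give `∑ n ≤ N, ‖Z n‖ ≤ 4 (1 + 1 / d) Q exp (δ L)`;
`perGen_marks`: the sum over a marked object.
-/

set_option autoImplicit false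

noncomputable section

open MeasureTheory Finset
open scoped ENNReal

open PLX (Fil)

namespace NUGC.PLX

open NUO NUP1 NUCR

/-- **the bound of one class**, general terms -/
theorem glue_gen {C c b c1 c' : ℝ} {k : ℕ} (hC : 0 < C) (hc : 0 < c) (hb : 0 < b) (hc1 : 0 < c1)
    (hc' : 0 ≤ c') {δ : ℝ} (hδ : 0 < δ) :
    ∃ a0 : ℝ, 0 < a0 ∧ ∀ C' : ℝ, 0 ≤ C' → ∃ L0 : ℝ, ∀ L ≥ L0, ∀ ep : ℝ, 0 ≤ ep → ep ≤ 1 / 4 →
      ∀ e1 : ℝ, 0 < e1 → e1 ≤ 1 / 4 → ∀ J : ℝ, 0 ≤ J →
      Real.exp (-(2 * Real.pi * J)) + 3 * e1 + 3 * ep ≤ a0 →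
      ∀ (ν d Q : ℝ) (N a : ℕ) (T : Term) (Z : ℕ → ℂ), 0 < d → 0 ≤ Q →
      ((2 * N + a + 1 : ℕ) : ℝ) ≤ Real.exp (2 * L) → R4gen ep a T Z →
      PerGen C C' c b k c1 c' L ep e1 J ν d N a T Q →
      ∑ n ∈ range (N + 1), ‖Z n‖ ≤ 4 * (1 + 1 / d) * (Q * Real.exp (δ * L)) := by
  obtain ⟨a0, ha0, h⟩ := conf_sum (C := C) (c := c) (b := b) (k := k) hC hc1 hc' hδ
  refine ⟨a0, ha0, fun C' hC' => ?_⟩
  obtain ⟨D, L0, -, h⟩ := h C' hC' (actInt hC.le hC' hc hb k)
  refine ⟨L0, fun L hL ep hep hep' e1 he1 he1' J hJ hsm ν d Q N a T Z hd hQ hN hR hP => ?_⟩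
  have hone : ∀ n ≤ N, ∀ b' : ℝ, b' = d ∨ b' = -d →
      Real.exp (b' * (ν - n)) * ‖Z n‖ ≤ Q * Real.exp (δ * L) := by
    intro n hn b' hb'
    have hP' := hP n hn b' hb'
    -- curves for all configurations
    choose! η η' hcur hbd using hP'
    set ηt : (r : ℕ) → (Fin r → Xo) → ℝ → ℝ := fun r O =>
      if r ≤ 2 * n + a then η r O else 0 with hηt
    set ηt' : (r : ℕ) → (Fin r → Xo) → ℝ → ℝ := fun r O =>
      if r ≤ 2 * n + a then η' r O else 0 with hηt'
    have hc0 : ∀ (r : ℕ) (O : Fin r → Xo), CurB ep (ηt r O) (ηt' r O) := by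
      intro r O
      simp only [hηt, hηt']
      split_ifs with hr
      · exact hcur r hr O
      · exact ⟨fun t => by simpa using hasDerivAt_const t (0 : ℝ), continuous_const, fun t => by
          have := NUP1.l_pos
          simp only [Pi.zero_apply, abs_zero]
          positivity, ⟨0, fun t => by simp⟩⟩
    have h1 := hR ηt ηt' hc0 n
    have key : ENNReal.ofReal (Real.exp (b' * (ν - n))) * ‖Z n‖ₑ ≤
        ENNReal.ofReal (Q * Real.exp (δ * L)) := by
      calc ENNReal.ofReal (Real.exp (b' * (ν - n))) * ‖Z n‖ₑ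
          ≤ ENNReal.ofReal (Real.exp (b' * (ν - n))) * ∑ r ∈ range (2 * n + a + 1),
            ((r.factorial : ℝ≥0∞))⁻¹ * ∫⁻ O : Fin r → Xo,
              T n r O (ηt r O) (ηt' r O) ∂(Measure.pi fun _ => nu) :=
            mul_le_mul_right h1 _
        _ = ∑ r ∈ range (2 * n + a + 1), ((r.factorial : ℕ) : ℝ≥0∞)⁻¹ *
            ∫⁻ O : Fin r → Xo, ENNReal.ofReal (Real.exp (b' * (ν - n))) *
              T n r O (ηt r O) (ηt' r O) ∂(Measure.pi fun _ => nu) := by
            rw [Finset.mul_sum]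
            refine Finset.sum_congr rfl fun r _ => ?_
            rw [lintegral_const_mul' _ _ ENNReal.ofReal_ne_top]
            ring
        _ ≤ ENNReal.ofReal (Q * Real.exp (δ * L)) := by
            refine h L hL ep hep hep' e1 he1 he1' J hJ hsm Q hQ (2 * n + a + 1) ?_
              (fun r O => ENNReal.ofReal (Real.exp (b' * (ν - n))) *
                T n r O (ηt r O) (ηt' r O)) ?_
            · refine le_trans ?_ hN
              exact_mod_cast (by omega : 2 * n + a + 1 ≤ 2 * N + a + 1)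
            · intro r hr O
              have hr' : r ≤ 2 * n + a := Nat.lt_succ_iff.1 hr
              have h2 := hbd r hr' O (WZ D L r)
              simp only [hηt, hηt', if_pos hr']
              refine h2.trans (ENNReal.ofReal_le_ofReal (le_of_eq ?_))
              have e1 : Q * (if (r : ℝ) ≤ L then 1 else Real.exp (c' * L)) =
                  if (r : ℝ) ≤ L then Q else Q * Real.exp (c' * L) := by
                split_ifs
                · rw [mul_one]
                · rfl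
              rw [e1]
              rfl
    rw [← ofReal_norm, ← ENNReal.ofReal_mul (Real.exp_pos _).le] at key
    exact (ENNReal.ofReal_le_ofReal_iff (by positivity)).1 key
  have h1 := NUCR.sum_n_le (b := 0) (d := d) (s := ν) (Q := Q * Real.exp (δ * L)) hd
    (by positivity) (fun n => ‖Z n‖) (N + 1)
    (fun n hn => by
      have := hone n (by omega) d (Or.inl rfl)
      simpa using this)
    (fun n hn => by
      have := hone n (by omega) (-d) (Or.inr rfl)
      simpa using this)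
  simpa using h1

variable [Fil]

/-- **the bound of one class** -/
theorem glue_class {C c b c1 c' : ℝ} {k : ℕ} (hC : 0 < C) (hc : 0 < c) (hb : 0 < b) (hc1 : 0 < c1)
    (hc' : 0 ≤ c') {δ : ℝ} (hδ : 0 < δ) :
    ∃ a0 : ℝ, 0 < a0 ∧ ∀ C' : ℝ, 0 ≤ C' → ∃ L0 : ℝ, ∀ L ≥ L0, ∀ ep : ℝ, 0 ≤ ep → ep ≤ 1 / 4 →
      ∀ e1 : ℝ, 0 < e1 → e1 ≤ 1 / 4 → ∀ J : ℝ, 0 ≤ J →
      Real.exp (-(2 * Real.pi * J)) + 3 * e1 + 3 * ep ≤ a0 →
      ∀ (ν d Q : ℝ) (N aX aY : ℕ) (B : OB) (P : Par) (Z : ℕ → ℂ), 0 < d → 0 ≤ Q →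
      ((2 * N + (aX + aY) + 1 : ℕ) : ℝ) ≤ Real.exp (2 * L) → R4Cof ep B P aX aY Z →
      PerCof C C' c b k c1 c' L ep e1 J ν d N B P aX aY Q →
      ∑ n ∈ range (N + 1), ‖Z n‖ ≤ 4 * (1 + 1 / d) * (Q * Real.exp (δ * L)) := by
  obtain ⟨a0, ha0, h⟩ := glue_gen (k := k) hC hc hb hc1 hc' hδ
  refine ⟨a0, ha0, fun C' hC' => ?_⟩
  obtain ⟨L0, h⟩ := h C' hC'
  exact ⟨L0, fun L hL ep hep hep' e1 he1 he1' J hJ hsm ν d Q N aX aY B P Z hd hQ hN hR hP =>
    h L hL ep hep hep' e1 he1 he1' J hJ hsm ν d Q N (aX + aY) _ Z hd hQ hN hR hP⟩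

end NUGC.PLX

end
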