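import Pool.Agent.PLX.Ns
import Pool.Agent.PLX.NUGC.DefC
import Pool.Agent.NUP1S.AbsH
import Pool.Agent.NURow.Data3
import Pool.Agent.NURow.Cls

/-!
# The class level: sum over the numbers of quanta and the integral (TARGET-C), port PLX

* `sum_lint_le'`, `sum_enorm_eq`, `sum_norm_le`: sums and upper integrals;
* `CD1_sum_val`: a bound of the sum over the numbers `n`, `n + e` of the moduli of the integrand of a
  class with one line, at a given half quantum, bounds the sum of the moduli of the integrals (no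
  measurability; `e` = number of the additional rows of species Y);
* `cDo`: the classes with one line.
-/

set_option autoImplicit false
set_option linter.unusedSectionVars false

noncomputable section

open Complex MeasureTheory Finset
open scoped ENNReal

namespace NUGC.PLX

open NUO NUP1 NUCR NUP1S NUP1S.Ab NUP1S.AbC NUP1S.AbG NURow NUP1.Leg

/-- sums of upper integrals (functions not assumed measurable) -/
theorem sum_lint_le' {α ι : Type*} [MeasurableSpace α] (μ : Measure α) (s : Finset ι)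
    (f : ι → α → ℝ≥0∞) : ∑ i ∈ s, ∫⁻ x, f i x ∂μ ≤ ∫⁻ x, ∑ i ∈ s, f i x ∂μ := by
  classical
  induction s using Finset.induction_on with
  | empty => simp
  | insert i s hi ih =>
    rw [Finset.sum_insert hi]
    calc ∫⁻ x, f i x ∂μ + ∑ j ∈ s, ∫⁻ x, f j x ∂μ
        ≤ ∫⁻ x, f i x ∂μ + ∫⁻ x, ∑ j ∈ s, f j x ∂μ := by gcongr
      _ ≤ ∫⁻ x, (f i x + ∑ j ∈ s, f j x) ∂μ := le_lintegral_add _ _
      _ = _ := lintegral_congr fun x => by rw [Finset.sum_insert hi]

/-- **the sum over the numbers and the integral of a class with one line** -/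
theorem CD1_sum_val (c : CD1) (X Y : Option O3 → ℂ → ℂ) (α : ℝ) (K e : ℕ)
    (lnX : ∀ p p' : ℕ, (Fin p → O3) → (Fin p' → O3) → Fin p → ℝ)
    (lnY : ∀ p p' : ℕ, (Fin p → O3) → (Fin p' → O3) → Fin p' → ℝ) (q : ℝ → ℝ≥0∞)
    (h : ∀ᵐ y : ℝ, ∑ n ∈ range (K + 1), ‖c.Z X Y α n (n + e) lnX lnY (vl c.a y)‖ₑ ≤ q y) :
    ∑ n ∈ range (K + 1), ‖c.val X Y α n (n + e) lnX lnY‖ₑ ≤ ∫⁻ y : ℝ, ‖c.K (vl c.a y)‖ₑ * q y := by
  calc ∑ n ∈ range (K + 1), ‖c.val X Y α n (n + e) lnX lnY‖ₑ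
      ≤ ∑ n ∈ range (K + 1), ∫⁻ y : ℝ, ‖c.K (vl c.a y)‖ₑ *
        ‖c.Z X Y α n (n + e) lnX lnY (vl c.a y)‖ₑ :=
        sum_le_sum fun n _ => c.val_le X Y α n (n + e) lnX lnY
    _ ≤ ∫⁻ y : ℝ, ∑ n ∈ range (K + 1), ‖c.K (vl c.a y)‖ₑ *
        ‖c.Z X Y α n (n + e) lnX lnY (vl c.a y)‖ₑ := sum_lint_le' _ _ _
    _ ≤ _ := by
      refine lintegral_mono_ae (h.mono fun y hy => ?_)
      rw [← Finset.mul_sum]
      gcongr

/-- sum of extended moduli -/
theorem sum_enorm_eq {ι : Type*} (s : Finset ι) (f : ι → ℂ) :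
    ∑ i ∈ s, ‖f i‖ₑ = ENNReal.ofReal (∑ i ∈ s, ‖f i‖) := by
  rw [ENNReal.ofReal_sum_of_nonneg fun i _ => norm_nonneg _]
  exact sum_congr rfl fun i _ => (ofReal_norm _).symm

/-- a real bound from an extended one -/
theorem sum_norm_le {ι : Type*} {s : Finset ι} {f : ι → ℂ} {B : ℝ} (hB : 0 ≤ B)
    (h : ∑ i ∈ s, ‖f i‖ₑ ≤ ENNReal.ofReal B) : ∑ i ∈ s, ‖f i‖ ≤ B := by
  rw [sum_enorm_eq] at h
  exact (ENNReal.ofReal_le_ofReal_iff hB).1 h

/-! ### the classes with one line -/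

/-- the class with one line: `o = true`: D1, `o = false`: D1' -/
def cDo (o : Bool) (k : ℂ → ℂ) : CD1 := if o then cD k else cD' k

theorem cDo_a (o : Bool) (k : ℂ → ℂ) : (cDo o k).a = -(11 / 4) * l := by
  cases o <;> rfl

theorem cDo_K (o : Bool) (k : ℂ → ℂ) : (cDo o k).K = k := by
  cases o <;> rfl

end NUGC.PLX

end
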