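import Pool.Agent.PLX.Ns
import Pool.Agent.PLX.NUGC.ThN
import Pool.Agent.PLX.NUGC.GasQ
import Pool.Agent.NURow.Data3

/-!
# The one body functions of the classes of TARGET-C (rows at `± l / 2`, two ends)

`oneC_XH`: the functions `NURow.XH (c a) β M N (s1 a) (s2 a)` are bounded by the one body data
`obC (M + 1 / 2) N β g`, `g a u = ThN u * ‖s1 a u‖`.
-/

set_option autoImplicit false

noncomputable section

open Complex MeasureTheory Finset
open scoped ENNReal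

namespace NUGC.PLX

open NUO NUP1 NUCR NUP1S NUP1S.Ab NUP1S.AbC NURow

/-! ## nonvanishing sines on the lines -/

theorem sinC_ne {z : ℂ} {x : ℝ} (h : z.re = x) (hx : Real.sin x ≠ 0) : Complex.sin z ≠ 0 :=
  Bd.sin_ne_zero_of_re (by rwa [h])

theorem sin_pos_ne {x : ℝ} (h0 : 0 < x) (h1 : x < 8 * l) : Real.sin x ≠ 0 :=
  NURow.sin_ne_pos h0 h1

/-- the same on `[x0, 21/20 l]` -/
structure SpecAt (x0 : ℝ) (b : Bool) (Q : ℝ) (s1 : ℂ → ℂ) : Prop where
  bd : Bdd (Set.Icc x0 (21 / 20 * l)) (-(2 * Q * sc (b, .A))) s1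
  df : ∀ z : ℂ, z.re ∈ Set.Icc x0 (21 / 20 * l) → DifferentiableAt ℂ s1 z

/-- spectators of the strings from the spectators of the quanta, outside a null set of heights -/
def SpecS (P : NUO.Par) (E : Set ℝ) (s1 s2 : ℂ → ℂ) : Prop :=
  (∀ t ∉ E, ‖s2 (posT t)‖ ≤ ‖s1 (posT t)‖ * ‖s1 (posT t - l)‖) ∧
  ∀ (r : ℕ) (e t : ℝ), t ∉ E → P.e ≤ e → e ≤ P.e + P.d r →
    ‖s2 (posS e t)‖ ≤ ‖s1 (posS e t)‖ * ‖s1 (posS e t - l)‖

/-- conditions on the parameters of TARGET-C -/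
structure ParC (P : NUO.Par) : Prop where
  j1 : 9 / 4 ≤ P.jL
  j2 : P.jL ≤ 27 / 10
  e1 : 1 / 10 ≤ P.e
  d0 : ∀ r, 0 < P.d r
  e2 : ∀ r, P.e + 9 / 8 * P.d r ≤ 3 / 10
  rm : ∀ r, Measurable (P.rad r)
  r0 : ∀ r t, 0 < P.rad r t
  r1 : ∀ r t, P.rad r t ≤ l * P.d r / (8 * (r + 1))

theorem ParC.goodP {P : NUO.Par} (h : ParC P) : GoodP P :=
  ⟨by linarith [h.j1], by linarith [h.j2], h.e1, h.d0, fun r => by
    have h1 := h.e2 r
    have h2 := h.d0 r
    linarith, h.r0, h.r1⟩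

theorem ParC.goodQ {P : NUO.Par} (h : ParC P) : GoodQ P (3 / 5 * l) where
  toGoodP := h.goodP
  xp := by
    have := l_pos
    positivity
  xl r := by
    have hl := l_pos
    have := h.e2 r
    nlinarith

/-- the start lines and the final lines are in 81's strips -/
theorem ParC.lnO_mem {P : NUO.Par} (h : ParC P) {r i : ℕ} (hi : i < r) (k : O3) :
    lnO P r i k ∈ Set.Icc
      (lo4 (3 / 5 * l) (-(17 / 10 * l)) (-(13 / 10 * l)) (-(7 / 10 * l)) (some k))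
      (lo4 (3 / 5 * l) (-(5 / 4 * l)) (-(7 / 10 * l)) (-(l / 2)) (some k)) := by
  have hl := l_pos
  have hr : (0 : ℝ) < r := by exact_mod_cast (Nat.zero_le i).trans_lt hi
  have g0 : (0 : ℝ) ≤ (i : ℝ) / r := by positivity
  have g1 : (i : ℝ) / r ≤ 1 := by
    rw [div_le_one hr]
    exact_mod_cast hi.le
  have j1 := h.j1
  have j2 := h.j2
  have e1 := h.e1
  have d0 := h.d0 r
  have e2 := h.e2 r
  have k1 : P.d r * ((i : ℝ) / r) ≤ P.d r := by nlinarith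
  have k2 : 0 ≤ P.d r * ((i : ℝ) / r) := by positivity
  cases k <;> simp only [lo4, lnO] <;> constructor <;> nlinarith

variable {P : NUO.Par} {ep β Q : ℝ} {M N : ℕ} {c : Bool → ℂ} {s1 s2 : Bool → ℂ → ℂ} {E : Set ℝ}

end NUGC.PLX

end
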