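import Pool.Agent.PLX.Ns
import Pool.Agent.PLX.NUGC.OneXH
import Pool.Agent.PLX.NUGC.OneU

/-!
# Classes with simple poles: one body data (TARGET-C, classes Hs, Hs+)

The quanta of species `es j` have a simple pole at `ep j` (`3/5 l < Re ep j < 19/20 l`):
* `sU`, `s2U`: spectators in the presence of the quanta at the simple poles; `XU_XH`;
* `SpecS_U`, `SpecAt_U`: their regularity;
* `r4U_XH`: the representation corollary.
-/

set_option autoImplicit false
set_option linter.unusedSectionVars false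

noncomputable section

open Complex MeasureTheory Finset
open scoped ENNReal

namespace NUGC.PLX

open NUO NUP1 NUCR NUP1S NUP1S.Ab NUP1S.AbC NUP1S.AbG NURow

variable {ε : Type*} [Fintype ε] [DecidableEq ε]

/-- spectators of the quanta in the presence of the quanta at the simple poles -/
def sU (es : ε → Bool) (ep : ε → ℂ) (υ : ε → Fin 3) (s1 : Bool → ℂ → ℂ) (a : Bool) (u : ℂ) : ℂ :=
  s1 a u * ∏ j, PP a (es j) (u - ep j) ^ (υ j : ℕ)

/-- spectators of the strings in the presence of the quanta at the simple poles -/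
def s2U (es : ε → Bool) (ep : ε → ℂ) (υ : ε → Fin 3) (s2 : Bool → ℂ → ℂ) (a : Bool) (w : ℂ) : ℂ :=
  s2 a w * ∏ j, gz (es j, .A) (a, .S) (ep j - w) ^ (υ j : ℕ)

theorem gz_AL (s s' : Bool) (u p : ℂ) : gz (s, .A) (s', .L) (p - u) = PP s' s (u - p) := by
  rw [← PP_neg, neg_sub, PP_comm]
  rfl

theorem measurable_sU {es : ε → Bool} {ep : ε → ℂ} {υ : ε → Fin 3} {s1 : Bool → ℂ → ℂ} {a : Bool}
    (h : Measurable (s1 a)) : Measurable (sU es ep υ s1 a) :=
  h.mul (Finset.measurable_prod _ fun j _ =>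
    ((measurable_PP a (es j)).comp (measurable_id.sub_const _)).pow_const _)

theorem measurable_s2U {es : ε → Bool} {ep : ε → ℂ} {υ : ε → Fin 3} {s2 : Bool → ℂ → ℂ} {a : Bool}
    (h : Measurable (s2 a)) : Measurable (s2U es ep υ s2 a) :=
  h.mul (Finset.measurable_prod _ fun j _ =>
    ((measurable_gz (es j, .A) (a, .S)).comp (measurable_const.sub measurable_id)).pow_const _)

/-- a quantum at a pole and a string -/
theorem norm_gz_AS {s s' : Bool} {w p : ℂ} (h : (p - w).im ≠ 0) :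
    ‖gz (s, .A) (s', .S) (p - w)‖ = ‖PP s' s (w - p)‖ * ‖PP s' s (w - l - p)‖ := by
  have e1 : PP s' s (w - p) = PP s s' (p - w) := by rw [← PP_neg, neg_sub, PP_comm]
  have e2 : PP s' s (w - l - p) = PP s s' (p - w + l) := by
    rw [← PP_neg, PP_comm]
    congr 1
    ring
  rw [e1, e2, ← norm_mul]
  congr 1
  unfold gz PP
  by_cases hs : s = s'
  · rw [if_pos hs, if_pos hs, if_pos hs]
    exact (Bd.q_mul_q h).symm
  · rw [if_neg hs, if_neg hs, if_neg hs]
    rfl

/-- the null set of heights of the simple poles -/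
def EU (E : Set ℝ) (ep : ε → ℂ) : Set ℝ := E ∪ Set.range fun j => (ep j).im

theorem EU_null {E : Set ℝ} (hE : volume E = 0) (ep : ε → ℂ) : volume (EU E ep) = 0 := by
  unfold EU
  rw [measure_union_null_iff]
  exact ⟨hE, (Set.finite_range _).measure_zero _⟩

theorem norm_s2U_le {es : ε → Bool} {ep : ε → ℂ} {υ : ε → Fin 3} {s1 s2 : Bool → ℂ → ℂ} {a : Bool}
    {w : ℂ} (hw : ∀ j, w.im ≠ (ep j).im) (h : ‖s2 a w‖ ≤ ‖s1 a w‖ * ‖s1 a (w - l)‖) :
    ‖s2U es ep υ s2 a w‖ ≤ ‖sU es ep υ s1 a w‖ * ‖sU es ep υ s1 a (w - l)‖ := by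
  have e : ‖∏ j, gz (es j, .A) (a, .S) (ep j - w) ^ (υ j : ℕ)‖ =
      ‖∏ j, PP a (es j) (w - ep j) ^ (υ j : ℕ)‖ *
        ‖∏ j, PP a (es j) (w - l - ep j) ^ (υ j : ℕ)‖ := by
    simp only [norm_prod, norm_pow]
    rw [← Finset.prod_mul_distrib]
    refine Finset.prod_congr rfl fun j _ => ?_
    rw [norm_gz_AS, mul_pow]
    rw [sub_im]
    exact sub_ne_zero.2 fun h => hw j h.symm
  unfold s2U sU
  rw [norm_mul, norm_mul, norm_mul, e]
  calc _ ≤ ‖s1 a w‖ * ‖s1 a (w - l)‖ * (‖∏ j, PP a (es j) (w - ep j) ^ (υ j : ℕ)‖ *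
        ‖∏ j, PP a (es j) (w - l - ep j) ^ (υ j : ℕ)‖) :=
      mul_le_mul_of_nonneg_right h (by positivity)
    _ = _ := by ring

theorem SpecS_U {P : NUO.Par} {E : Set ℝ} {es : ε → Bool} {ep : ε → ℂ} {υ : ε → Fin 3}
    {s1 s2 : Bool → ℂ → ℂ} {a : Bool} (h : SpecS P E (s1 a) (s2 a)) :
    SpecS P (EU E ep) (sU es ep υ s1 a) (s2U es ep υ s2 a) := by
  have hne : ∀ {t : ℝ}, t ∉ EU E ep → t ∉ E ∧ ∀ j, t ≠ (ep j).im := fun {t} ht =>
    ⟨fun h' => ht (Or.inl h'), fun j h' => ht (Or.inr ⟨j, h'.symm⟩)⟩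
  refine ⟨fun t ht => ?_, fun r e t ht h1 h2 => ?_⟩
  · obtain ⟨t1, t2⟩ := hne ht
    refine norm_s2U_le (fun j => ?_) (h.1 t t1)
    have : (posT t).im = t := by
      unfold posT vl
      simp
    rw [this]
    exact t2 j
  · obtain ⟨t1, t2⟩ := hne ht
    refine norm_s2U_le (fun j => ?_) (h.2 r e t t1 h1 h2)
    have : (posS e t).im = t := by
      unfold posS vl
      simp
    rw [this]
    exact t2 j

/-- numbers of the quanta at the poles -/
theorem sum_sg (es : ε → Bool) (υ : ε → Fin 3) :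
    ∑ j, (sg (es j) : ℝ) * (υ j : ℕ) = (nE es true υ : ℝ) - nE es false υ := by
  have h0 : ∀ s, (nE es s υ : ℝ) = ∑ j, if es j = s then ((υ j : ℕ) : ℝ) else 0 := by
    intro s
    unfold nE
    push_cast
    rw [Finset.sum_filter]
  rw [h0, h0, ← Finset.sum_sub_distrib]
  refine Finset.sum_congr rfl fun j _ => ?_
  cases es j <;> simp [sg]

theorem bdd_PP {K : Set ℝ} (s s' : Bool) {p : ℂ} {w : ℝ} (hw0 : 0 ≤ w) (hw : w < l)
    (hK : ∀ x ∈ K, |x - p.re| ≤ w) :
    Bdd K (2 * (sg s * sg s' : ℤ)) fun u => PP s s' (u - p) := by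
  obtain ⟨C, hC, hb⟩ := PP_bound hw0 hw
  refine Bdd.translate (f := PP s s') (z0 := p) ⟨C, by linarith, fun z hz => ?_⟩
  obtain ⟨x, hx, e⟩ := hz
  refine (hb s s' z ?_).trans (le_of_eq ?_)
  · rw [← e]
    have := hK x hx
    rwa [sub_eq_add_neg] at this
  · congr 2
    push_cast
    ring

theorem SpecAt_U {es : ε → Bool} {ep : ε → ℂ} {υ : ε → Fin 3} {s1 : Bool → ℂ → ℂ} {a : Bool}
    {q : ℤ} (h : SpecAt (19 / 20 * l) a q (s1 a))
    (hx : ∀ j, 3 / 5 * l < (ep j).re ∧ (ep j).re < 19 / 20 * l) :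
    SpecAt (19 / 20 * l) a ((q - nE es true υ + nE es false υ : ℤ) : ℝ) (sU es ep υ s1 a) := by
  have hl := l_pos
  have hK : ∀ j, ∀ x ∈ Set.Icc (19 / 20 * l) (21 / 20 * l), |x - (ep j).re| ≤ 9 / 20 * l := by
    intro j x hx'
    obtain ⟨h1, h2⟩ := hx j
    rw [abs_le]
    exact ⟨by linarith [hx'.1], by linarith [hx'.2]⟩
  refine ⟨?_, fun z hz => (h.df z hz).mul (DifferentiableAt.fun_finsetProd fun j _ => ?_)⟩
  · have h1 : Bdd (Set.Icc (19 / 20 * l) (21 / 20 * l))
        (∑ j, ((υ j : ℕ) : ℝ) * (2 * (sg a * sg (es j) : ℤ)))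
        fun u => ∏ j, PP a (es j) (u - ep j) ^ (υ j : ℕ) :=
      bdd_prod fun j => (bdd_PP a (es j) (by positivity) (by linarith) (hK j)).pow _
    refine (h.bd.mul h1).rate ?_
    have h2 : ∑ j, ((υ j : ℕ) : ℝ) * (2 * (sg a * sg (es j) : ℤ)) =
        2 * sg a * ((nE es true υ : ℝ) - nE es false υ) := by
      rw [← sum_sg, Finset.mul_sum]
      refine Finset.sum_congr rfl fun j _ => ?_
      push_cast
      ring
    rw [h2]
    cases a <;> simp [sc, sg, Bd.chg] <;> ring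
  · refine DifferentiableAt.pow ?_ _
    have := PP_diff a (es j) (z := z - ep j) (by
      rw [sub_re]
      exact (hK j _ hz).trans_lt (by linarith))
    exact this.comp z (differentiableAt_id.sub_const _)

/-- regular parts of the spectators with simple poles of species `es j` at `ep j` -/
structure SpecP (es : ε → Bool) (ep : ε → ℂ) (a : Bool) (Q : ℝ) (t1 : ℂ → ℂ) : Prop where
  bd : Bdd (Set.Icc (3 / 5 * l) (21 / 20 * l)) (-(2 * Q * sc (a, .A)) + cE es a) t1
  df : ∀ z : ℂ, z.re ∈ Set.Icc (3 / 5 * l) (21 / 20 * l) → DifferentiableAt ℂ t1 z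

theorem SpecP.at {es : ε → Bool} {ep : ε → ℂ} {a : Bool} {Q : ℝ} {t1 : ℂ → ℂ}
    (h : SpecP es ep a Q t1)
    (hx : ∀ j, 3 / 5 * l < (ep j).re ∧ (ep j).re < 19 / 20 * l) :
    SpecAt (19 / 20 * l) a Q fun u => t1 u / dX es ep a u := by
  have hl := l_pos
  have hsub : Set.Icc (19 / 20 * l) (21 / 20 * l) ⊆ Set.Icc (3 / 5 * l) (21 / 20 * l) :=
    Set.Icc_subset_Icc (by linarith) le_rfl
  have hpos : ∀ j, ∀ x ∈ Set.Icc (19 / 20 * l) (21 / 20 * l), 0 < x - (ep j).re ∧
      x - (ep j).re < l := by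
    intro j x hx'
    obtain ⟨h1, h2⟩ := hx j
    exact ⟨by linarith [hx'.1], by linarith [hx'.2]⟩
  have hs : ∀ j, ∀ z : ℂ, z.re ∈ Set.Icc (19 / 20 * l) (21 / 20 * l) →
      Complex.sin (z - ep j) ≠ 0 := fun j z hz =>
    sinC_ne (x := z.re - (ep j).re) (by simp)
      (sin_pos_ne (hpos j _ hz).1 (by linarith [(hpos j _ hz).2]))
  have hI : ∀ j, Bdd (Set.Icc (19 / 20 * l) (21 / 20 * l)) (-(if es j = a then 1 else 0))
      fun z => 1 / (if es j = a then Complex.sin (z - ep j) else 1) := by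
    intro j
    by_cases hj : es j = a
    · simp only [if_pos hj]
      have hK : IsCompact ((fun v => v + -(ep j).re) ''
          Set.Icc (19 / 20 * l) (21 / 20 * l)) := isCompact_Icc.image (by fun_prop)
      have h1 := bdd_inv_sin hK 0 (by
        rintro _ ⟨x, hx', rfl⟩
        have := hpos j x hx'
        show Real.sin (x + -(ep j).re + 0) ≠ 0
        rw [add_zero, ← sub_eq_add_neg]
        exact sin_pos_ne this.1 (by linarith [this.2]))
      have h2 := Bdd.translate (z0 := ep j) h1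
      simpa using h2
    · simp only [if_neg hj]
      exact (Bdd.const _ _).rate (by simp)
  have hD : Bdd (Set.Icc (19 / 20 * l) (21 / 20 * l)) (-(cE es a)) fun z => 1 / dX es ep a z := by
    have h1 := bdd_prod hI
    obtain ⟨C, hC, hb⟩ := h1
    refine ⟨C, hC, fun z hz => ?_⟩
    have := hb z hz
    have e1 : (∏ j, (1 : ℂ) / (if es j = a then Complex.sin (z - ep j) else 1)) =
        1 / dX es ep a z := by
      unfold dX
      rw [Finset.prod_div_distrib, Finset.prod_const_one]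
    have e2 : (∑ j, -(if es j = a then (1 : ℝ) else 0)) = -(cE es a) := by
      unfold cE
      rw [Finset.sum_neg_distrib]
    simp only [e1, e2] at this
    exact this
  have hne : ∀ z : ℂ, z.re ∈ Set.Icc (19 / 20 * l) (21 / 20 * l) → dX es ep a z ≠ 0 := by
    intro z hz
    refine Finset.prod_ne_zero_iff.2 fun j _ => ?_
    split_ifs
    · exact hs j z hz
    · exact one_ne_zero
  refine ⟨?_, fun z hz => (h.df z (hsub hz)).div ?_ (hne z hz)⟩
  · obtain ⟨C, hC, hb⟩ := h.bd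
    have h1 : Bdd (Set.Icc (19 / 20 * l) (21 / 20 * l)) (-(2 * Q * sc (a, .A)) + cE es a) t1 :=
      ⟨C, hC, fun z hz => hb z (hsub hz)⟩
    have h2 := (h1.mul hD).rate (s' := -(2 * Q * sc (a, .A))) (by ring)
    obtain ⟨C, hC, hb⟩ := h2
    refine ⟨C, hC, fun z hz => ?_⟩
    have := hb z hz
    simp only [mul_one_div] at this
    exact this
  · unfold dX
    refine DifferentiableAt.fun_finsetProd fun j _ => ?_
    by_cases hj : es j = a
    · simp only [if_pos hj]
      exact (Complex.differentiable_sin _).comp z (differentiableAt_id.sub_const _)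
    · simp only [if_neg hj]
      exact differentiableAt_const _

/-- weight of the choice `υ` of quanta at the simple poles -/
def cU (es : ε → Bool) (ep : ε → ℂ) (Gr : Bool → ℂ → ℂ) (υ : ε → Fin 3) : ℝ≥0∞ :=
  if ∀ j, υ j ≠ 2 then ‖wE es ep υ Gr‖ₑ else 0

end NUGC.PLX

end
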