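import Pool.Agent.PLX.Ns
import Pool.Agent.PLX.NUGC.OneUX
import Pool.Agent.NURow.Cls

/-!
# The representation corollary of the final classes (TARGET-C)

`HG`: spectators of a half quantum (own orientation) on the strip of the quanta, with at most one
simple pole (own species, at the half quantum); instances for the types W, F, P, H, D1.
`r4_two`: `R4genU` for two half quanta at fixed positions.
-/

set_option autoImplicit false
set_option linter.unusedSectionVars false

noncomputable section

open Complex MeasureTheory Finset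
open scoped ENNReal

namespace NUGC.PLX

open NUO NUP1 NUCR NUP1S NUP1S.Ab NUP1S.AbC NUP1S.AbG NURow NUP1.Leg

/-! ## the host string -/

/-- the regular part of the spectators (own species) of a half quantum with its host string -/
def hR1 (x : ℂ) : ℂ := -(sin (x + 2 * l) / (sin (x + l) * sin (x + 3 * l) ^ 2))

theorem sin_sub_8l (z : ℂ) : sin (z - 8 * l) = -sin z := by
  rw [NURow.l8, Complex.sin_sub_pi]

theorem host_own (x : ℂ) : hostS false SF true none x = hR1 x / sin (-x) := by
  have e0 : hostS false SF true none x = (Bd.qg (x - 2 * l) * Bd.qg (x - 2 * l - l)) * Ck x := rfl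
  have c1 : cos (x - 2 * l) = sin (x + 2 * l) := by
    rw [← sin_4l]
    congr 1
    ring
  have c2 : cos (x - 2 * l - l) = sin (x + l) := by
    rw [← sin_4l]
    congr 1
    ring
  have s1 : sin (x - 2 * l + 3 * l) = sin (x + l) := by
    congr 1
    ring
  have s2 : sin (x - 2 * l - 3 * l) = -sin (x + 3 * l) := by
    rw [← sin_sub_8l]
    congr 1
    ring
  have s3 : sin (x - 2 * l - l + 3 * l) = sin x := by
    congr 1
    ring
  have s4 : sin (x - 2 * l - l - 3 * l) = -sin (x + 2 * l) := by
    rw [← sin_sub_8l]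
    congr 1
    ring
  rw [e0]
  unfold Bd.qg Ck hR1
  rw [c1, c2, s1, s2, s3, s4, Complex.sin_neg]
  by_cases h0 : sin x = 0
  · simp [h0]
  by_cases h1 : sin (x + l) = 0
  · simp [h1]
  by_cases h2 : sin (x + 2 * l) = 0
  · simp [h2]
  by_cases h3 : sin (x + 3 * l) = 0
  · simp [h3]
  field_simp

theorem gz_flip (b c : Bool) (k k' : Bd.Ob) (x : ℂ) : gz (b, k) (c, k') x = gz (!b, k) (!c, k') x := by
  cases b <;> cases c <;> rfl

/-- the host string of the second half quantum -/
theorem host_fl (b : Bool) (F : Bool → Option O3 → ℂ → ℂ) :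
    hostS b (fl F) = fl (hostS (!b) F) := by
  funext c k x
  show gz (b, .S) (c, ob4 k) (x - 2 * l) * F (!c) k x =
    gz (!b, .S) (!c, ob4 k) (x - 2 * l) * F (!c) k x
  rw [← gz_flip]

theorem mulI_host {F : Bool → Option O3 → ℂ → ℂ} (h : MulI F) (b : Bool) :
    MulI (hostS b F) := by
  intro c x hx
  have key : ∀ y : ℂ, gz (b, .S) (c, .S) y = gz (b, .S) (c, .A) y * gz (b, .S) (c, .A) (y + l) := by
    intro y
    unfold gz
    by_cases hbc : b = c
    · simp only [if_pos hbc]
      show q1 y * q1 (y - l) = q1 (-y) * q1 (-(y + l))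
      have e1 : q1 (-y) = q1 (y - l) := Bd.q1_neg y
      have e2 : q1 (-(y + l)) = q1 y := by
        rw [Bd.q1_neg]
        congr 1
        ring
      rw [e1, e2]
      ring
    · simp only [if_neg hbc]
      show Bd.qg y * Bd.qg y * (Bd.qg (y + l) * Bd.qg (y - l)) = Bd.qg y * Bd.qg (y - l) * (Bd.qg (y + l) * Bd.qg (y + l - l))
      rw [add_sub_cancel_right]
      ring
  show gz (b, .S) (c, .S) (x - 2 * l) * F c (some .S) x =
    gz (b, .S) (c, .A) (x - 2 * l) * F c none x * (gz (b, .S) (c, .A) (x + l - 2 * l) *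
      F c none (x + l))
  rw [key, h c x hx, show x + (l : ℂ) - 2 * l = x - 2 * l + l by ring]
  ring

/-! ## groups -/

/-- **spectators of a half quantum at `Re = p`** (first argument of `F`: own species), rate `q`,
`pl` = simple pole of the quanta of its own species at the half quantum, `T` = regular parts -/
structure HG (pl : Bool) (q p : ℝ) (F : Bool → Option O3 → ℂ → ℂ) (T : Bool → ℂ → ℂ) : Prop where
  pb : ∀ c, PB (q * sc (c, .A) + if (pl && c) then 1 else 0)
    (Set.Icc (p - 21 / 20 * l) (p - 3 / 5 * l)) (T c)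
  ms : ∀ c k, Measurable (F c k)
  mt : ∀ c, Measurable (T c)
  eq : ∀ c x, F c none x = T c x / (if (pl && c) then sin (-x) else 1)
  kL : ∀ c, F c (some .L) = F c none
  kT : ∀ c, F c (some .T) = F c (some .S)
  mul : MulI F
  hp : pl = true → 3 / 5 * l < p ∧ p ≤ 5 / 8 * l

theorem HG_SF_A : HG false 1 (5 / 4 * l) SF (fun c => SF c none) where
  pb c := by
    have hl := l_pos
    refine ((PB_SF_A c none (Or.inr (by decide))).mono (Set.Icc_subset_Icc ?_ ?_)).rate ?_
    · simp only [hiK]
      linarith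
    · simp only [loK]
      linarith
    · simp [ob4]
  ms := measurable_SF
  mt c := measurable_SF c none
  eq c x := by simp
  kL c := by cases c <;> rfl
  kT c := by cases c <;> rfl
  mul := mulI_SF
  hp h := by simp at h

/-- groups without poles from `HQ` -/
theorem HG_of {cw q p : ℝ} {F : Bool → Option O3 → ℂ → ℂ} (h : HQ cw p F) (hm : MulI F)
    (hq : q = 2 * cw) : HG false q p F (fun c => F c none) where
  pb c := (h.pb c none).rate (by rw [hq]; simp [ob4])
  ms := h.ms
  mt c := h.ms c none
  eq c x := by simp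
  kL := h.kL
  kT := h.kT
  mul := hm
  hp h := by simp at h

/-- regular parts for the type H -/
def hT (c : Bool) (x : ℂ) : ℂ := if c then hR1 x else hostS false SF false none x

theorem measurable_hostS {b : Bool} {F : Bool → Option O3 → ℂ → ℂ} (h : ∀ c k, Measurable (F c k))
    (c : Bool) (k : Option O3) : Measurable (hostS b F c k) :=
  ((measurable_gz (b, .S) (c, ob4 k)).comp (measurable_id.sub_const _)).mul (h c k)

theorem PB_hR1 : PB (-2) (Set.Icc (5 / 8 * l - 21 / 20 * l) (5 / 8 * l - 3 / 5 * l)) hR1 := by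
  have hl := l_pos
  have h1 := NURow.PB_sin (Set.Icc (5 / 8 * l - 21 / 20 * l) (5 / 8 * l - 3 / 5 * l)) (2 * l)
  have h2 := NURow.PB_inv_sin (K := Set.Icc (5 / 8 * l - 21 / 20 * l) (5 / 8 * l - 3 / 5 * l))
    isCompact_Icc l fun d hd => NURow.sin_ne_pos (by linarith [hd.1]) (by linarith [hd.2])
  have h3 := NURow.PB_inv_sin (K := Set.Icc (5 / 8 * l - 21 / 20 * l) (5 / 8 * l - 3 / 5 * l))
    isCompact_Icc (3 * l) fun d hd => NURow.sin_ne_pos (by linarith [hd.1]) (by linarith [hd.2])
  refine (((h1.mul h2).mul (h3.mul h3)).fneg.rate (by norm_num)).congr' fun z => ?_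
  unfold hR1
  push_cast
  by_cases h4 : sin (z + l) = 0
  · simp [h4]
  by_cases h5 : sin (z + 3 * l) = 0
  · simp [h5]
  field_simp

theorem PB_hostF : PB 3 (Set.Icc (5 / 8 * l - 21 / 20 * l) (5 / 8 * l - 3 / 5 * l))
    (hostS false SF false none) := by
  have hl := l_pos
  have h1 : PB (-1) (Set.Icc (5 / 8 * l - 21 / 20 * l) (5 / 8 * l - 3 / 5 * l)) Dk :=
    PB_Dk isCompact_Icc (fun d hd => NURow.sin_ne_pos (by linarith [hd.1]) (by linarith [hd.2]))
      fun d hd => NURow.sin_ne_neg (by linarith [hd.2]) (by linarith [hd.1])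
  have h2 : PB 4 (Set.Icc (5 / 8 * l - 21 / 20 * l) (5 / 8 * l - 3 / 5 * l))
      fun x => q1 (-(x - 2 * l)) := by
    have h3 : PB 4 (Set.univ) fun z => q1 (-z) :=
      ⟨bdd_q1n _, fun z _ => by
        unfold q1
        fun_prop⟩
    have h4 := h3.shift (K := Set.Icc (5 / 8 * l - 21 / 20 * l) (5 / 8 * l - 3 / 5 * l))
      (-(2 * l)) fun _ _ => Set.mem_univ _
    refine h4.congr' fun z => ?_
    push_cast
    ring_nf
  exact (h2.mul h1).rate (by norm_num)

theorem HG_host : HG true (-3) (5 / 8 * l) (hostS false SF) hT where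
  pb c := by
    cases c
    · exact PB_hostF.rate (by simp [sc, Bd.chg])
    · exact PB_hR1.rate (by simp [sc, Bd.chg]; norm_num)
  ms := measurable_hostS measurable_SF
  mt c := by
    cases c
    · exact measurable_hostS measurable_SF false none
    · show Measurable hR1
      unfold hR1
      fun_prop
  eq c x := by
    cases c
    · simp [hT]
    · simp only [hT, Bool.true_and, if_true]
      exact host_own x
  kL c := by cases c <;> rfl
  kT c := by cases c <;> rfl
  mul := mulI_host mulI_SF false
  hp _ := by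
    have hl := l_pos
    exact ⟨by linarith, le_rfl⟩

/-! ## two half quanta -/

/-- the simple poles: of X at `w` if `b`, of Y at `w'` if `b'` -/
abbrev Eps (b b' : Bool) : Type := {j : Bool // (if j then b else b') = true}

/-- species of the poles -/
def esE {b b' : Bool} (j : Eps b b') : Bool := j.1

/-- positions of the poles -/
def epE {b b' : Bool} (w w' : ℂ) (j : Eps b b') : ℂ := if j.1 then w else w'

theorem prod_eps {A : Type*} [CommMonoid A] (b b' : Bool) (f : Bool → A) :
    ∏ j : Eps b b', f j.1 = (if b then f true else 1) * (if b' then f false else 1) := by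
  have h1 : ∏ j ∈ Finset.univ.filter (fun j : Bool => (if j then b else b') = true), f j =
      ∏ j : Eps b b', f j.1 :=
    Finset.prod_subtype _ (fun j => by rw [Finset.mem_filter]; exact ⟨fun h => h.2,
      fun h => ⟨Finset.mem_univ _, h⟩⟩) f
  rw [← h1, Finset.prod_filter, Fintype.prod_bool]
  simp

theorem sum_eps (b b' : Bool) (f : Bool → ℝ) :
    ∑ j : Eps b b', f j.1 = (if b then f true else 0) + (if b' then f false else 0) := by
  have h1 : ∑ j ∈ Finset.univ.filter (fun j : Bool => (if j then b else b') = true), f j =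
      ∑ j : Eps b b', f j.1 :=
    Finset.sum_subtype _ (fun j => by rw [Finset.mem_filter]; exact ⟨fun h => h.2,
      fun h => ⟨Finset.mem_univ _, h⟩⟩) f
  rw [← h1, Finset.sum_filter, Fintype.sum_bool]
  simp

/-- the spectators of the quanta -/
def sG (F F' : Bool → Option O3 → ℂ → ℂ) (w w' : ℂ) (a : Bool) (u : ℂ) : ℂ :=
  F a none (w - u) * F' (!a) none (w' - u)

/-- the spectators of the strings -/
def s2G (F F' : Bool → Option O3 → ℂ → ℂ) (w w' : ℂ) (a : Bool) (u : ℂ) : ℂ :=
  F a (some .S) (w - u) * F' (!a) (some .S) (w' - u)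

/-- regular parts of the spectators of the quanta -/
def tG (T T' : Bool → ℂ → ℂ) (w w' : ℂ) (a : Bool) (u : ℂ) : ℂ := T a (w - u) * T' (!a) (w' - u)

theorem dX_eps (b b' a : Bool) (w w' u : ℂ) : dX (esE (b := b) (b' := b')) (epE w w') a u =
    (if (b && a) then sin (u - w) else 1) * (if (b' && !a) then sin (u - w') else 1) := by
  have h := prod_eps b b' fun j => if j = a then sin (u - if j then w else w') else 1
  refine Eq.trans h ?_
  cases b <;> cases b' <;> cases a <;> simp

theorem cE_eps (b b' a : Bool) : cE (esE (b := b) (b' := b')) a =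
    (if (b && a) then 1 else 0) + (if (b' && !a) then 1 else 0) := by
  have h := sum_eps b b' fun j => if j = a then 1 else 0
  refine Eq.trans h ?_
  cases b <;> cases b' <;> cases a <;> simp

variable {P : NUO.Par} {β x : ℝ} {M N : ℕ} {c : Bool → ℂ} {pl pl' : Bool} {q q' p p' : ℝ}
  {F F' : Bool → Option O3 → ℂ → ℂ} {T T' : Bool → ℂ → ℂ} {w w' : ℂ}

theorem tG_div (hF : HG pl q p F T) (hF' : HG pl' q' p' F' T') (a : Bool) (u : ℂ) :
    tG T T' w w' a u / dX (esE (b := pl) (b' := pl')) (epE w w') a u = sG F F' w w' a u := by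
  unfold tG sG
  rw [dX_eps, hF.eq, hF'.eq, neg_sub, neg_sub, mul_div_mul_comm]

theorem specP_two (hF : HG pl q p F T) (hF' : HG pl' q' p' F' T') (hw : w.re = p)
    (hw' : w'.re = p') {aX aY : ℕ} (hq : q' - q = 2 * ((aX : ℝ) - aY)) (a : Bool) :
    SpecP (esE (b := pl) (b' := pl')) (epE w w') a (((aX : ℤ) - aY : ℤ) : ℝ)
      (tG T T' w w' a) := by
  have h1 := (hF.pb a).one w (K := Set.Icc (3 / 5 * l) (21 / 20 * l)) fun x hx => by
    rw [hw]
    exact ⟨by linarith [hx.2], by linarith [hx.1]⟩
  have h2 := (hF'.pb (!a)).one w' (K := Set.Icc (3 / 5 * l) (21 / 20 * l)) fun x hx => by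
    rw [hw']
    exact ⟨by linarith [hx.2], by linarith [hx.1]⟩
  have h3 := (h1.mul h2).rate (s' := -(2 * (((aX : ℤ) - aY : ℤ) : ℝ) * sc (a, .A)) +
    cE (esE (b := pl) (b' := pl')) a) (by
      rw [cE_eps]
      have e : sc (!a, .A) = -sc (a, .A) := by cases a <;> simp [sc]
      rw [e]
      push_cast
      have : (q - q') * sc (a, .A) = -(2 * ((aX : ℝ) - aY) * sc (a, .A)) := by
        rw [← hq]
        ring
      linarith)
  exact ⟨h3.1, h3.2⟩

theorem specS_two (hF : HG pl q p F T) (hF' : HG pl' q' p' F' T') (a : Bool) :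
    SpecS P {w.im, w'.im}
      (fun u => tG T T' w w' a u / dX (esE (b := pl) (b' := pl')) (epE w w') a u)
      (s2G F F' w w' a) := by
  have key : ∀ u : ℂ, u.im ∉ ({w.im, w'.im} : Set ℝ) → ‖s2G F F' w w' a u‖ ≤
      ‖tG T T' w w' a u / dX (esE (b := pl) (b' := pl')) (epE w w') a u‖ *
        ‖tG T T' w w' a (u - l) / dX (esE (b := pl) (b' := pl')) (epE w w') a (u - l)‖ := by
    intro u hu
    rw [tG_div hF hF', tG_div hF hF', ← norm_mul]
    refine le_of_eq ?_
    congr 1
    have := mul2_of hF.mul hF'.mul a w w' u hu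
    exact this
  refine ⟨fun t ht => key _ ?_, fun r e t ht _ _ => key _ ?_⟩
  · have : (posT t).im = t := by
      unfold posT vl
      simp
    rwa [this]
  · have : (posS e t).im = t := by
      unfold posS vl
      simp
    rwa [this]

theorem ParC.sep (hP : ParC P) {r i : ℕ} (hi : i < r) {p : ℝ} (hp : p ≤ 5 / 8 * l) :
    l * P.d r / (8 * (r + 1)) < |lnO P r i .S + 2 * l - p| := by
  have hl := l_pos
  have hr : (0 : ℝ) < r := by exact_mod_cast (Nat.zero_le i).trans_lt hi
  have g1 : (i : ℝ) / r ≤ 1 := by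
    rw [div_le_one hr]
    exact_mod_cast hi.le
  have e2 := hP.e2 r
  have d0 := hP.d0 r
  have k1 : P.d r * ((i : ℝ) / r) ≤ P.d r := by nlinarith
  have h1 : l * P.d r / (8 * (r + 1)) ≤ l * (P.d r / 8) := by
    rw [div_le_iff₀ (by positivity)]
    nlinarith [mul_pos hl d0, mul_nonneg (mul_pos hl d0).le hr.le]
  have h2 : l * (P.d r / 8) < lnO P r i .S + 2 * l - p := by
    simp only [lnO]
    nlinarith
  rw [abs_of_pos (lt_of_le_of_lt (by positivity) h2)]
  exact h1.trans_lt h2

/-! ### explicit choices -/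

theorem prod_eps' {A : Type*} [CommMonoid A] {b b' : Bool} (f : Eps b b' → A) :
    ∏ j, f j = (if h : b = true then f ⟨true, h⟩ else 1) *
      (if h : b' = true then f ⟨false, h⟩ else 1) := by
  have h1 := prod_eps b b' fun j => if h : (if j then b else b') = true then f ⟨j, h⟩ else 1
  have h2 : ∏ j : Eps b b', (if h : (if j.1 then b else b') = true then f ⟨j.1, h⟩ else 1) =
      ∏ j, f j := Finset.prod_congr rfl fun j _ => by rw [dif_pos j.2]
  rw [← h2, h1]
  cases b <;> cases b' <;> simp

theorem sum_epsN {b b' : Bool} (f : Eps b b' → ℕ) :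
    ∑ j, f j = (if h : b = true then f ⟨true, h⟩ else 0) +
      (if h : b' = true then f ⟨false, h⟩ else 0) := by
  have := prod_eps' (A := Multiplicative ℕ) fun j => Multiplicative.ofAdd (f j)
  have h2 := congrArg Multiplicative.toAdd this
  rw [toAdd_prod, toAdd_mul] at h2
  refine h2.trans ?_
  split_ifs <;> rfl

/-- weight of the quanta at the simple poles -/
def wgt2 (Gr : Bool → ℂ → ℂ) (w w' : ℂ) (i i' : Bool) : ℝ :=
  (if i then ‖Gr true w‖ else 1) * (if i' then ‖Gr false w'‖ else 1) *
    (if i && i' then ‖Bd.qg (w - w')‖ else 1)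

/-- spectators in the presence of the quanta at the simple poles -/
def sV (s : Bool → ℂ → ℂ) (w w' : ℂ) (i i' : Bool) (a : Bool) (u : ℂ) : ℂ :=
  s a u * ((if i then PP a true (u - w) else 1) * (if i' then PP a false (u - w') else 1))

/-- the flags of a choice -/
def flg {b b' : Bool} (υ : Eps b b' → Fin 3) : Bool × Bool :=
  (if h : b = true then decide (υ ⟨true, h⟩ = 1) else false,
    if h : b' = true then decide (υ ⟨false, h⟩ = 1) else false)

theorem flg_inj {b b' : Bool} {υ υ' : Eps b b' → Fin 3} (h : ∀ j, υ j ≠ 2) (h' : ∀ j, υ' j ≠ 2)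
    (e : flg υ = flg υ') : υ = υ' := by
  have key : ∀ x y : Fin 3, x ≠ 2 → y ≠ 2 → (x = 1 ↔ y = 1) → x = y := by decide
  funext j
  refine key _ _ (h j) (h' j) ?_
  obtain ⟨j, hj⟩ := j
  cases j
  · have hb' : b' = true := by simpa using hj
    have e2 := congrArg Prod.snd e
    simp only [flg, dif_pos hb', decide_eq_decide] at e2
    exact e2
  · have hb : b = true := by simpa using hj
    have e2 := congrArg Prod.fst e
    simp only [flg, dif_pos hb, decide_eq_decide] at e2
    exact e2

theorem fin3_val {x : Fin 3} (h : x ≠ 2) : (x : ℕ) = if x = 1 then 1 else 0 := by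
  revert x
  decide

theorem PU_eps {b b' : Bool} {f : Eps b b' → Eps b b' → ℂ} (hf : ∀ a c, f a c = f c a) :
    PU f = if h : b = true ∧ b' = true then f ⟨true, h.1⟩ ⟨false, h.2⟩ else 1 := by
  have hr : Tour fun a c : Eps b b' => a.1 = true ∧ c.1 = false :=
    { irr := fun a h => by
        have := h.1.symm.trans h.2
        exact Bool.noConfusion this
      tot := fun a c hac => by
        obtain ⟨a, ha⟩ := a
        obtain ⟨c, hc⟩ := c
        cases a <;> cases c <;> simp_all }
  rw [PU_eq hr hf]
  unfold PR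
  rw [prod_eps']
  cases b <;> cases b' <;> simp [prod_eps']

theorem R4genU.map {U V : Type*} [Fintype U] [Fintype V] {ep : ℝ} {a : ℕ} {c : U → ℝ≥0∞}
    {c' : V → ℝ≥0∞} {T : U → Term} {T' : V → Term} {Z : ℕ → ℂ} (h : R4genU ep a c T Z) (ψ : U → V)
    (h1 : ∀ u, c u ≠ 0 → c u = c' (ψ u) ∧ T u = T' (ψ u))
    (h2 : ∀ u v, c u ≠ 0 → c v ≠ 0 → ψ u = ψ v → u = v) : R4genU ep a c' T' Z := by
  classical
  intro η η' hη n
  refine (h (fun u => η (ψ u)) (fun u => η' (ψ u)) (fun u => hη (ψ u)) n).trans ?_
  refine Finset.sum_le_sum fun r _ => mul_le_mul_right (lintegral_mono fun O => ?_) _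
  set g : V → ℝ≥0∞ := fun v => c' v * T' v n r O (η v r O) (η' v r O) with hg
  calc ∑ u, c u * T u n r O (η (ψ u) r O) (η' (ψ u) r O)
      = ∑ u ∈ Finset.univ.filter fun u => c u ≠ 0, g (ψ u) := by
        rw [Finset.sum_filter]
        refine Finset.sum_congr rfl fun u _ => ?_
        by_cases hu : c u = 0
        · rw [if_neg (by simpa using hu), hu, zero_mul]
        · rw [if_pos hu, hg]
          obtain ⟨e1, e2⟩ := h1 u hu
          simp only []
          rw [← e1, ← e2]
    _ = ∑ v ∈ (Finset.univ.filter fun u => c u ≠ 0).image ψ, g v := by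
        rw [Finset.sum_image]
        intro u hu v hv huv
        have hu' : c u ≠ 0 := (Finset.mem_filter.1 hu).2
        have hv' : c v ≠ 0 := (Finset.mem_filter.1 hv).2
        exact h2 u v hu' hv' huv
    _ ≤ ∑ v, g v := Finset.sum_le_sum_of_subset (Finset.subset_univ _)

section flags
variable {b b' : Bool} {υ : Eps b b' → Fin 3}

theorem nE_flg (h : ∀ j, υ j ≠ 2) : nE esE true υ = (flg υ).1.toNat ∧
    nE esE false υ = (flg υ).2.toNat := by
  have h0 : ∀ s, nE esE s υ = ∑ j, if esE j = s then (υ j : ℕ) else 0 := by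
    intro s
    unfold nE
    rw [Finset.sum_filter]
  rw [h0, h0, sum_epsN, sum_epsN]
  constructor
  · simp only [esE, flg, if_true, Bool.false_eq_true, if_false, dite_eq_ite, ite_self, add_zero]
    by_cases hb : b = true
    · rw [dif_pos hb, dif_pos hb, fin3_val (h _)]
      by_cases h1 : υ ⟨true, hb⟩ = 1 <;> simp [h1]
    · rw [dif_neg hb, dif_neg hb]
      rfl
  · simp only [esE, flg, if_true, Bool.true_eq_false, if_false, dite_eq_ite, ite_self, zero_add]
    by_cases hb : b' = true
    · rw [dif_pos hb, dif_pos hb, fin3_val (h _)]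
      by_cases h1 : υ ⟨false, hb⟩ = 1 <;> simp [h1]
    · rw [dif_neg hb, dif_neg hb]
      rfl

theorem sU_flg (h : ∀ j, υ j ≠ 2) (s : Bool → ℂ → ℂ) (w w' : ℂ) :
    sU esE (epE w w') υ s = sV s w w' (flg υ).1 (flg υ).2 := by
  funext a u
  unfold sU sV
  rw [prod_eps']
  congr 1
  congr 1
  · by_cases hb : b = true
    · rw [dif_pos hb, fin3_val (h _)]
      by_cases h1 : υ ⟨true, hb⟩ = 1
      · have h2 : (flg υ).1 = true := by simp [flg, hb, h1]
        rw [if_pos h1, h2, if_pos rfl, pow_one]
        rfl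
      · have h2 : (flg υ).1 = false := by simp [flg, hb, h1]
        rw [if_neg h1, h2, pow_zero]
        rfl
    · have h2 : (flg υ).1 = false := by simp [flg, hb]
      rw [dif_neg hb, h2]
      rfl
  · by_cases hb : b' = true
    · rw [dif_pos hb, fin3_val (h _)]
      by_cases h1 : υ ⟨false, hb⟩ = 1
      · have h2 : (flg υ).2 = true := by simp [flg, hb, h1]
        rw [if_pos h1, h2, if_pos rfl, pow_one]
        rfl
      · have h2 : (flg υ).2 = false := by simp [flg, hb, h1]
        rw [if_neg h1, h2, pow_zero]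
        rfl
    · have h2 : (flg υ).2 = false := by simp [flg, hb]
      rw [dif_neg hb, h2]
      rfl

theorem cU_flg (h : ∀ j, υ j ≠ 2) (Gr : Bool → ℂ → ℂ) (w w' : ℂ) :
    cU esE (epE w w') Gr υ = ENNReal.ofReal (wgt2 Gr w w' (flg υ).1 (flg υ).2) := by
  unfold cU
  rw [if_pos h, ← ofReal_norm]
  congr 1
  have hdE : ∀ j : Eps b b', dE esE (epE w w') j = 1 := by
    intro j
    unfold dE
    refine Finset.prod_eq_one fun k _ => ?_
    by_cases hk : k = j
    · rw [if_pos hk]
    · rw [if_neg hk, if_neg fun h : esE k = esE j => hk (Subtype.ext h)]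
  have hsym : ∀ j k : Eps b b', PP (esE j) (esE k) (epE w w' j - epE w w' k) ^
      ((υ j : ℕ) * (υ k : ℕ)) = PP (esE k) (esE j) (epE w w' k - epE w w' j) ^
      ((υ k : ℕ) * (υ j : ℕ)) := by
    intro j k
    rw [PP_comm, ← PP_neg, neg_sub, mul_comm (υ j : ℕ)]
  unfold wE wgt2
  rw [norm_mul, norm_prod, prod_eps', PU_eps hsym]
  congr 1
  · congr 1
    · by_cases hb : b = true
      · rw [dif_pos hb]
        by_cases h1 : υ ⟨true, hb⟩ = 1
        · have h2 : (flg υ).1 = true := by simp [flg, hb, h1]
          rw [if_pos h1, h2, if_pos rfl, norm_neg]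
          unfold NUP1S.res
          rw [hdE, _root_.div_one]
          rfl
        · have h2 : (flg υ).1 = false := by simp [flg, hb, h1]
          rw [if_neg h1, h2, norm_one]
          rfl
      · have h2 : (flg υ).1 = false := by simp [flg, hb]
        rw [dif_neg hb, h2]
        rfl
    · by_cases hb : b' = true
      · rw [dif_pos hb]
        by_cases h1 : υ ⟨false, hb⟩ = 1
        · have h2 : (flg υ).2 = true := by simp [flg, hb, h1]
          rw [if_pos h1, h2, if_pos rfl, norm_neg]
          unfold NUP1S.res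
          rw [hdE, _root_.div_one]
          rfl
        · have h2 : (flg υ).2 = false := by simp [flg, hb, h1]
          rw [if_neg h1, h2, norm_one]
          rfl
      · have h2 : (flg υ).2 = false := by simp [flg, hb]
        rw [dif_neg hb, h2]
        rfl
  · by_cases hb : b = true ∧ b' = true
    · rw [dif_pos hb, fin3_val (h _), fin3_val (h _)]
      have e1 : (flg υ).1 = decide (υ ⟨true, hb.1⟩ = 1) := by simp [flg, hb.1]
      have e2 : (flg υ).2 = decide (υ ⟨false, hb.2⟩ = 1) := by simp [flg, hb.2]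
      rw [e1, e2]
      by_cases h1 : υ ⟨true, hb.1⟩ = 1
      · by_cases h2 : υ ⟨false, hb.2⟩ = 1
        · simp only [h1, h2, decide_true, Bool.and_true, if_true, mul_one, pow_one]
          rfl
        · simp [h1, h2]
      · simp [h1]
    · rw [dif_neg hb, norm_one]
      have e : ((flg υ).1 && (flg υ).2) = false := by
        rcases not_and_or.1 hb with hb | hb
        · simp [flg, hb]
        · simp [flg, hb]
      rw [e]
      rfl

end flags

end NUGC.PLX

end
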