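import Pool.Agent.PLX.Ns
import Pool.Agent.PLX.NUGC.FlatR4

/-!
# The representation corollary and the bound of the final classes `cF t t'` (TARGET-C)

* `htF`, `htT`, `htL`, `htQ`, `htP`, `htD`: the data of a half quantum, `cF_S` .. `cF_dY`;
* `htN e`, `aXt e`, `aYt e`: the numbers of quanta of a class with `e` additional quanta Y,
  `cF_zero`, `sum_shift`.

Port PLX: numbers `n`, `n + e`.
-/

set_option autoImplicit false
set_option linter.unusedSectionVars false

noncomputable section

open Complex MeasureTheory Finset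
open scoped ENNReal

namespace NUGC.PLX

open NUO NUP1 NUCR NUP1S NUP1S.Ab NUP1S.AbC NUP1S.AbG NURow NUP1.Leg

/-- spectators of a half quantum of type `t`, own orientation -/
def htF : HT → Bool → Option O3 → ℂ → ℂ
  | .W => SF
  | .F => SF
  | .P => SP
  | .H => hostS false SF

/-- regular parts -/
def htT : HT → Bool → ℂ → ℂ
  | .W => fun c => SF c none
  | .F => fun c => SF c none
  | .P => fun c => SP c none
  | .H => hT

/-- final line -/
def htL : HT → ℝ
  | .W => 5 / 4 * l
  | .F => -(11 / 4) * l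
  | .P => -(11 / 4) * l
  | .H => 5 / 8 * l

/-- rate -/
def htQ : HT → ℝ
  | .W => 1
  | .F => 1
  | .P => -1
  | .H => -3

/-- simple pole -/
def htP : HT → Bool
  | .H => true
  | _ => false

/-- number of quanta of the other species which belong to the half quantum -/
def htD : HT → ℕ
  | .W => 0
  | .F => 0
  | .P => 1
  | .H => 2

theorem HG_ht (t : HT) : HG (htP t) (htQ t) (htL t) (htF t) (htT t) := by
  cases t
  · exact HG_SF_A
  · exact HG_of HQ_SF_B mulI_SF (by norm_num [htQ])
  · exact HG_of HQ_SP_B mulI_SP (by norm_num [htQ])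
  · exact HG_host

theorem htQ_eq (t : HT) : htQ t = 1 - 2 * (htD t : ℝ) := by
  cases t <;> norm_num [htQ, htD]

section cF
variable (X Y : Option O3 → ℂ → ℂ) (kF kP kF' kP' : ℂ → ℂ) (t t' : HT)

theorem cF_S : (cF X Y kF kP kF' kP' t t').S = htF t := by
  cases t <;> cases t' <;> rfl

theorem cF_S' : (cF X Y kF kP kF' kP' t t').S' = fl (htF t') := by
  cases t <;> cases t' <;> first | rfl | exact host_fl true SF

theorem cF_a : (cF X Y kF kP kF' kP' t t').a = htL t := by
  cases t <;> cases t' <;> rfl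

theorem cF_b : (cF X Y kF kP kF' kP' t t').b = htL t' := by
  cases t <;> cases t' <;> rfl

theorem cF_dX : (cF X Y kF kP kF' kP' t t').dX = htD t' := by
  cases t <;> cases t' <;> rfl

theorem cF_dY : (cF X Y kF kP kF' kP' t t').dY = htD t := by
  cases t <;> cases t' <;> rfl

end cF

variable {P : NUO.Par} {β x : ℝ} {M : ℕ} {cc : Bool → ℂ}

/-- the one body functions of the state sum -/
def XM (cc : Bool → ℂ) (β : ℝ) (M N : ℕ) (a : Bool) : Option O3 → ℂ → ℂ :=
  XH (cc a) β M N (fun _ => 1) fun _ => 1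

/-- the smallest number of quanta X of the class `t, t'` with `e` additional quanta Y -/
def htN (e : ℕ) (t t' : HT) : ℕ := max (htD t') (htD t - e)

/-- the number of quanta X besides those of the half quanta -/
def aXt (e : ℕ) (t t' : HT) : ℕ := htN e t t' - htD t'

/-- the number of quanta Y besides those of the half quanta -/
def aYt (e : ℕ) (t t' : HT) : ℕ := htN e t t' + e - htD t

theorem htN_X (e : ℕ) (t t' : HT) : htD t' ≤ htN e t t' := le_max_left _ _

theorem htN_Y (e : ℕ) (t t' : HT) : htD t ≤ htN e t t' + e := by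
  have h : htD t - e ≤ htN e t t' := le_max_right _ _
  omega

theorem htD_le (t : HT) : htD t ≤ 2 := by cases t <;> norm_num [htD]

theorem htN_le (e : ℕ) (t t' : HT) : htN e t t' ≤ 2 :=
  max_le (htD_le t') ((Nat.sub_le _ _).trans (htD_le t))

theorem aXt_add (e : ℕ) (t t' : HT) : aXt e t t' + htD t' = htN e t t' :=
  Nat.sub_add_cancel (htN_X e t t')

theorem aYt_add (e : ℕ) (t t' : HT) : aYt e t t' + htD t = htN e t t' + e :=
  Nat.sub_add_cancel (htN_Y e t t')

theorem aXt_le (e : ℕ) (t t' : HT) : aXt e t t' ≤ 2 := (Nat.sub_le _ _).trans (htN_le e t t')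

theorem aYt_le (e : ℕ) (t t' : HT) : aYt e t t' ≤ e + 2 := by
  have := htN_le e t t'
  have := aYt_add e t t'
  omega

theorem le_aYt (e : ℕ) (t t' : HT) : e ≤ aYt e t t' + 2 := by
  have := htD_le t
  have := aYt_add e t t'
  omega

theorem wgt2_nonneg (Gr : Bool → ℂ → ℂ) (w w' : ℂ) (i i' : Bool) : 0 ≤ wgt2 Gr w w' i i' := by
  unfold wgt2
  split_ifs <;> positivity

/-- no class integrand with too few quanta -/
theorem cF_zero (X Y X' Y' : Option O3 → ℂ → ℂ) (kF kP kF' kP' : ℂ → ℂ) (e : ℕ) (t t' : HT) (α : ℝ)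
    {n : ℕ} (hn : n < htN e t t')
    (lnX : ∀ p p' : ℕ, (Fin p → O3) → (Fin p' → O3) → Fin p → ℝ)
    (lnY : ∀ p p' : ℕ, (Fin p → O3) → (Fin p' → O3) → Fin p' → ℝ) (w w' : ℂ) :
    (cF X Y kF kP kF' kP' t t').Z X' Y' α n (n + e) lnX lnY w w' = 0 := by
  unfold CD.Z
  rw [if_neg]
  rw [cF_dX, cF_dY]
  rintro ⟨h1, h2⟩
  have : htN e t t' ≤ n := max_le h1 (by omega)
  omega

/-- the sum over the numbers from the sum over the shifted ones -/
theorem sum_shift {f : ℕ → ℝ} (hf : ∀ n, 0 ≤ f n) {D : ℕ} (h0 : ∀ n < D, f n = 0) (N : ℕ) :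
    ∑ n ∈ range (N + 1), f n ≤ ∑ n ∈ range (N + 1), f (n + D) := by
  have h1 : ∑ n ∈ range (N + 1), f n ≤ ∑ n ∈ range (N + 1 + D), f n :=
    Finset.sum_le_sum_of_subset_of_nonneg (Finset.range_subset_range.2 (by omega))
      fun n _ _ => hf n
  refine h1.trans (le_of_eq ?_)
  rw [add_comm (N + 1) D, Finset.sum_range_add, Finset.sum_eq_zero fun n hn =>
    h0 n (Finset.mem_range.1 hn), zero_add]
  exact Finset.sum_congr rfl fun n _ => by rw [add_comm]

/-! ## classes without poles -/

theorem HG_one (p : ℝ) : HG false 0 p (fun _ _ _ => 1) (fun _ _ => 1) :=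
  HG_of (HQ_one p) mulI_one (by norm_num)

theorem HG_SD : HG false 0 (-(11 / 4) * l) SD (fun c => SD c none) :=
  HG_of HQ_SD_B mulI_SD (by norm_num)

end NUGC.PLX

end
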