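import Pool.Agent.PLX.Ns
import Pool.Agent.PLX.NUGC.DefC
import Pool.Agent.NUGC.Spec

/-!
# Spectators as factors of the one body weights (TARGET-C)

* `OB.mul B h`: the one body data with one more spectator `h`;
* `ob1c_mul`: `ob1c (B.mul h) = ob1c B * facL h parts`; `prod_ob1c_mul`: all objects;
* `obC_mul`, `obC_split`: `obC` with a product of spectators.
-/

set_option autoImplicit false

noncomputable section

open Finset

namespace NUGC.PLX

open NUO NUP1

/-- the one body data with one more spectator -/
def OB.mul (B : OB) (h : Bool → ℂ → ℝ) : OB := ⟨fun a u => B.R a u * h a u, B.φ, B.φ0⟩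

/-- **a spectator is a factor of the weight of an object** -/
theorem ob1c_mul (B : OB) (h : Bool → ℂ → ℝ) (jL e ρ : ℝ) (x : Xo) :
    ob1c (B.mul h) jL e ρ x = ob1c B jL e ρ x * facL h (parts jL e ρ x) := by
  unfold ob1c parts facL fac oSc OB.mul
  rcases hk : kd x with _ | _ | _ | _ | _
  · simp only [List.map_cons, List.map_nil, List.prod_cons, List.prod_nil, if_false,
      Bool.false_eq_true]
    ring
  · simp only [List.map_cons, List.map_nil, List.prod_cons, List.prod_nil, if_true]
    ring
  · simp only [List.map_cons, List.map_nil, List.prod_cons, List.prod_nil, if_true]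
    ring
  · simp only [List.map_cons, List.map_nil, List.prod_cons, List.prod_nil, if_true, if_false,
      Bool.false_eq_true]
    ring
  · simp only [List.map_cons, List.map_nil, List.prod_cons, List.prod_nil, if_true, if_false,
      Bool.false_eq_true]
    ring

/-- all objects of a configuration -/
theorem prod_ob1c_mul (B : OB) (h : Bool → ℂ → ℝ) (P : Par) {r : ℕ} (O : Fin r → Xo) :
    ∏ i, ob1c (B.mul h) P.jL (ei P O i) (rr P O i) (O i) =
      (∏ i, ob1c B P.jL (ei P O i) (rr P O i) (O i)) * ∏ i, facL h (cons P O i) := by
  rw [← prod_mul_distrib]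
  exact prod_congr rfl fun i _ => ob1c_mul B h _ _ _ _

end NUGC.PLX

end
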