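import Pool.Agent.PLX.Ns
import Pool.Agent.NUGC.Master
import Pool.Agent.PLX.NUGC.ClsR4
import Pool.Agent.NURow.Pref
import Pool.Agent.NUP1L.RowE

/-!
# TARGET-C: the final classes (port PLX)

* `ParM P`: the lines of TARGET-C; `beC ep`: the cutoff exponent;
* `clC ep M t t'`: the 16 final classes (used below only through the direct factor `gw` of the two
  groups, which does not depend on `ep`, `M`: one number `M` is enough).

The numbers of quanta of a class (`htN e`, `aXt e`, `aYt e`) are in `ClsR4`.
-/

set_option autoImplicit false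
set_option linter.unusedSectionVars false

noncomputable section

open MeasureTheory Finset
open scoped ENNReal

namespace NUGC.PLX

open NUO NUP1 NUCR NUP1S NURow

/-- the lines of TARGET-C -/
def ParM (P : Par) : Prop := ParC P ∧ P.jL = 9 / 4 ∧ 1 / 4 ≤ P.e

/-- the activity constants -/
def ccM (M : ℕ) : Bool → ℂ := fun _ => NUP1.Leg.cc (2 * M)

/-- cutoff exponent -/
def beC (ep : ℝ) : ℝ := 4 / 3 * (1 - ep)

/-- the one body functions of the state sum with `2 M` rows in each group -/
def XC (ep : ℝ) (M : ℕ) (a : Bool) : Option O3 → ℂ → ℂ := XM (ccM M) (beC ep) M M a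

/-- **the 16 final classes** -/
def clC (ep : ℝ) (M : ℕ) (t t' : HT) : CD :=
  cF (XC ep M true) (XC ep M false) (KF M) (KP (NUP1.Leg.cc (2 * M)) (beC ep) M M) (KF' M)
    (KP' (NUP1.Leg.cc (2 * M)) (beC ep) M M) t t'

end NUGC.PLX

end
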