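import Pool.Agent.PLX.Ns
import Pool.Agent.PLX.NUGC.MasterC
import Pool.Agent.NUGC.PrefMF
import Pool.Agent.NUGC.QC1
import Pool.Agent.NUO.S4

/-!
# The prefactors of the final classes of TARGET-C and their integral (`PerAll`, first part)

* `clh t i`: the class of spectators (75) of the type `t` with (`i = true`) or without the quantum at
  the simple pole;
* `ownX`, `ownY`: the own factors of `w`, `w'`; `gO`: the direct factor of the two groups;
  `pre_wK`: prefactor times weight of a choice is their product;
* `OwnLe`, `DirLe`: their bounds (45, 94; 25, 27);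
* `QF`: the prefactor of `PerGen`; **`int_QF`**: the integral of `PerAll`; `int_QD`: the same for D1, D1'.
-/

set_option autoImplicit false
set_option linter.unusedSectionVars false

noncomputable section

open MeasureTheory Finset
open scoped ENNReal

namespace NUGC.PLX

open NUO NUP1 NUCR NUP1S NURow NUP1.Leg NUP1.Bd

/-- the class of spectators of the type `t` with the choice `i` -/
def clh : HT → Bool → NUSp.Cl
  | .W, _ => .w
  | .F, _ => .w
  | .P, _ => .p
  | .H, false => .hs
  | .H, true => .hp

/-- doubled charge -/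
def qh (t : HT) (i : Bool) : ℝ := NUSp.qc (clh t i)

/-- own factor of a half quantum: kernel with the host string -/
def ownK (kF kP : ℂ → ℂ) (Y : Option O3 → ℂ → ℂ) : HT → ℂ → ℂ
  | .W => kF
  | .F => kF
  | .P => kP
  | .H => fun w => -(2 * Real.pi * rD (2 * l) * wt .S * Y (some .S) (w - 2 * l)) * kF w

section cF
variable (X Y : Option O3 → ℂ → ℂ) (kF kP kF' kP' : ℂ → ℂ) (t t' : HT)

theorem cF_K : (cF X Y kF kP kF' kP' t t').K = ownK kF kP Y t := by
  cases t <;> cases t' <;> rfl

theorem cF_K' : (cF X Y kF kP kF' kP' t t').K' = ownK kF' kP' X t' := by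
  cases t <;> cases t' <;> rfl

end cF

/-- direct factor of the two groups -/
def gO (ep : ℝ) (M : ℕ) (t t' : HT) (i i' : Bool) (w w' : ℂ) : ℝ :=
  ‖(clC ep M t t').gw (w - w')‖ * (if i then ‖htT t' false (w' - w)‖ else 1) *
    (if i' then ‖htT t false (w - w')‖ else 1) * (if i && i' then ‖Bd.qg (w - w')‖ else 1)

theorem gO_nonneg (ep : ℝ) (M : ℕ) (t t' : HT) (i i' : Bool) (w w' : ℂ) :
    0 ≤ gO ep M t t' i i' w w' := by
  unfold gO
  split_ifs <;> positivity

/-! ### the bounds of the parts -/

/-- bound of the direct factors of the two groups -/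
def DirLe (C : ℝ) : Prop := ∀ (ep : ℝ) (M : ℕ) (t t' : HT) (i i' : Bool),
  (i = true → htP t = true) → (i' = true → htP t' = true) → ∀ τ τ' : ℝ,
    gO ep M t t' i i' (vl (htL t) τ) (vl (htL t') τ') ≤
      C * Real.exp (-((qh t i * qh t' i' + 1) / 2) * |τ - τ'|)

/-! ### the integral of the two groups -/

theorem fr_nonneg (T L : ℝ) (z : ℝ × ℝ) : 0 ≤ fr T L z := by
  unfold fr
  split_ifs
  · exact zero_le_one
  · exact (Real.exp_pos _).le

end NUGC.PLX

end
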