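import Pool.Agent.PLX.Ns
import Pool.Agent.PLX.NUSea.H0.PinF

/-!
# Families of groups of spectators: ends, pinned family, admissible families

A family `g : Fin G → Gd` of groups of spectators (class, line, species, height); `T1` the end of the
window, `gP T1 g` the family at the pinned heights.

* `pE`, `qE`: the ends; `CcF`, `SC`: the far factor; `chG`: the charge of a family;
* `FamOk`: bare and neutral groups at every height, composite groups in the window, different
  species, excess at most `x`.

No curve, no row number.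
-/

set_option autoImplicit false
set_option linter.unusedSectionVars false

noncomputable section

open MeasureTheory Finset Filter Topology

namespace NUGC.PLX

open NUSea.PLX.H0 (Gd)

/-- the first end -/
def pE : ℂ := ((-(NUMF.l / 2) : ℝ) : ℂ)

/-- the second end -/
def qE : ℂ := ((NUMF.l / 2 : ℝ) : ℂ)

/-- constant of the far factor -/
def CcF (G : ℕ) : ℝ := Real.exp (G * NUSp.kfar (1 / 4) (NUMF.l / 5))

theorem CcF_one (G : ℕ) : 1 ≤ CcF G := by
  have := NUSp.kfar_nonneg (1 / 4) (NUMF.l / 5)
  exact Real.one_le_exp (by positivity)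

/-- the bound of the cutoff with the far factor at the end of the window -/
def SC (G : ℕ) (x : ℝ) : ℝ := (2 + CcF G) * Real.exp (37 / 20 * x)

/-- charge of a family -/
def chG {G : ℕ} (g : Fin G → Gd) : ℝ := ∑ i, NUC43.sg (g i).σ * NUSp.qc (g i).c / 2

/-- the family at the pinned heights -/
def gP (T1 : ℝ) {G : ℕ} (g : Fin G → Gd) (i : Fin G) : Gd := (g i).pin T1

/-- **admissible families**: `x` bounds the excess -/
structure FamOk (T1 x : ℝ) {G : ℕ} (g : Fin G → Gd) : Prop where
  cl : ∀ i, (g i).c = .w ∨ (g i).c = .d ∨ |(g i).τ| ≤ T1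
  sp : ∀ i j, i ≠ j → (g i).σ ≠ (g j).σ
  x0 : 0 ≤ x
  ex : ∀ i, NUSp.exc T1 (g i).τ ≤ x

end NUGC.PLX

end
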