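import Pool.Agent.PLX.Ns
import Pool.Agent.PLX.NUGC.InC
import Pool.Agent.PLX.NUSea.H0.ShlC

/-!
# Domination of the true factors of a family of groups by the pinned ones (used part of `NUGC/ShlF`)

`dom_fam`: pointwise domination, one species; any curve `η` (in the port: the curve of the species).
-/

set_option autoImplicit false
set_option linter.unusedSectionVars false

open MeasureTheory Set Filter Topology

namespace NUGC.PLX

open NUMF
open NUSea.PLX.H0 (Gd BF hfar cstF)
open NUSp (DD kfar)

noncomputable section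

variable [NUSea.Sea] {G : ℕ}

/-- **pointwise domination of the true factors** -/
theorem dom_fam {g : Fin G → Gd} {T1 x : ℝ} (hF : FamOk T1 x g) (hT : 0 ≤ T1) {η : ℝ → ℝ}
    (p q : ℂ) (a : Bool) {t : ℝ} (hη : |η t| < NUMF.l / 5) :
    Real.exp (DD p q (List.ofFn fun i => (g i).G) a (NUAct.zt (NUKer.iD η) t)).re ≤
      Real.exp (cstF T1 g a) * (Real.exp ((DD p q (List.ofFn fun i => (gP T1 g i).G) a
        (NUAct.zt (NUKer.iD η) t)).re + BF T1 g η a t) * hfar (CcF G) T1 x t) := by
  have h := NUSea.PLX.H0.fam_up g p q hT hF.cl hF.sp hF.x0 hF.ex a hη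
  have hz : NUAct.zt (NUKer.iD η) t = (t : ℂ) + (η t : ℂ) * Complex.I := rfl
  have hg : (fun i => (gP T1 g i).G) = fun i => ((g i).pin T1).G := rfl
  rw [hz, hg]
  by_cases ht : |t| ≤ T1
  · rw [if_pos ht, max_eq_right (by linarith), min_eq_left hF.x0] at h
    rw [NUSea.PLX.H0.hfar_in ht, mul_one, ← Real.exp_add]
    exact Real.exp_le_exp.2 (by linarith)
  · rw [if_neg ht, max_eq_left (by linarith)] at h
    rw [NUSea.PLX.H0.hfar_out (not_le.1 ht), CcF, ← Real.exp_add, ← Real.exp_add, ← Real.exp_add]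
    exact Real.exp_le_exp.2 (by linarith)

end

end NUGC.PLX
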