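import Pool.Agent.PLX.Ns
import Pool.Agent.PLX.NUSea.H0.PinF
import Pool.Agent.PLX.NUGC.ClsSp

/-!
# The elementary spectators of a family of groups (port PLX of `NUGC/S4C`)

`lsG`, `spF`: elementary spectators of a group, modulus of the factor of a family of groups.
No curve, no row number.
-/

set_option autoImplicit false

noncomputable section

open MeasureTheory Finset

namespace NUGC.PLX

open NUSea.PLX.H0 (Gd)
open NUSp (kG spo qc)

/-- elementary spectators of a group -/
def lsG (g : Gd) : List Spt := (kG g.c g.rt).map fun x => (spo g.σ x.1, x.2, g.τ)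

/-- modulus of the factor of a family of groups -/
def spF {n : ℕ} (g : Fin n → Gd) (a : Bool) (u : ℂ) : ℝ := ∏ i, spL (lsG (g i)) a u

end NUGC.PLX

end
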