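import Pool.Agent.PLX.Ns
import Pool.Agent.PLX.NUGC.QC2
import Pool.Agent.PLX.NUGC.S4C
import Pool.Agent.PLX.NUGC.DefC

/-!
# The groups of a class (port PLX of `NUGC/AsmK`)

* `gdK`, `gdD`: the groups of a class, of D1, D1'; `lsG_gd`, `w_gd`, `qc_clh`: elementary spectators, place,
  charge;
* `perGen_monoQ`: the tilted bound with a larger prefactor.

The numbers of extra quanta of a class (`aXY_K`, `shK_le`) are in `ClsSp`.
-/

set_option autoImplicit false

noncomputable section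

open MeasureTheory Finset
open scoped ENNReal

namespace NUGC.PLX

open NUO NUP1 NUCR NUP1S NURow
open NUC43 (kq)
open NUSea.PLX.H0 (Gd IG TG cstF)
open NUSp (kG spo qc)

/-- the line of a type -/
def rtH : HT → Bool
  | .W => true
  | _ => false

/-- the groups of the class `t, t'` with the choice `u` at the heights `y` -/
def gdK (t t' : HT) (u : Bool × Bool) (y : ℝ × ℝ) : Fin 2 → Gd :=
  ![⟨clh t u.1, rtH t, true, y.1⟩, ⟨clh t' u.2, rtH t', false, y.2⟩]

/-- the group of D1 (`o = true`), D1' -/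
def gdD (o : Bool) (τ : ℝ) : Fin 1 → Gd := fun _ => ⟨.d, false, !o, τ⟩

theorem lsG_gd (s : Bool) (t : HT) (i : Bool) (τ : ℝ) :
    lsG ⟨clh t i, rtH t, s, τ⟩ = grp s t i τ := by
  cases t <;> cases i <;> rfl

theorem w_gd (s : Bool) (t : HT) (i : Bool) (τ : ℝ) :
    (⟨clh t i, rtH t, s, τ⟩ : Gd).w = vl (htL t) τ := by
  cases t <;> cases i <;> rfl

/-- the charge of a type -/
theorem qc_clh (t : HT) (i : Bool) (h : i = true → htP t = true) :
    qc (clh t i) = 1 - 2 * ((htD t : ℝ) - (i.toNat : ℝ)) := by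
  cases t <;> cases i <;> simp_all [clh, qc, htD, htP] <;> norm_num

theorem perGen_monoQ {C C' c b : ℝ} {k : ℕ} {c1 c' L ep e1 J ν d : ℝ} {N a : ℕ} {T : Term}
    {Q Q' : ℝ} (hC : 0 ≤ C) (hC' : 0 ≤ C') (hL : 0 ≤ L) (hQ : Q ≤ Q')
    (h : PerGen C C' c b k c1 c' L ep e1 J ν d N a T Q) :
    PerGen C C' c b k c1 c' L ep e1 J ν d N a T Q' := by
  intro n hn b' hb' r hr O
  obtain ⟨η, η', hcur, hb⟩ := h n hn b' hb' r hr O
  refine ⟨η, η', hcur, fun W => (hb W).trans (ENNReal.ofReal_le_ofReal ?_)⟩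
  have h1 : 0 ≤ ∏ i, act C C' c b k L ep e1 J r (ht (O i)) :=
    prod_nonneg fun i _ => act_nonneg hC hC' hL
  have h2 : (0 : ℝ) ≤ if (r : ℝ) ≤ L then 1 else Real.exp (c' * L) := by
    split_ifs
    · exact zero_le_one
    · exact (Real.exp_pos _).le
  exact mul_le_mul_of_nonneg_right (mul_le_mul_of_nonneg_right
    (mul_le_mul_of_nonneg_right hQ h2) h1) (Real.exp_pos _).le

end NUGC.PLX

end
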