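import Pool.Agent.PLX.Ns
import Pool.Agent.PLX.NUGC.S4C
import Pool.Agent.PLX.NUGC.ExD
import Pool.Agent.PLX.NUGC.InC
import Pool.Agent.NUKer.Dec
import Pool.Agent.NUAct.Disp

/-!
# The factor of the groups on the curve (port PLX of `NUGC/RedC`)

* `ThN_spF`: base factor and groups on a curve are the exponential of the potential;
* `chgOx_le2`: charges of the objects; `CcF_mono`; `max3`: three values of the number of groups.
-/

set_option autoImplicit false
set_option linter.unusedSectionVars false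

noncomputable section

open MeasureTheory Finset Filter Topology
open scoped ENNReal

namespace NUGC.PLX

open NUO (Xo chgO)
open NUSea.PLX.H0 (Gd)

/-! ### the gas -/

/-- the factors of a group -/
lemma spL_lsG (g : Gd) (a : Bool) (u : ℂ) :
    spL (lsG g) a u = ((NUSp.kG g.c g.rt).map fun x => Ek.f (NUSp.spo g.σ x.1) x.2 g.τ a u).prod := by
  unfold spL lsG
  rw [List.map_map]
  rfl

/-- **base factor and groups on the curve** -/
theorem ThN_spF {n : ℕ} (g : Fin n → Gd) {η : ℝ → ℝ} (a : Bool) {t : ℝ}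
    (h : |η t| < NUMF.l / 5) :
    ThN (NUO.pA η t) * spF g a (NUO.pA η t) =
      Real.exp (NUSp.DD pE qE (List.ofFn fun i => (g i).G) a (NUAct.zt (NUKer.iD η) t)).re := by
  have hl := NUMF.l_pos
  have h1 := ex_DD_pA (fun i => (g i).c) (fun i => (g i).rt) (fun i => (g i).σ) (fun i => (g i).τ) a
    (η := η) (t := t) (by linarith)
  have e1 : spF g a (NUO.pA η t) = ∏ i, ((NUSp.kG (g i).c (g i).rt).map fun x =>
      Ek.f (NUSp.spo (g i).σ x.1) x.2 (g i).τ a (NUO.pA η t)).prod := by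
    unfold spF
    exact Finset.prod_congr rfl fun i _ => spL_lsG (g i) a _
  have e2 : NUAct.zt (NUKer.iD η) t = (t : ℂ) + (η t : ℂ) * Complex.I := by
    unfold NUAct.zt NUKer.iD
    ring
  rw [e1, e2]
  exact h1

/-! ### one configuration -/

lemma chgx_le2 (s : Bool) (x : Xo) : NUO.chg s x ≤ 2 := by
  rcases x with ⟨⟨a, K⟩, t, α⟩
  cases s <;> cases a <;> cases K <;> simp [NUO.chg, NUO.sp]

lemma chgOx_le2 {r : ℕ} (O : Fin r → Xo) (s : Bool) : (chgO O s : ℝ) ≤ 2 * r := by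
  have h : chgO O s ≤ 2 * r := by
    unfold NUO.chgO
    refine (Finset.sum_le_sum fun i _ => chgx_le2 s (O i)).trans ?_
    simp [mul_comm]
  exact_mod_cast h

/-- the constant of the far factors -/
lemma CcF_mono {n : ℕ} (hn : n ≤ 2) : CcF n ≤ CcF 2 := by
  have h1 : (n : ℝ) ≤ (2 : ℕ) := by exact_mod_cast hn
  unfold CcF
  exact Real.exp_le_exp.2 (mul_le_mul_of_nonneg_right h1 (NUSp.kfar_nonneg _ _))

/-! ### all configurations -/

/-- three values of the number of groups -/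
lemma max3 {F : ℕ → ℝ → ℝ → ℕ → Prop}
    (hF : ∀ G d d' C C' m m', F G d C m → d' ≤ d → C ≤ C' → m ≤ m' → F G d' C' m')
    (h : ∀ G ≤ 2, ∃ d C : ℝ, 0 < d ∧ 0 ≤ C ∧ ∃ m, F G d C m) :
    ∃ d C : ℝ, 0 < d ∧ 0 ≤ C ∧ ∃ m, ∀ G ≤ 2, F G d C m := by
  obtain ⟨d0, C0, a0, b0, m0, h0⟩ := h 0 (by norm_num)
  obtain ⟨d1, C1, a1, b1, m1, h1⟩ := h 1 (by norm_num)
  obtain ⟨d2, C2, a2, b2, m2, h2⟩ := h 2 (by norm_num)
  refine ⟨min d0 (min d1 d2), C0 + C1 + C2, lt_min a0 (lt_min a1 a2), by positivity,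
    max m0 (max m1 m2), ?_⟩
  intro G hG
  interval_cases G
  · exact hF _ _ _ _ _ _ _ h0 (min_le_left _ _) (by linarith) (le_max_left _ _)
  · exact hF _ _ _ _ _ _ _ h1 ((min_le_right _ _).trans (min_le_left _ _)) (by linarith)
      ((le_max_left _ _).trans (le_max_right _ _))
  · exact hF _ _ _ _ _ _ _ h2 ((min_le_right _ _).trans (min_le_right _ _)) (by linarith)
      ((le_max_right _ _).trans (le_max_right _ _))

end NUGC.PLX

end
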