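import Pool.Agent.PLX.Ns
import Pool.Agent.NUGC.CfgC
import Pool.Agent.PLX.NUSea.H0.PinF

/-!
# The energies of the pinned groups and the far constants (port PLX of `NUGC/AsmC`)

`enQ g a E x T1`: energies of the groups pinned at `T1`, far constants with the centred number `a` of extra
quanta (extra quanta X minus extra quanta Y minus additional rows), far factors.
-/

set_option autoImplicit false

noncomputable section

open MeasureTheory Finset
open scoped ENNReal

namespace NUGC.PLX

open NUO NUP1
open NUSea.PLX.H0 (Gd IG TG cstF)

/-- energies of the groups pinned at `T1`, far constants with the centred number `a` of extra quanta, far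
factors -/
def enQ {n : ℕ} (g : Fin n → Gd) (a E x T1 : ℝ) : ℝ :=
  1 / 2 * (∑ d, ∑ d', ES (TG (fun i => (g i).pin T1) d) (TG (fun i => (g i).pin T1) d')) +
    cstF T1 g true * a + (37 / 20 * x + 12 / 5 * E)

end NUGC.PLX

end
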