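import Pool.Agent.PLX.Ns
import Pool.Agent.PLX.NUSea.H0.DatEC
import Pool.Agent.PLX.NUSea.H0.LinC
import Pool.Agent.PLX.NUSea.H0.DatNC
import Pool.Agent.NUGC.CurC
import Pool.Agent.NUO.StabC
import Pool.Agent.NUO.Act
import Pool.Agent.PLX.NUSea.H0.WoC
import Pool.Agent.PLX.NUSea.OOneB

/-!
# TARGET-C: the exponent of a configuration with spectators, upper bound

* `EnOk`: what is needed of the data `datO I P O` and of the sources `T` of the spectators;
* `GrOk`: the potentials of the spectators are a sum of neutral groups with phases `φ d` at `τ d`;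
* `CuOk`: the current `h = s P η`: between the current of TARGET-A and `h 0`, slope at most one,
  energy `bil h' h' - 12 l h(0) ≤ -(1 - e1) T + C`;
* `exists_enG`: `En ≤ one body + densities + sources + sea + linear term + energy of the current`.

Two row numbers `I.s a`, two curves `I.η a` with (up to `M e`) one common current; the current is that
of the species `true`.
-/

set_option autoImplicit false
set_option linter.unusedSectionVars false

noncomputable section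

open MeasureTheory Finset Filter Topology

namespace NUGC.PLX

open NUO (Kind Xo kd ht sp Par PG wK cons slkK rr Tb)
open NUStabP (enC)
open NUDispW (win)
open NUMF (l l_pos)
open NUSea (P)
open NUSea.PLX (Cur hd)
open NUSea.PLX.H0 (Inp IOk datO wO)

variable [NUSea.Sea]

/-! ### structures -/

/-- **what the exponent needs of the data.**  `κ`: the curve has size `m^(-κ)`; `k`: power of the
logarithm in the mass of the curve; `W`: bound of the extra remainder; `CB`: mass of the densities of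
the spectators -/
structure EnOk (e1 κ W CB : ℝ) (k m : ℕ) (I : Inp) (Q : Par) {r : ℕ} (O : Fin r → Xo)
    {ι : Type} [Fintype ι] (T : ι → Sr) : Prop where
  jL : Q.jL = 9 / 4
  e : Q.e = 1 / 4
  rr1 : ∑ i, rr Q O i ≤ 1
  ok : ∃ (dl ε M : ℝ) (e : ℝ → ℝ), IOk dl ε M ((1 - e1) * Tb (Real.log m)) e I Q r ∧
    ε ≤ (m : ℝ) ^ (-κ) ∧ M ≤ Real.log m ^ k ∧
    dl ≤ 1 / (6000 * ((r : ℝ) + 1) ^ 2) + 3 * (m : ℝ) ^ (-κ)
  Tok : ∀ d, (T d).Ok
  sy : ∀ i d, Sym (obSr Q.jL Q.e (O i)) (T d)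
  nu : ∀ a, I.ν a = muS T a
  tau : I.τD = tauS T
  mass : ∀ a, ∫ t, |I.ν a t| ≤ CB
  w0 : ∀ a t, |wO I a t| ≤ W

/-- **the potentials of the spectators are a sum of neutral groups** with phases `φ d` at `τ d` -/
structure GrOk (CB : ℝ) (I : Inp) {δ : Type} [Fintype δ] (kp a φ τ : δ → ℝ) (Ψ : δ → ℂ → ℂ) :
    Prop where
  asy : ∀ d, NUSp.Asy (l / 10) (kp d) 0 (a d) (φ d) (τ d) (Ψ d)
  diff : ∀ d (z : ℂ), |z.im| < l / 10 → DifferentiableAt ℂ (Ψ d) z
  sum : ∀ z : ℂ, |z.im| < l / 10 → I.A true z + I.A false z = ∑ d, Ψ d z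
  size : ∑ d, (|a d| + |φ d| + kp d) ≤ CB
  dA : ∀ (c : Bool) (z : ℂ), |z.im| < l / 10 → DifferentiableAt ℂ (I.A c) z
  lip : ∀ (c : Bool) (z w : ℂ), |z.im| < l / 10 → |w.im| < l / 10 →
    ‖I.A c z - I.A c w‖ ≤ CB * (1 + ‖z - w‖)

/-- **facts on the current** `h = s P η` -/
structure CuOk (e1 J Cb : ℝ) (m : ℕ) (h h' : ℝ → ℝ) : Prop where
  nn : ∀ t, 0 ≤ h t
  le0 : ∀ t, h t ≤ h 0
  ge : ∀ t, NUCUR.cur e1 (Tb (Real.log m)) J t ≤ h t
  lip : ∀ t t', |h t - h t'| ≤ |t - t'|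
  en : NUCR.bil h' h' - 12 * (Real.pi / 8) * h 0 ≤ -((1 - e1) * Tb (Real.log m)) + Cb

/-- mean field, slack and current of the object `i` -/
def oneH (I : Inp) (Q : Par) {r : ℕ} (O : Fin r → Xo) (h : ℝ → ℝ) (i : Fin r) : ℝ :=
  NUSea.PLX.O.mfo I.s (cons Q O i) +
    I.s (sp (O i)) * slkK (fun t => ∫ u, P u * NUC43.slk (u - t)) (kd (O i)) (ht (O i)) -
    2 * Real.pi * wK (kd (O i)) * h (ht (O i))

/-- the current of the data (that of the species `true`) -/
def curI (I : Inp) (t : ℝ) : ℝ := I.s true * P t * I.η true t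

/-! ### small facts -/

lemma ext_mono {b b' : ℝ} (h : b' ≤ b) {F : ℂ → ℂ} (hF : NUAct.Ext b F) : NUAct.Ext b' F := by
  obtain ⟨A, hA⟩ := hF.bd
  exact ⟨fun z hz => hF.diff z (hz.trans h), A, fun z hz => hA z (hz.trans h)⟩

/-- slope of the current -/
lemma hd_le {s : ℝ} {η η1 : ℝ → ℝ} (h1 : ∀ t, HasDerivAt η (η1 t) t)
    (hL : ∀ t t', |s * P t * η t - s * P t' * η t'| ≤ |t - t'|) (t : ℝ) : |hd s η η1 t| ≤ 1 := by
  have h2 := NUSea.PLX.hasDerivAt_hd s h1 t
  have h3 : LipschitzWith 1 fun t => s * P t * η t := by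
    refine LipschitzWith.of_dist_le_mul fun x y => ?_
    rw [Real.dist_eq, Real.dist_eq]
    simpa using hL x y
  have h4 := norm_deriv_le_of_lipschitz (x₀ := t) h3
  rw [h2.deriv, Real.norm_eq_abs] at h4
  simpa using h4

/-- a power of the logarithm against a negative power -/
theorem polylogC (C : ℝ) (j : ℕ) {κ0 y : ℝ} (hκ : 0 < κ0) (hy : 0 < y) :
    ∃ m0 : ℕ, ∀ m ≥ m0, C * Real.log m ^ j * (m : ℝ) ^ (-κ0) ≤ y := by
  have h1 : Tendsto (fun x : ℝ => C * (Real.log x ^ (j : ℝ) / x ^ κ0)) atTop (𝓝 (C * 0)) :=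
    (isLittleO_log_rpow_rpow_atTop (j : ℝ) hκ).tendsto_div_nhds_zero.const_mul C
  rw [mul_zero] at h1
  have h2 := (h1.comp tendsto_natCast_atTop_atTop).eventually_le_const hy
  obtain ⟨m0, hm0⟩ := Filter.eventually_atTop.1 h2
  refine ⟨max m0 1, fun m hm => ?_⟩
  have h3 := hm0 m ((le_max_left _ _).trans hm)
  have hm1 : (0 : ℝ) ≤ m := Nat.cast_nonneg m
  simp only [Function.comp, Real.rpow_natCast] at h3
  rw [Real.rpow_neg hm1, mul_assoc, ← div_eq_mul_inv]
  exact h3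

theorem loglargeC (x : ℝ) : ∃ m0 : ℕ, ∀ m ≥ m0, x ≤ Real.log m := by
  have h := (Real.tendsto_log_atTop.comp tendsto_natCast_atTop_atTop).eventually_ge_atTop x
  obtain ⟨m0, hm0⟩ := Filter.eventually_atTop.1 h
  exact ⟨m0, fun m hm => hm0 m hm⟩

/-- the numbers -/
theorem exists_numC (C A : ℝ) {kap : ℝ} (hkap : 0 < kap) (k : ℕ) {κ : ℝ} (hκ : 0 < κ) :
    ∃ m0 : ℕ, ∀ m ≥ m0, 1 ≤ Real.log m ∧ (m : ℝ) ^ (-κ) ≤ 1 ∧
      C * (2 * Real.log m) ^ 7 * (m : ℝ) ^ (-κ) ≤ 1 ∧
      Real.log m ^ k * (m : ℝ) ^ (-κ) ≤ 1 ∧ Real.log m ^ (k + 1) * (m : ℝ) ^ (-κ) ≤ 1 ∧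
      C * (2 * Real.log m) ^ 9 * Real.log m ^ (2 * k) * (m : ℝ) ^ (-κ) ≤ 1 ∧
      A * (m : ℝ) ^ (-κ) ≤ kap ∧ A * (m : ℝ) ^ (-κ) ≤ 1 := by
  obtain ⟨n0, h0⟩ := loglargeC 1
  obtain ⟨n1, h1⟩ := polylogC (C * 2 ^ 7) 7 hκ one_pos
  obtain ⟨n2, h2⟩ := polylogC 1 k hκ one_pos
  obtain ⟨n3, h3⟩ := polylogC 1 (k + 1) hκ one_pos
  obtain ⟨n4, h4⟩ := polylogC (C * 2 ^ 9) (9 + 2 * k) hκ one_pos
  obtain ⟨n5, h5⟩ := polylogC A 0 hκ hkap
  obtain ⟨n6, h6⟩ := polylogC 1 0 hκ one_pos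
  obtain ⟨n7, h7⟩ := polylogC A 0 hκ one_pos
  refine ⟨max n0 (max n1 (max n2 (max n3 (max n4 (max n5 (max n6 n7)))))), fun m hm => ?_⟩
  simp only [ge_iff_le, max_le_iff] at hm
  obtain ⟨g0, g1, g2, g3, g4, g5, g6, g7⟩ := hm
  have h1 := h1 m g1
  have h2 := h2 m g2
  have h3 := h3 m g3
  have h4 := h4 m g4
  have h5 := h5 m g5
  have h6 := h6 m g6
  have h7 := h7 m g7
  refine ⟨h0 m g0, ?_, ?_, ?_, ?_, ?_, ?_, ?_⟩
  · rwa [pow_zero, mul_one, one_mul] at h6
  · rw [mul_pow, ← mul_assoc]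
    exact h1
  · rwa [one_mul] at h2
  · rwa [one_mul] at h3
  · rw [mul_pow]
    calc C * (2 ^ 9 * Real.log m ^ 9) * Real.log m ^ (2 * k) * (m : ℝ) ^ (-κ) =
        C * 2 ^ 9 * Real.log m ^ (9 + 2 * k) * (m : ℝ) ^ (-κ) := by
          rw [pow_add]
          ring
      _ ≤ 1 := h4
  · rwa [pow_zero, mul_one] at h5
  · rwa [pow_zero, mul_one] at h7

/-! ### the exponent -/

/-- **the exponent of a configuration with spectators**, the linear term and the energy of the current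
kept -/
theorem exists_enG {W : ℝ} (hW : 0 ≤ W) : ∃ K0 : ℝ, 0 ≤ K0 ∧ ∀ kap : ℝ, 0 < kap → ∀ κ CB : ℝ, 0 < κ →
    0 ≤ CB → ∀ k : ℕ, ∃ (Cc : ℝ) (m0 : ℕ), ∀ m ≥ m0, ∀ e1 : ℝ, 0 < e1 → e1 ≤ 1 / 100 →
    ∀ (I : Inp) (Q : Par) (r : ℕ) (O : Fin r → Xo) (ι : Type) [Fintype ι] (T : ι → Sr),
    EnOk e1 κ W CB k m I Q O T → (∀ t t', |curI I t - curI I t'| ≤ |t - t'|) →
    ∀ (δ : Type) [Fintype δ] (kp a φ τ : δ → ℝ) (Ψ : δ → ℂ → ℂ), GrOk CB I kp a φ τ Ψ →
      (datO I Q O).En ≤ (∑ i, oneH I Q O (curI I) i) + enC O +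
        (∑ i, ∑ d, ES (obSr Q.jL Q.e (O i)) (T d)) + 1 / 2 * (∑ d, ∑ d', ES (T d) (T d')) +
        (∫ t : ℝ, P t * (I.s true * (I.A true t).re + I.s false * (I.A false t).re)) +
        (∑ a, ∫ t, I.s a * P t * I.B a t) -
        2 * (∑ d, φ d * curI I (τ d)) +
        NUCR.bil (hd (I.s true) (I.η true) (I.η1 true)) (hd (I.s true) (I.η true) (I.η1 true)) +
        K0 * r + kap * win univ (fun i => ht (O i)) + Cc := by
  obtain ⟨C, hC, H⟩ := NUSea.PLX.H0.En_cfgC (δ := 1 / 8) (by norm_num) (by norm_num)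
  obtain ⟨K2, hK2, H2⟩ := NUSea.PLX.H0.exists_muphi_tot NUC43.adm0
  obtain ⟨C3, hC3, H3⟩ := NUSea.PLX.H0.exists_linS
  refine ⟨2 * C + 2 * K2 * (2 + W) + 2, by positivity, ?_⟩
  intro kap hkap κ CB hκ hCB k
  obtain ⟨m0, hm0⟩ := exists_numC C (6 * K2 + 6 * CB * K2) hkap k hκ
  obtain ⟨m1, hm1⟩ := polylogC 4 (k + 2) hκ one_pos
  have hl := l_pos
  refine ⟨1 + CB + C3 * CB + C3 * (CB / (1 / 100)) + 2 * K2 + 2 * CB * (3 * K2 + W),
    max m0 m1, ?_⟩
  intro m hm e1 he1 he1' I Q r O ι _ T hE hL δ _ kp a φ τ Ψ hG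
  obtain ⟨n1, n2, n3, n4, n5, n6, n7, n8⟩ := hm0 m ((le_max_left _ _).trans hm)
  have n9 := hm1 m ((le_max_right _ _).trans hm)
  obtain ⟨mk, hmk⟩ : ∃ mk, mk = (m : ℝ) ^ (-κ) := ⟨_, rfl⟩
  obtain ⟨L, hLd⟩ : ∃ L, L = Real.log m := ⟨_, rfl⟩
  obtain ⟨dl, ε, M, e, hok, hε, hM, hdl⟩ := hE.ok
  rw [← hmk] at n2 n3 n4 n5 n6 n7 n8 n9 hε hdl
  rw [← hLd] at n1 n3 n4 n5 n6 n9 hM
  have hmk0 : 0 ≤ mk := by rw [hmk]; positivity
  have hC0 : 0 < C := by linarith
  have hK20 : 0 < K2 := by linarith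
  have hr0 : (0 : ℝ) ≤ r := Nat.cast_nonneg r
  have hε0 : 0 ≤ ε := (hok.cur true).ε0
  have hM0 : 0 ≤ M := (hok.cur true).M0 (hok.s0 true)
  have hTL : Tb (Real.log m) = 3 / 8 * L := by rw [hLd]; rfl
  obtain ⟨b, hb⟩ : ∃ b, b = (1 - e1) * Tb (Real.log m) := ⟨_, rfl⟩
  have hb0 : 0 ≤ b := hb ▸ hok.b0
  have hbL : b + 1 ≤ 2 * L := by
    rw [hb, hTL]
    nlinarith
  have hbL1 : b ≤ L := by
    rw [hb, hTL]
    nlinarith
  have hL0 : 0 ≤ L := by linarith
  have hMε : M * ε ≤ L ^ k * mk := mul_le_mul hM hε hε0 (by positivity)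
  have hMε0 : 0 ≤ M * ε := mul_nonneg hM0 hε0
  have hMε1 : M * ε ≤ 1 := hMε.trans n4
  have t7 : C * (b + 1) ^ 7 * ε ≤ 1 := by
    calc C * (b + 1) ^ 7 * ε ≤ C * (2 * L) ^ 7 * mk := by gcongr
      _ ≤ 1 := n3
  have t9 : C * (b + 1) ^ 9 * M ^ 2 * ε ≤ 1 := by
    calc C * (b + 1) ^ 9 * M ^ 2 * ε ≤ C * (2 * L) ^ 9 * (L ^ k) ^ 2 * mk := by gcongr
      _ = C * (2 * L) ^ 9 * L ^ (2 * k) * mk := by rw [← pow_mul, mul_comm k 2]
      _ ≤ 1 := n6
  have tb : b * (M * ε) ≤ 1 := by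
    calc b * (M * ε) ≤ L * (L ^ k * mk) := by gcongr
      _ = L ^ (k + 1) * mk := by ring
      _ ≤ 1 := n5
  have tb2 : (b + 1) ^ 2 * (M * ε) ≤ 1 := by
    calc (b + 1) ^ 2 * (M * ε) ≤ (2 * L) ^ 2 * (L ^ k * mk) := by gcongr
      _ = 4 * L ^ (k + 2) * mk := by ring
      _ ≤ 1 := n9
  -- the exponent of the data
  have hPB : ∀ a, Integrable fun t => P t * I.B a t := fun a => by
    obtain ⟨c, hc⟩ := hok.Bb a
    exact NUSea.PLX.H0.P_B_int (hok.Bc a) hc
  have hL' : ∀ t t', |I.s true * P t * I.η true t - I.s true * P t' * I.η true t'| ≤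
      1 * |t - t'| := fun t t' => by
    rw [one_mul]
    exact hL t t'
  have hAd : NUC43.Adm Q.jL Q.e := by
    rw [hE.jL, hE.e]
    exact NUC43.adm0
  have h1 := H ε M b 1 e I Q r O ι T hok.pg hAd hok.s0 (hb ▸ hok.cur) hok.der hok.com hb0 t7
    zero_le_one hL' (fun a => ext_mono (by linarith) (hok.Ae a)) hPB hE.Tok hE.sy hE.nu hE.tau
  have h1' := (abs_le.1 h1).2
  -- one body
  have s1 : (∑ i, (NUSea.PLX.O.mfo I.s (cons Q O i) +
      I.s (sp (O i)) * slkK (fun t => ∫ u, P u * NUC43.slk (u - t)) (kd (O i)) (ht (O i)) -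
      2 * Real.pi * (wK (kd (O i)) * (I.s true * P (ht (O i)) * I.η true (ht (O i)))))) =
      ∑ i, oneH I Q O (curI I) i := by
    refine sum_congr rfl fun i _ => ?_
    unfold oneH curI
    ring
  have s2 : 1 / 2 * (∑ i, ∑ k, Pool.Agent.NUM3.ER (NUC43.sgX Q.jL Q.e) (NUC43.sgY Q.jL Q.e)
      (NUC43.sgT Q.jL Q.e) (sp (O i) == sp (O k)) (kd (O i)) (kd (O k)) (ht (O i)) (ht (O k))) =
      enC O := by
    rw [hE.jL, hE.e]
    exact (NUC43.cfg_energy NUC43.adm0 O).symm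
  -- the linear term
  have hη : ε + 1 / 100 ≤ l / 10 := by
    have h0 := hok.ε1
    have := Real.pi_gt_d2
    show ε + 1 / 100 ≤ Real.pi / 8 / 10
    linarith
  have s3 := (H3 (A := 1) (r := 1 / 100) hok.s0 (hok.ε1.trans (by norm_num)) (hb ▸ hok.cur) hok.der
    hok.com hb0 (by norm_num) (by norm_num) hη hG.asy hG.diff hG.dA hG.lip hG.sum
    (hd_le (hok.der true) hL)).2
  rw [Complex.re_sum] at s3
  have s3' := (abs_le.1 s3).2
  have hsz : ∑ d, kp d ≤ CB := by
    refine (sum_le_sum fun d _ => ?_).trans hG.size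
    have := abs_nonneg (a d)
    have := abs_nonneg (φ d)
    linarith
  have s3'' : (∑ d, kp d) * 1 + C3 * (∑ d, (|a d| + |φ d| + kp d)) * b * (M * ε) +
      C3 * (b + 1) ^ 2 * (CB / (1 / 100)) * (M * ε) ≤
      CB + C3 * CB + C3 * (CB / (1 / 100)) := by
    have h2 : C3 * (∑ d, (|a d| + |φ d| + kp d)) * b * (M * ε) ≤ C3 * CB * 1 := by
      rw [mul_assoc (C3 * _)]
      exact mul_le_mul (mul_le_mul_of_nonneg_left hG.size (by linarith)) tb (by positivity)
        (by positivity)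
    have h3 : C3 * (b + 1) ^ 2 * (CB / (1 / 100)) * (M * ε) ≤ C3 * (CB / (1 / 100)) := by
      have h4 : 0 ≤ C3 * (CB / (1 / 100)) := by positivity
      calc C3 * (b + 1) ^ 2 * (CB / (1 / 100)) * (M * ε) =
          C3 * (CB / (1 / 100)) * ((b + 1) ^ 2 * (M * ε)) := by ring
        _ ≤ C3 * (CB / (1 / 100)) * 1 := mul_le_mul_of_nonneg_left tb2 h4
        _ = _ := by ring
    linarith
  -- the remainder
  have hwin0 : 0 ≤ win univ (fun i => ht (O i)) := NUDispW.win_nonneg _ _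
  have hwin1 : win univ (fun i => ht (O i)) ≤ (r : ℝ) ^ 2 := by
    have := NUDispW.win_le_card_sq univ (fun i => ht (O i))
    rwa [card_univ, Fintype.card_fin] at this
  have hrr := hE.rr1
  have hrr0 : 0 ≤ ∑ i, rr Q O i := sum_nonneg fun i _ => (hok.rr1 i).1
  have hdl0 := hok.dl0
  have s4 : (∑ a, ∫ t, (datO I Q O).μ a t * (datO I Q O).φ a t) ≤
      (2 * K2 * (2 + W) + 1) * r + 2 * K2 + 2 * CB * (3 * K2 + W) +
        kap * win univ (fun i => ht (O i)) := by
    have h0 : ∀ a, (∫ t, (datO I Q O).μ a t * (datO I Q O).φ a t) ≤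
        (K2 * (2 + W) + 1 / 2) * r + K2 + CB * (3 * K2 + W) +
          kap / 2 * win univ (fun i => ht (O i)) := by
      intro a
      refine (le_abs_self _).trans (((H2 (O := O) hE.jL hE.e hok a W (hE.w0 a)).2).trans ?_)
      have q1 : dl * win univ (fun i => ht (O i)) ≤ 1 + 3 * mk * win univ (fun i => ht (O i)) := by
        have h1 : 1 / (6000 * ((r : ℝ) + 1) ^ 2) * win univ (fun i => ht (O i)) ≤ 1 := by
          rw [one_div_mul_eq_div, div_le_one (by positivity)]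
          nlinarith
        nlinarith [mul_le_mul_of_nonneg_right hdl hwin0]
      have q2 : dl * r ≤ 1 + 3 * mk * r := by
        have h1 : 1 / (6000 * ((r : ℝ) + 1) ^ 2) * r ≤ 1 := by
          rw [one_div_mul_eq_div, div_le_one (by positivity)]
          nlinarith
        nlinarith [mul_le_mul_of_nonneg_right hdl hr0]
      have q3 : (∫ t, |I.ν a t|) * (K2 * (M * ε + dl * r + ∑ i, rr Q O i) + W) ≤
          CB * (K2 * (1 + (1 + 3 * mk * r) + 1) + W) := by
        refine mul_le_mul (hE.mass a) ?_ (by positivity) hCB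
        have : K2 * (M * ε + dl * r + ∑ i, rr Q O i) ≤ K2 * (1 + (1 + 3 * mk * r) + 1) :=
          mul_le_mul_of_nonneg_left (by linarith) hK20.le
        linarith
      have q4 : K2 * (r * (M * ε + (∑ i, rr Q O i) + W) + dl * win univ (fun i => ht (O i))) ≤
          K2 * (r * (2 + W) + (1 + 3 * mk * win univ (fun i => ht (O i)))) := by
        refine mul_le_mul_of_nonneg_left ?_ hK20.le
        have : (r : ℝ) * (M * ε + (∑ i, rr Q O i) + W) ≤ r * (2 + W) :=
          mul_le_mul_of_nonneg_left (by linarith) hr0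
        linarith
      have q5 : K2 * (3 * mk * win univ (fun i => ht (O i))) ≤
          kap / 2 * win univ (fun i => ht (O i)) := by
        have h5 : 6 * K2 * mk ≤ kap := by
          have : 0 ≤ 6 * CB * K2 * mk := by positivity
          linarith
        have h6 : K2 * (3 * mk) ≤ kap / 2 := by linarith
        calc K2 * (3 * mk * win univ (fun i => ht (O i))) =
            K2 * (3 * mk) * win univ (fun i => ht (O i)) := by ring
          _ ≤ _ := mul_le_mul_of_nonneg_right h6 hwin0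
      have q6 : CB * (K2 * (3 * mk * r)) ≤ 1 / 2 * r := by
        have h5 : 6 * CB * K2 * mk ≤ 1 := by
          have : 0 ≤ 6 * K2 * mk := by positivity
          linarith
        have h6 : CB * (K2 * (3 * mk)) ≤ 1 / 2 := by linarith
        calc CB * (K2 * (3 * mk * r)) = CB * (K2 * (3 * mk)) * r := by ring
          _ ≤ _ := mul_le_mul_of_nonneg_right h6 hr0
      linarith
    rw [Fintype.sum_bool]
    have g1 := h0 true
    have g2 := h0 false
    linarith
  have s5 : C * r * (M * ε + 1) ≤ 2 * C * r := by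
    have : C * r * (M * ε + 1) ≤ C * r * (1 + 1) := mul_le_mul_of_nonneg_left (by linarith)
      (by positivity)
    linarith
  have e4 : (∑ d, φ d * (I.s true * P (τ d) * I.η true (τ d))) = ∑ d, φ d * curI I (τ d) := rfl
  rw [s1, s2] at h1'
  rw [e4] at s3'
  linarith only [h1', s3', s3'', s4, s5, t9, hr0]

/-! ### the linear term and the energy of the current -/

/-! ### ends and groups -/

lemma yw_abs (w : ℂ) (k : ℤ) : |NUO.yw w k| ≤ 4 * l := by
  have hl := l_pos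
  unfold NUO.yw
  rw [abs_mul, abs_of_pos hl]
  exact mul_le_mul_of_nonneg_right (NUO.abs_red_le _) hl.le

lemma wph_abs (L : List (ℤ × ℝ)) (w : ℂ) : |NUSp.wph L w| ≤ NUSp.wn L * (4 * l) := by
  induction L with
  | nil => simp
  | cons a L ih =>
    rw [NUSp.wph_cons, NUSp.wn_cons, add_mul]
    refine (abs_add_le _ _).trans (add_le_add ?_ ih)
    rw [abs_mul]
    exact mul_le_mul_of_nonneg_left (yw_abs w a.1) (abs_nonneg _)

lemma sum_map_abs {α : Type*} (L : List α) (f : α → ℝ) {c : ℝ} (h : ∀ x ∈ L, |f x| ≤ c) :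
    |(L.map f).sum| ≤ L.length * c := by
  induction L with
  | nil => simp
  | cons a L ih =>
    rw [List.map_cons, List.sum_cons, List.length_cons]
    push_cast
    rw [add_mul, one_mul, add_comm _ c]
    exact (abs_add_le _ _).trans (add_le_add (h a (by simp)) (ih fun x hx => h x (by simp [hx])))

lemma gph_abs (s : Bool) (G : NUSp.Grp) : |NUSp.gph s G| ≤ NUSp.gn G * (4 * l) := by
  have hl := l_pos
  have h1 := sum_map_abs G.hs (fun h => NUSp.wph (NUSp.hlt (decide (s = h.1))) h.2) (c := 3 * (4 * l))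
    fun x _ => by
      have := wph_abs (NUSp.hlt (decide (s = x.1))) x.2
      rwa [NUSp.wn_hlt] at this
  have h2 := sum_map_abs G.cs (fun x => NUSp.wph (NUO.mlt (decide (s = x.1)) x.2.1) x.2.2)
    (c := 6 * (4 * l)) fun x _ => by
      refine (wph_abs _ _).trans (mul_le_mul_of_nonneg_right (NUSp.wn_mlt _ _) (by positivity))
  unfold NUSp.gph NUSp.gn
  refine (abs_add_le _ _).trans ((add_le_add h1 h2).trans (le_of_eq ?_))
  ring

/-- a potential with an asymptotic `± c (z - τ) + a ± i φ` is Lipschitz up to a constant -/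
theorem asy_lip {b κ c a φ τ : ℝ} {f : ℂ → ℂ} (hb : 0 ≤ b) (h : NUSp.Asy b κ c a φ τ f) {z w : ℂ}
    (hz : |z.im| < b) (hw : |w.im| < b) :
    ‖f z - f w‖ ≤ |c| * (‖z - w‖ + 2 * b) + 2 * |φ| + 2 * κ := by
  have hκ : 0 ≤ κ := by
    by_contra hh
    have h1 := h.ar ((τ : ℂ) + z.im * Complex.I) (by simpa using hz) (by simp)
    have h2 := norm_nonneg (f ((τ : ℂ) + z.im * Complex.I) -
      (c * (((τ : ℂ) + z.im * Complex.I) - τ) + a + φ * Complex.I))
    have h3 : κ * Real.exp (-2 * |((τ : ℂ) + z.im * Complex.I).re - τ|) < 0 :=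
      mul_neg_of_neg_of_pos (not_le.1 hh) (Real.exp_pos _)
    linarith
  have hexp : ∀ x : ℝ, κ * Real.exp (-2 * |x|) ≤ κ := fun x =>
    mul_le_of_le_one_right hκ (Real.exp_le_one_iff.2 (by
      have := abs_nonneg x
      linarith))
  have hc := abs_nonneg c
  have hφ := abs_nonneg φ
  have nc : ∀ u : ℂ, ‖(c : ℂ) * u‖ = |c| * ‖u‖ := fun u => by
    rw [norm_mul, Complex.norm_real, Real.norm_eq_abs]
  have nφ : ‖((2 * φ : ℝ) : ℂ) * Complex.I‖ = 2 * |φ| := by
    rw [norm_mul, Complex.norm_I, mul_one, Complex.norm_real, Real.norm_eq_abs, abs_mul, abs_two]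
  -- the two points on different sides
  have side : ∀ u v : ℂ, |u.im| < b → |v.im| < b → τ ≤ u.re → v.re ≤ τ →
      ‖f u - f v‖ ≤ |c| * (‖u - v‖ + 2 * b) + 2 * |φ| + 2 * κ := by
    intro u v hu hv hur hvr
    have h1 := (h.ar u hu hur).trans (hexp _)
    have h2 := (h.al v hv hvr).trans (hexp _)
    have e : f u - f v = (f u - (c * (u - τ) + a + φ * Complex.I)) -
        (f v - (-c * (v - τ) + a - φ * Complex.I)) +
        ((c : ℂ) * ((u - τ) + (v - τ)) + ((2 * φ : ℝ) : ℂ) * Complex.I) := by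
      push_cast
      ring
    have h3 : ‖(u - τ) + (v - τ)‖ ≤ ‖u - v‖ + 2 * b := by
      have a1 := Complex.norm_le_abs_re_add_abs_im (u - τ)
      have a2 := Complex.norm_le_abs_re_add_abs_im (v - τ)
      have a3 := Complex.abs_re_le_norm (u - v)
      simp only [Complex.sub_re, Complex.sub_im, Complex.ofReal_re, Complex.ofReal_im,
        sub_zero] at a1 a2 a3
      rw [abs_of_nonneg (by linarith : 0 ≤ u.re - τ)] at a1
      rw [abs_of_nonpos (by linarith : v.re - τ ≤ 0)] at a2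
      have a4 := le_abs_self (u.re - v.re)
      refine (norm_add_le _ _).trans ?_
      linarith
    rw [e]
    refine (norm_add_le _ _).trans ?_
    have h4 := norm_sub_le (f u - (c * (u - τ) + a + φ * Complex.I))
      (f v - (-c * (v - τ) + a - φ * Complex.I))
    have h5 := norm_add_le ((c : ℂ) * ((u - τ) + (v - τ))) (((2 * φ : ℝ) : ℂ) * Complex.I)
    rw [nc, nφ] at h5
    have h6 := mul_le_mul_of_nonneg_left h3 hc
    linarith
  have hn := norm_nonneg (z - w)
  have e0 : ‖(z - w : ℂ)‖ = ‖w - z‖ := norm_sub_rev _ _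
  rcases le_total τ z.re with hz' | hz' <;> rcases le_total τ w.re with hw' | hw'
  · have h1 := (h.ar z hz hz').trans (hexp _)
    have h2 := (h.ar w hw hw').trans (hexp _)
    have e : f z - f w = (f z - (c * (z - τ) + a + φ * Complex.I)) -
        (f w - (c * (w - τ) + a + φ * Complex.I)) + (c : ℂ) * (z - w) := by ring
    rw [e]
    refine (norm_add_le _ _).trans ?_
    have h4 := norm_sub_le (f z - (c * (z - τ) + a + φ * Complex.I))
      (f w - (c * (w - τ) + a + φ * Complex.I))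
    rw [nc]
    have h5 : 0 ≤ |c| * (2 * b) := by positivity
    linarith
  · exact side z w hz hw hz' hw'
  · have h1 := side w z hw hz hw' hz'
    rw [norm_sub_rev, e0]
    exact h1
  · have h1 := (h.al z hz hz').trans (hexp _)
    have h2 := (h.al w hw hw').trans (hexp _)
    have e : f z - f w = (f z - (-c * (z - τ) + a - φ * Complex.I)) -
        (f w - (-c * (w - τ) + a - φ * Complex.I)) + (c : ℂ) * (w - z) := by ring
    rw [e]
    refine (norm_add_le _ _).trans ?_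
    have h4 := norm_sub_le (f z - (-c * (z - τ) + a - φ * Complex.I))
      (f w - (-c * (w - τ) + a - φ * Complex.I))
    rw [nc, ← e0]
    have h5 : 0 ≤ |c| * (2 * b) := by positivity
    linarith

/-- phases of the ends (`none`) and of the groups, both species together -/
def φD (p q : ℂ) {n : ℕ} (G : Fin n → NUSp.Grp) : Option (Fin n) → ℝ
  | none => 2 * (NUSp.wph NUSp.wth p + NUSp.wph NUSp.wth q)
  | some i => NUSp.gph true (G i) + NUSp.gph false (G i)

/-- sizes -/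
def kD (δ b : ℝ) {n : ℕ} (G : Fin n → NUSp.Grp) : Option (Fin n) → ℝ
  | none => 4 * NUSp.ka δ b
  | some i => 2 * (NUSp.gn (G i) * NUSp.ka δ b)

/-- the potentials, both species together -/
def ΨD (p q : ℂ) {n : ℕ} (G : Fin n → NUSp.Grp) (i : Option (Fin n)) (z : ℂ) : ℂ :=
  NUSea.PLX.H0.fD p q G i true z + NUSea.PLX.H0.fD p q G i false z

/-- bound of the sizes -/
def szD (δ N : ℝ) (n : ℕ) : ℝ := (n + 1) * (2 * N * (1 + 4 * l + NUSp.ka δ (l / 10)))

theorem szD_nonneg {δ N : ℝ} (hδ : 1 / 10 < δ) (hδ1 : δ ≤ 1) (hN : 0 ≤ N) (n : ℕ) : 0 ≤ szD δ N n := by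
  have hl := l_pos
  have hk := NUSp.ka_nonneg (δ := δ) (b := l / 10) (by nlinarith) hδ1 (by positivity)
  unfold szD
  positivity

/-- **ends and groups** -/
theorem grOk_D {δ N : ℝ} {p q : ℂ} {n : ℕ} {G : Fin n → NUSp.Grp} {τ : Fin n → ℝ} {I : Inp}
    (hδ : 1 / 10 < δ) (hδ1 : δ ≤ 1) (hp : NUO.Away δ p) (hq : NUO.Away δ q) (hpq : q.im = p.im)
    (hG : ∀ i, (G i).Ok δ (τ i)) (hN : 2 ≤ N) (hn : ∀ i, NUSp.gn (G i) ≤ N)
    (hA : ∀ a z, |z.im| < l / 10 → I.A a z = ∑ i, NUSea.PLX.H0.fD p q G i a z) :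
    GrOk (szD δ N n) I (kD δ (l / 10) G) (fun _ => 0) (φD p q G) (NUSea.PLX.H0.hD p τ) (ΨD p q G) := by
  have hl := l_pos
  have hb : l / 10 < δ * l := by nlinarith
  have hb0 : 0 < l / 10 := by positivity
  have hk := NUSp.ka_nonneg (δ := δ) (b := l / 10) hb hδ1 hb0
  have hN0 : 0 ≤ N := by linarith
  have hfd : ∀ (d : Option (Fin n)) (c : Bool) (z : ℂ), |z.im| < l / 10 →
      DifferentiableAt ℂ (NUSea.PLX.H0.fD p q G d c) z := by
    intro d c z hz
    rcases d with _ | i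
    · exact ((NUSp.potB_th hb0 hb hp hq hpq).hd z hz).differentiableAt
    · exact ((NUSp.potB_gp hb0 hb c (hG i)).hd z hz).differentiableAt
  refine ⟨fun d => ?_, fun d z hz => ?_, fun z hz => ?_, ?_, fun c z hz => ?_,
    fun c z w hz hw => ?_⟩
  · rcases d with _ | i
    · have h1 := NUSp.asy_th hb hp hq hpq
      have h2 := h1.add h1
      have e1 : 2 * NUSp.ka δ (l / 10) + 2 * NUSp.ka δ (l / 10) = 4 * NUSp.ka δ (l / 10) := by ring
      have e2 : NUSp.wph NUSp.wth p + NUSp.wph NUSp.wth q +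
          (NUSp.wph NUSp.wth p + NUSp.wph NUSp.wth q) =
          2 * (NUSp.wph NUSp.wth p + NUSp.wph NUSp.wth q) := by ring
      rw [e1, e2, add_zero] at h2
      exact h2
    · have h1 := NUSp.asy_gp hb0 hb hδ1 true (hG i)
      have h2 := NUSp.asy_gp hb0 hb hδ1 false (hG i)
      have h3 := h1.add h2
      have e0 := NUSp.gq_neutral (G i)
      have e1 : NUSp.gn (G i) * NUSp.ka δ (l / 10) + NUSp.gn (G i) * NUSp.ka δ (l / 10) =
          2 * (NUSp.gn (G i) * NUSp.ka δ (l / 10)) := by ring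
      have e2 : -(NUSp.gq true (G i) * Real.log 2) + -(NUSp.gq false (G i) * Real.log 2) = 0 := by
        rw [← neg_add, ← add_mul, e0]
        ring
      rw [e0, e1, e2] at h3
      exact h3
  · rcases d with _ | i
    · have h1 := ((NUSp.potB_th hb0 hb hp hq hpq).hd z hz).differentiableAt
      exact h1.add h1
    · have h1 := ((NUSp.potB_gp hb0 hb true (hG i)).hd z hz).differentiableAt
      have h2 := ((NUSp.potB_gp hb0 hb false (hG i)).hd z hz).differentiableAt
      exact h1.add h2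
  · rw [hA true z hz, hA false z hz, ← Finset.sum_add_distrib]
    rfl
  · have h0 : ∀ d : Option (Fin n), |(0:ℝ)| + |φD p q G d| + kD δ (l / 10) G d ≤
        2 * N * (1 + 4 * l + NUSp.ka δ (l / 10)) := by
      intro d
      rw [abs_zero, zero_add]
      rcases d with _ | i
      · have a1 := wph_abs NUSp.wth p
        have a2 := wph_abs NUSp.wth q
        rw [NUSp.wn_wth, one_mul] at a1 a2
        have a3 : |φD p q G none| ≤ 16 * l := by
          show |2 * (NUSp.wph NUSp.wth p + NUSp.wph NUSp.wth q)| ≤ 16 * l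
          rw [abs_mul, abs_two]
          have := abs_add_le (NUSp.wph NUSp.wth p) (NUSp.wph NUSp.wth q)
          linarith
        have a4 : kD δ (l / 10) G none = 4 * NUSp.ka δ (l / 10) := rfl
        rw [a4]
        nlinarith
      · have a1 := gph_abs true (G i)
        have a2 := gph_abs false (G i)
        have a3 : |φD p q G (some i)| ≤ 2 * (NUSp.gn (G i) * (4 * l)) := by
          have := abs_add_le (NUSp.gph true (G i)) (NUSp.gph false (G i))
          have e : φD p q G (some i) = NUSp.gph true (G i) + NUSp.gph false (G i) := rfl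
          rw [e]
          linarith
        have a4 : kD δ (l / 10) G (some i) = 2 * (NUSp.gn (G i) * NUSp.ka δ (l / 10)) := rfl
        rw [a4]
        have a5 := hn i
        calc |φD p q G (some i)| + 2 * (NUSp.gn (G i) * NUSp.ka δ (l / 10)) ≤
            2 * NUSp.gn (G i) * (4 * l + NUSp.ka δ (l / 10)) := by linarith
          _ ≤ 2 * N * (1 + 4 * l + NUSp.ka δ (l / 10)) := by
            gcongr
            linarith
    refine (Finset.sum_le_sum fun d _ => h0 d).trans (le_of_eq ?_)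
    rw [sum_const, card_univ, Fintype.card_option, Fintype.card_fin, nsmul_eq_mul]
    unfold szD
    push_cast
    ring
  · have h1 : DifferentiableAt ℂ (fun z => ∑ i, NUSea.PLX.H0.fD p q G i c z) z :=
      DifferentiableAt.fun_sum fun i _ => hfd i c z hz
    refine h1.congr_of_eventuallyEq ?_
    have h2 : ∀ᶠ w : ℂ in 𝓝 z, |w.im| < l / 10 :=
      (Complex.continuous_im.abs.tendsto z).eventually (gt_mem_nhds hz)
    filter_upwards [h2] with w hw
    exact hA c w hw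
  · rw [hA c z hz, hA c w hw, ← Finset.sum_sub_distrib]
    have hnz := norm_nonneg (z - w)
    have hl1 : l < 1 := by
      have := Real.pi_lt_four
      show Real.pi / 8 < 1
      linarith
    have h0 : ∀ d : Option (Fin n), ‖NUSea.PLX.H0.fD p q G d c z - NUSea.PLX.H0.fD p q G d c w‖ ≤
        2 * N * (1 + 4 * l + NUSp.ka δ (l / 10)) * (1 + ‖z - w‖) := by
      intro d
      have key : ∀ g : ℝ, 0 ≤ g → g ≤ N → ∀ c0 φ0 κ0 : ℝ, |c0| ≤ g → |φ0| ≤ g * (4 * l) →
          κ0 ≤ g * NUSp.ka δ (l / 10) →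
          |c0| * (‖z - w‖ + 2 * (l / 10)) + 2 * |φ0| + 2 * κ0 ≤
            2 * N * (1 + 4 * l + NUSp.ka δ (l / 10)) * (1 + ‖z - w‖) := by
        intro g hg hgN c0 φ0 κ0 h1 h2 h3
        have h4 : |c0| * (‖z - w‖ + 2 * (l / 10)) ≤ g * (‖z - w‖ + 2 * (l / 10)) :=
          mul_le_mul_of_nonneg_right h1 (by positivity)
        have h5 : g * (‖z - w‖ + 2 * (l / 10)) + 2 * (g * (4 * l)) +
            2 * (g * NUSp.ka δ (l / 10)) ≤
            2 * g * (1 + 4 * l + NUSp.ka δ (l / 10)) * (1 + ‖z - w‖) := by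
          have h6 : 0 ≤ g * ((4 * l + NUSp.ka δ (l / 10)) * ‖z - w‖) := by positivity
          have h7 : 0 ≤ g * ‖z - w‖ := by positivity
          have h8 : 0 ≤ g * (1 - l) := mul_nonneg hg (by linarith)
          have h9 : 0 ≤ g * l := by positivity
          linarith
        have h10 : 2 * g * (1 + 4 * l + NUSp.ka δ (l / 10)) * (1 + ‖z - w‖) ≤
            2 * N * (1 + 4 * l + NUSp.ka δ (l / 10)) * (1 + ‖z - w‖) := by gcongr
        linarith
      rcases d with _ | i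
      · have h1 := asy_lip hb0.le (NUSp.asy_th hb hp hq hpq) hz hw
        refine h1.trans (key 2 (by norm_num) hN 0 _ _ (by simp) ?_ le_rfl)
        have a1 := wph_abs NUSp.wth p
        have a2 := wph_abs NUSp.wth q
        rw [NUSp.wn_wth, one_mul] at a1 a2
        have := abs_add_le (NUSp.wph NUSp.wth p) (NUSp.wph NUSp.wth q)
        linarith
      · have h1 := asy_lip hb0.le (NUSp.asy_gp hb0 hb hδ1 c (hG i)) hz hw
        refine h1.trans (key (NUSp.gn (G i)) ?_ (hn i) _ _ _ (NUSea.PLX.H0.gq_le c (G i))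
          (gph_abs c (G i)) le_rfl)
        exact (abs_nonneg _).trans (NUSea.PLX.H0.gq_le c (G i))
    refine (norm_sum_le _ _).trans ((Finset.sum_le_sum fun d _ => h0 d).trans (le_of_eq ?_))
    rw [sum_const, card_univ, Fintype.card_option, Fintype.card_fin, nsmul_eq_mul]
    unfold szD
    push_cast
    ring

/-- the phase of the ends, rows between `-l` and `l` -/
theorem φD_none {p q : ℂ} (hp : |p.re| < l) (hq : |q.re| < l) {n : ℕ} (G : Fin n → NUSp.Grp) :
    φD p q G none = 12 * l := by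
  have hl := l_pos
  have h1 : ∀ {p : ℂ}, |p.re| < l → NUSp.wph NUSp.wth p = 3 * l := by
    intro p hp
    have h2 := abs_lt.1 hp
    refine NUSp.wph_wth ?_ ?_
    · rw [lt_div_iff₀ hl]
      linarith [h2.1]
    · rw [div_lt_one hl]
      exact h2.2
  unfold φD
  simp only
  rw [h1 hp, h1 hq]
  ring

end NUGC.PLX

end
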