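import Pool.Agent.PLX.Ns
import Pool.Agent.PLX.NUGC.S4C
import Pool.Agent.PLX.NUGC.Ob1Fac
import Pool.Agent.NUGC.AsmS
import Pool.Agent.NUGC.DrC

/-!
# Groups of spectators against the objects, pinned energies (TARGET-C)

`spec_pin`: for an object of height at most `T1`, the modulus of the factor of the groups at their true
heights, times the exponential of the energies with the groups pinned at `T1`, times the share of the
object in the far constants, is at most a constant.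
-/

set_option autoImplicit false

noncomputable section

open MeasureTheory Finset
open scoped ENNReal

namespace NUGC.PLX

open NUO NUP1
open NUC43 (sg kq)
open NUSea.PLX.H0 (Gd IG TG cstF)
open NUSp (kG spo qc)
open NUDirP (Small)
open Pool.Agent.NUM3 (sgn)

lemma sgn_beq67 (s a : Bool) : sgn (s == a) = sg s * sg a := by
  cases s <;> cases a <;> norm_num [sgn, sg]

/-- the pinned height and the excess -/
lemma abs_sub_pinT {T1 h τ : ℝ} (hh : |h| ≤ T1) :
    |h - τ| = |h - NUSp.pin T1 τ| + NUSp.exc T1 τ := by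
  have hT : 0 ≤ T1 := (abs_nonneg h).trans hh
  obtain ⟨h1, h2⟩ := abs_le.1 hh
  rcases le_total |τ| T1 with h3 | h3
  · rw [NUSp.pin_of_le h3, NUSp.exc_of_le h3, add_zero]
  · rw [NUSp.exc_of_ge h3]
    rcases le_total 0 τ with h0 | h0
    · rw [abs_of_nonneg h0] at h3 ⊢
      rw [NUSp.pin_of_ge hT h3, abs_of_nonpos (by linarith), abs_of_nonpos (by linarith)]
      ring
    · rw [abs_of_nonpos h0] at h3 ⊢
      rw [NUSp.pin_of_le_neg hT (by linarith), abs_of_nonneg (by linarith),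
        abs_of_nonneg (by linarith)]
      ring

lemma kq_abs67 (k : Kind) : |kq k| ≤ 2 := by
  cases k <;> norm_num [kq]

lemma Ek.q_abs67 (k : Ek) : |k.q| ≤ 2 := by
  cases k <;> norm_num [Ek.q]

/-- one elementary spectator -/
theorem ek_pin : ∃ C : ℝ, 1 ≤ C ∧ ∀ (P : Par), P.e = 1 / 4 → P.jL = 9 / 4 → ∀ (r : ℕ),
    Small 8 P r → ∀ (O : Fin r → Xo) (i : Fin r) (T1 : ℝ), |ht (O i)| ≤ T1 →
    ∀ (a : Bool) (k : Ek) (τ : ℝ),
    facL (Ek.f a k τ) (NUO.cons P O i) *
      Real.exp (ES (obSr P.jL P.e (O i)) (Ek.src a k (NUSp.pin T1 τ))) ≤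
        C * Real.exp (sg (sp (O i)) * kq (kd (O i)) * (2 * (sg a * k.q)) * NUSp.exc T1 τ) := by
  obtain ⟨C, h0, hC⟩ := ES_ek
  refine ⟨CD ^ 2 * Real.exp (C + 8), ?_, fun P he hj r hS O i T1 hT a k τ => ?_⟩
  · have h1 := CD_one
    have h2 := Real.one_le_exp (by linarith : 0 ≤ C + 8)
    nlinarith [mul_nonneg (sub_nonneg.2 h1) (sub_nonneg.2 h1)]
  · have h1 := facL_ek he hj hS O i a k τ
    have h2 := (abs_le.1 (hC (O i) a k (NUSp.pin T1 τ))).2
    rw [sgn_beq67] at h1 h2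
    obtain ⟨A, hA⟩ : ∃ A, A = sg (sp (O i)) * sg a * (kq (kd (O i)) * k.q) := ⟨_, rfl⟩
    rw [← hA] at h1 h2
    obtain ⟨E, hE⟩ : ∃ E, E = ES (obSr P.jL P.e (O i)) (Ek.src a k (NUSp.pin T1 τ)) := ⟨_, rfl⟩
    have hE' : ES (obSr (9 / 4) (1 / 4) (O i)) (Ek.src a k (NUSp.pin T1 τ)) = E := by
      rw [hE, he, hj]
    rw [hE'] at h2
    rw [← hE]
    have hAb : |2 * A| ≤ 8 := by
      rw [hA, abs_mul, abs_mul, abs_mul, abs_mul]
      have s1 : |sg (sp (O i))| = 1 := by cases sp (O i) <;> norm_num [sg]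
      have s2 : |sg a| = 1 := by cases a <;> norm_num [sg]
      have s3 := kq_abs67 (kd (O i))
      have s4 := Ek.q_abs67 k
      rw [s1, s2, abs_of_pos (by norm_num : (0 : ℝ) < 2)]
      have : |kq (kd (O i))| * |k.q| ≤ 2 * 2 :=
        mul_le_mul s3 s4 (abs_nonneg _) (by norm_num)
      linarith
    obtain ⟨u, hu⟩ : ∃ u, u = Real.log (Real.cosh (ht (O i) - τ)) := ⟨_, rfl⟩
    obtain ⟨v, hv⟩ : ∃ v, v = Real.log (Real.cosh (ht (O i) - NUSp.pin T1 τ)) := ⟨_, rfl⟩
    rw [← hu] at h1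
    rw [← hv] at h2
    have hd : |u - v - NUSp.exc T1 τ| ≤ 1 := by
      have a1 := abs_sub_pinT (τ := τ) hT
      have l1 := log_cosh_ge (ht (O i) - τ)
      have l2 := log_cosh_le (ht (O i) - τ)
      have l3 := log_cosh_ge (ht (O i) - NUSp.pin T1 τ)
      have l4 := log_cosh_le (ht (O i) - NUSp.pin T1 τ)
      have l5 := Real.log_two_lt_d9
      rw [← hu] at l1 l2
      rw [← hv] at l3 l4
      have l2' := (abs_le.1 l2).2
      have l4' := (abs_le.1 l4).2
      rw [abs_le]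
      constructor <;> linarith
    have hfin : 2 * A * u + E ≤ C + 8 + 2 * A * NUSp.exc T1 τ := by
      have h3 : 2 * A * (u - v - NUSp.exc T1 τ) ≤ 8 := by
        refine (le_abs_self _).trans ?_
        rw [abs_mul]
        calc |2 * A| * |u - v - NUSp.exc T1 τ| ≤ 8 * 1 :=
              mul_le_mul hAb hd (abs_nonneg _) (by norm_num)
          _ = 8 := by norm_num
      nlinarith
    calc facL (Ek.f a k τ) (NUO.cons P O i) * Real.exp E
        ≤ CD ^ 2 * Real.exp (2 * A * u) * Real.exp E :=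
          mul_le_mul_of_nonneg_right h1 (Real.exp_pos _).le
      _ = CD ^ 2 * Real.exp (2 * A * u + E) := by rw [Real.exp_add]; ring
      _ ≤ CD ^ 2 * Real.exp (C + 8 + 2 * A * NUSp.exc T1 τ) := by
          have := CD_pos
          gcongr
      _ = _ := by
          rw [Real.exp_add]
          rw [show 2 * A * NUSp.exc T1 τ =
            sg (sp (O i)) * kq (kd (O i)) * (2 * (sg a * k.q)) * NUSp.exc T1 τ by rw [hA]; ring]
          ring

theorem facL_prod {κ : Type} (s : Finset κ) (F : κ → Bool → ℂ → ℝ) (A : List (Bool × Bool × ℂ)) :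
    facL (fun a u => ∏ d ∈ s, F d a u) A = ∏ d ∈ s, facL (F d) A := by
  unfold facL
  induction A with
  | nil => simp
  | cons c A ih =>
    simp only [List.map_cons, List.prod_cons] at ih ⊢
    rw [ih, Finset.prod_mul_distrib]
    congr 1
    unfold fac
    split_ifs
    · exact Finset.prod_mul_distrib.symm
    · rfl

/-- the charge of a group -/
theorem sum_q (g : Gd) : ∑ j : Fin (kG g.c g.rt).length,
    2 * (sg (spo g.σ ((kG g.c g.rt).get j).1) * ((kG g.c g.rt).get j).2.q) = sg g.σ * qc g.c := by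
  rw [← mul_sum]
  have h := NUSp.srcG_q g.c g.rt g.σ g.τ
  have e : ∑ j : Fin (kG g.c g.rt).length,
      sg (spo g.σ ((kG g.c g.rt).get j).1) * ((kG g.c g.rt).get j).2.q =
      ∑ i, sg (NUSp.srcG g.c g.rt g.σ g.τ i).a * (NUSp.srcG g.c g.rt g.σ g.τ i).q := rfl
  rw [e, h]
  ring

theorem gq_true (g : Gd) : NUSp.gq true g.G = sg g.σ * qc g.c := by
  unfold Gd.G
  rw [NUSp.gq_grp]
  cases g.σ <;> simp [sg]

/-- one group -/
theorem grp_pin : ∃ C : ℝ, 1 ≤ C ∧ ∀ (P : Par), P.e = 1 / 4 → P.jL = 9 / 4 → ∀ (r : ℕ),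
    Small 8 P r → ∀ (O : Fin r → Xo) (i : Fin r) (T1 : ℝ), |ht (O i)| ≤ T1 → ∀ g : Gd,
    facL (spL (lsG g)) (NUO.cons P O i) *
      Real.exp (∑ j, ES (obSr P.jL P.e (O i))
        (NUSp.srcG g.c g.rt g.σ (NUSp.pin T1 g.τ) j)) ≤
        C * Real.exp (sg (sp (O i)) * kq (kd (O i)) * (NUSp.gq true g.G * NUSp.exc T1 g.τ)) := by
  obtain ⟨C, h1, hC⟩ := ek_pin
  refine ⟨C ^ 3, one_le_pow₀ h1, fun P he hj r hS O i T1 hT g => ?_⟩
  have e1 : facL (spL (lsG g)) (NUO.cons P O i) = ∏ j : Fin (kG g.c g.rt).length,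
      facL (Ek.f (spo g.σ ((kG g.c g.rt).get j).1) ((kG g.c g.rt).get j).2 g.τ)
        (NUO.cons P O i) := by
    have e0 : spL (lsG g) = fun a u => ∏ j : Fin (kG g.c g.rt).length,
        Ek.f (spo g.σ ((kG g.c g.rt).get j).1) ((kG g.c g.rt).get j).2 g.τ a u := by
      funext a u
      unfold spL lsG
      rw [List.map_map, ← List.prod_ofFn]
      congr 1
      conv_lhs => rw [← List.ofFn_get (kG g.c g.rt)]
      rw [List.map_ofFn]
      rfl
    rw [e0]
    exact facL_prod _ _ _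
  rw [e1, Real.exp_sum, ← prod_mul_distrib]
  have hC0 : 0 ≤ C := by linarith
  calc ∏ j : Fin (kG g.c g.rt).length,
        facL (Ek.f (spo g.σ ((kG g.c g.rt).get j).1) ((kG g.c g.rt).get j).2 g.τ)
          (NUO.cons P O i) * Real.exp (ES (obSr P.jL P.e (O i))
            (NUSp.srcG g.c g.rt g.σ (NUSp.pin T1 g.τ) j))
      ≤ ∏ j : Fin (kG g.c g.rt).length, C * Real.exp (sg (sp (O i)) * kq (kd (O i)) *
          (2 * (sg (spo g.σ ((kG g.c g.rt).get j).1) * ((kG g.c g.rt).get j).2.q)) *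
            NUSp.exc T1 g.τ) :=
        prod_le_prod (fun j _ => mul_nonneg
          (facL_nonneg (fun s u => Ek.f_nonneg _ _ _ _ _) _) (Real.exp_pos _).le)
          fun j _ => hC P he hj r hS O i T1 hT _ _ _
    _ = C ^ (kG g.c g.rt).length * Real.exp (sg (sp (O i)) * kq (kd (O i)) *
          (NUSp.gq true g.G * NUSp.exc T1 g.τ)) := by
        rw [prod_mul_distrib, prod_const, card_univ, Fintype.card_fin, ← Real.exp_sum]
        congr 2
        rw [gq_true, ← sum_q, ← sum_mul, ← mul_sum]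
        ring
    _ ≤ _ := by
        refine mul_le_mul_of_nonneg_right ?_ (Real.exp_pos _).le
        exact pow_le_pow_right₀ h1 (NUSp.kG_len _ _)

/-- **a family of groups against an object**, pinned energies and far constants -/
theorem spec_pin : ∃ C : ℝ, 1 ≤ C ∧ ∀ (P : Par), P.e = 1 / 4 → P.jL = 9 / 4 → ∀ (r : ℕ),
    Small 8 P r → ∀ (O : Fin r → Xo) (i : Fin r) (T1 : ℝ), |ht (O i)| ≤ T1 →
    ∀ (n : ℕ) (g : Fin n → Gd), n ≤ 2 →
    facL (spF g) (NUO.cons P O i) *
      Real.exp (∑ d, ES (obSr P.jL P.e (O i)) (TG (fun i => (g i).pin T1) d) -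
        cstF T1 g true * (sg (sp (O i)) * kq (kd (O i)))) ≤ C := by
  obtain ⟨C, h1, hC⟩ := grp_pin
  refine ⟨C ^ 2, one_le_pow₀ h1, fun P he hj r hS O i T1 hT n g hn => ?_⟩
  have hC0 : 0 ≤ C := by linarith
  have e1 : facL (spF g) (NUO.cons P O i) =
      ∏ l, facL (spL (lsG (g l))) (NUO.cons P O i) := facL_prod _ _ _
  have e2 : ∑ d, ES (obSr P.jL P.e (O i)) (TG (fun i => (g i).pin T1) d) =
      ∑ l, ∑ j, ES (obSr P.jL P.e (O i))
        (NUSp.srcG (g l).c (g l).rt (g l).σ (NUSp.pin T1 (g l).τ) j) := NUSea.PLX.H0.sum_TG _ _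
  have e3 : ∑ l, ∑ j, ES (obSr P.jL P.e (O i))
        (NUSp.srcG (g l).c (g l).rt (g l).σ (NUSp.pin T1 (g l).τ) j) -
        cstF T1 g true * (sg (sp (O i)) * kq (kd (O i))) =
      ∑ l, (∑ j, ES (obSr P.jL P.e (O i))
        (NUSp.srcG (g l).c (g l).rt (g l).σ (NUSp.pin T1 (g l).τ) j) -
        sg (sp (O i)) * kq (kd (O i)) * (NUSp.gq true (g l).G * NUSp.exc T1 (g l).τ)) := by
    rw [sum_sub_distrib, ← mul_sum]
    unfold cstF
    ring
  rw [e1, e2, e3, Real.exp_sum, ← prod_mul_distrib]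
  calc ∏ l, facL (spL (lsG (g l))) (NUO.cons P O i) * Real.exp (∑ j, ES (obSr P.jL P.e (O i))
        (NUSp.srcG (g l).c (g l).rt (g l).σ (NUSp.pin T1 (g l).τ) j) -
        sg (sp (O i)) * kq (kd (O i)) * (NUSp.gq true (g l).G * NUSp.exc T1 (g l).τ))
      ≤ ∏ _l : Fin n, C := by
        refine prod_le_prod (fun l _ => mul_nonneg (facL_nonneg (fun s u => ?_) _)
          (Real.exp_pos _).le) fun l _ => ?_
        · rw [← spM_get]
          exact spM_nonneg _ _ _
        · have h := hC P he hj r hS O i T1 hT (g l)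
          rw [Real.exp_sub, ← mul_div_assoc, div_le_iff₀ (Real.exp_pos _)]
          exact h
    _ = C ^ n := by rw [prod_const, card_univ, Fintype.card_fin]
    _ ≤ C ^ 2 := pow_le_pow_right₀ h1 hn

end NUGC.PLX

end
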