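import Pool.Agent.PLX.Ns
import Pool.Agent.PLX.NUGC.ExpC
import Pool.Agent.PLX.NUSea.H0.SpG

/-!
# TARGET-C: the exponent of a configuration with at most two groups of spectators

`exists_enS`: `NUGC.exists_enC` for the families `g : Fin n → Gd`, `n ≤ 2`, of `NUSea/H0/SpG`; the sea
term of the spectators is the sum of the sea terms `seaG` of the groups (`sea_fam`).
-/

set_option autoImplicit false
set_option linter.unusedSectionVars false

noncomputable section

open MeasureTheory Finset Filter Topology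

namespace NUGC.PLX

open NUO (Kind Xo kd ht sp Par PG wK cons slkK rr Tb)
open NUStabP (enC)
open NUDispW (win)
open NUMF (l l_pos)
open NUSea (P)
open NUSea.PLX (Cur hd)
open NUSea.PLX.H0 (Inp IOk datO wO Gd TG SpI)

variable [NUSea.Sea]

/-- the sea term of a group: the two species with the numbers `s true`, `s false`, on the axis -/
def seaG (s : Bool → ℝ) (g : Gd) : ℝ :=
  ∫ t : ℝ, P t * (s true * (NUSp.gp true g.G t).re + s false * (NUSp.gp false g.G t).re)

/-- the potential of a group on one species is integrable against the sea -/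
lemma sea_int (a : Bool) (g : Gd) : Integrable fun t : ℝ => P t * (NUSp.gp a g.G t).re := by
  have hl := l_pos
  have hb : l / 10 < 1 / 4 * l := by linarith
  have hb0 : 0 < l / 10 := by positivity
  have hc : Continuous fun t : ℝ => (NUSp.gp a g.G (t : ℂ)).re := by
    have h4 : Continuous fun t : ℝ => NUSp.gp a g.G (t : ℂ) := by
      refine continuous_iff_continuousAt.2 fun t => ?_
      have h5 := ((NUSp.potB_gp hb0 hb a g.ok).hd (t : ℂ) (by simpa using hb0)).continuousAt
      exact h5.comp Complex.continuous_ofReal.continuousAt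
    exact Complex.continuous_re.comp h4
  obtain ⟨K, hK⟩ : ∃ K : ℝ, K = NUSp.gn g.G * (2 * (l / 10)) + 2 * (NUSp.gn g.G * (4 * l)) +
      2 * (NUSp.gn g.G * NUSp.ka (1 / 4) (l / 10)) + ‖NUSp.gp a g.G ((0 : ℝ) : ℂ)‖ := ⟨_, rfl⟩
  have hg0 : 0 ≤ NUSp.gn g.G := (abs_nonneg _).trans (NUSea.PLX.H0.gq_le a g.G)
  have hk := NUSp.ka_nonneg (δ := 1 / 4) hb (by norm_num) hb0
  have hK0 : 0 ≤ K := by
    rw [hK]
    positivity
  have hle : ∀ t : ℝ, |(NUSp.gp a g.G (t : ℂ)).re| ≤ NUSp.gn g.G * |t| + K := by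
    intro t
    have h1 := asy_lip hb0.le (NUSp.asy_gp hb0 hb (by norm_num) a g.ok)
      (z := (t : ℂ)) (w := ((0 : ℝ) : ℂ)) (by simpa using hb0) (by simpa using hb0)
    have h2 : ‖((t : ℂ) - ((0 : ℝ) : ℂ))‖ = |t| := by
      rw [← Complex.ofReal_sub, sub_zero, Complex.norm_real, Real.norm_eq_abs]
    rw [h2] at h1
    have h3 := norm_sub_norm_le (NUSp.gp a g.G (t : ℂ)) (NUSp.gp a g.G ((0 : ℝ) : ℂ))
    have h4 := Complex.abs_re_le_norm (NUSp.gp a g.G (t : ℂ))
    have h5 := NUSea.PLX.H0.gq_le a g.G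
    have h6 := gph_abs a g.G
    have h7 : |NUSp.gq a g.G| * (|t| + 2 * (l / 10)) ≤ NUSp.gn g.G * (|t| + 2 * (l / 10)) :=
      mul_le_mul_of_nonneg_right h5 (by positivity)
    rw [hK]
    linarith
  obtain ⟨C, hC0, hC⟩ := NUSea.P_le
  have hi : Integrable fun t : ℝ => C * ((NUSp.gn g.G + K) * Real.exp (-(5 / 3) * |t|)) :=
    ((NUDispW.int_exp_abs (c := 5 / 3) (by norm_num) 0).1.congr (ae_of_all _ fun t => by
      simp only [sub_zero]
      ring_nf)).const_mul _ |>.const_mul _
  refine hi.mono ((NUSea.P_cont.mul hc).aestronglyMeasurable) (ae_of_all _ fun t => ?_)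
  have hp := NUSea.P_pos t
  have h0 : 0 ≤ C * ((NUSp.gn g.G + K) * Real.exp (-(5 / 3) * |t|)) := by positivity
  rw [norm_mul, Real.norm_eq_abs, Real.norm_eq_abs, Real.norm_eq_abs, abs_of_pos hp,
    abs_of_nonneg h0]
  have h1 : NUSp.gn g.G * |t| + K ≤ (NUSp.gn g.G + K) * Real.exp |t| := by
    have h2 := Real.add_one_le_exp |t|
    have h3 := abs_nonneg t
    nlinarith
  have h4 : Real.exp (-(5 / 3) * |t|) = Real.exp (-(8 / 3) * |t|) * Real.exp |t| := by
    rw [← Real.exp_add]
    congr 1
    ring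
  calc P t * |(NUSp.gp a g.G (t : ℂ)).re| ≤
        (C * Real.exp (-(8 / 3) * |t|)) * ((NUSp.gn g.G + K) * Real.exp |t|) :=
        mul_le_mul (hC t) ((hle t).trans h1) (abs_nonneg _) (by positivity)
    _ = _ := by rw [h4]; ring

/-- the sea term of a group, species by species -/
lemma seaG_eq (s : Bool → ℝ) (g : Gd) : seaG s g =
    s true * (∫ t : ℝ, P t * (NUSp.gp true g.G t).re) +
      s false * ∫ t : ℝ, P t * (NUSp.gp false g.G t).re := by
  unfold seaG
  rw [← integral_const_mul, ← integral_const_mul, ← integral_add ((sea_int true g).const_mul _)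
    ((sea_int false g).const_mul _)]
  congr 1
  funext t
  ring

/-- **the sea term of the spectators** -/
theorem sea_fam {n : ℕ} {g : Fin n → Gd} {p q : ℂ} {I : Inp} {B' : Bool → ℝ → ℝ}
    (h : SpI p q g I B') :
    (∫ t : ℝ, P t * (I.s true * (I.A true t).re + I.s false * (I.A false t).re)) =
      ∑ i, seaG I.s (g i) := by
  have h0 := NUSp.th_re h.hp h.hq h.him
  have e1 : ∀ (a : Bool) (t : ℝ), (I.A a t).re = ∑ i, (NUSp.gp a (g i).G t).re := by
    intro a t
    rw [h.A, ← NUSea.PLX.H0.sum_fD, Fintype.sum_option, Complex.add_re, Complex.re_sum]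
    have e2 : (NUSea.PLX.H0.fD p q (fun i => (g i).G) none a (t : ℂ)).re = 0 := h0 t
    rw [e2, zero_add]
    rfl
  have e2 : ∀ t : ℝ, P t * (I.s true * (I.A true t).re + I.s false * (I.A false t).re) =
      ∑ i, P t * (I.s true * (NUSp.gp true (g i).G t).re +
        I.s false * (NUSp.gp false (g i).G t).re) := by
    intro t
    rw [e1, e1, Finset.mul_sum, Finset.mul_sum, ← Finset.sum_add_distrib, Finset.mul_sum]
  simp_rw [e2]
  rw [integral_finsetSum _ fun i _ => ?_]
  · rfl
  · have h1 : Integrable fun t : ℝ => I.s true * (P t * (NUSp.gp true (g i).G t).re) +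
        I.s false * (P t * (NUSp.gp false (g i).G t).re) :=
      ((sea_int true (g i)).const_mul _).add ((sea_int false (g i)).const_mul _)
    refine h1.congr (ae_of_all _ fun t => ?_)
    simp only
    ring

end NUGC.PLX

end
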