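import Pool.Agent.PLX.Ns
import Pool.Agent.PLX.NUSea.H0.PinF
import Pool.Agent.NUSea.Sea

/-!
# The linear term at the true heights of the groups, one species

* `gp_axis`, `gp_cont`, `gp_int`: the potential of a group on the axis, species `a`, against the sea;
* `exists_linT`: for each species `a` (density `s`, curve `η`), the linear term of the pinned groups
  together with the remainders `BF` and the constant `cstF` is the one of the groups at their true
  heights, up to `K n (Hm e^{-(T - b)} + s e^{-(8/3) T})`.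
-/

set_option autoImplicit false
set_option linter.unusedSectionVars false

open MeasureTheory Set Filter Topology

namespace NUSea.PLX.H0

open NUMF NUO
open NUSp (Cl Grp grp gp gp1 gq gn pinw remG remG1 kr kk Asy)

noncomputable section

variable [Sea]

lemma kk4_nonneg : 0 ≤ kk (1 / 4) (NUMF.l / 5) := NUSp.kk_nonneg _ _

lemma l5pos : 0 < NUMF.l / 5 := by
  have := NUMF.l_pos
  positivity

/-- one species on the axis -/
theorem gp_axis (g : Gd) (a : Bool) (t : ℝ) :
    |(gp a g.G t).re - (gq a g.G * |t - g.τ| + -(gq a g.G * Real.log 2))| ≤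
      kk (1 / 4) (NUMF.l / 5) * Real.exp (-2 * |t - g.τ|) := by
  have hz : |((t : ℂ)).im| < NUMF.l / 5 := by simpa using l5pos
  have h1 := NUSp.re_le_z (NUSp.asy_grp l5pos l5 (by norm_num) g.away g.c a g.σ) hz
  rw [Gd.im, Complex.ofReal_re] at h1
  exact h1

lemma gp_cont (g : Gd) (a : Bool) : Continuous fun t : ℝ => (gp a g.G t).re := by
  have h : Continuous fun t : ℝ => gp a g.G t := by
    refine (NUSp.continuous_f (NUSp.potB_grp (w := g.w) l5pos l5 g.away g.c a g.σ)).comp_continuous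
      Complex.continuous_ofReal fun t => ?_
    show |((t : ℂ)).im| < NUMF.l / 5
    simpa using l5pos
  exact Complex.continuous_re.comp h

lemma gq_abs (g : Gd) (a : Bool) : |gq a g.G| ≤ 3 := by
  have h : gq a g.G = if a = g.σ then NUSp.qc g.c else -NUSp.qc g.c := NUSp.gq_grp _ _ _ _
  rw [h]
  split_ifs <;> cases g.c <;> norm_num [NUSp.qc]

variable {T b : ℝ} {η : ℝ → ℝ}

/-- the difference of a group on species `a` -/
def dfG (T : ℝ) (g : Gd) (a : Bool) (η : ℝ → ℝ) (t : ℝ) : ℝ :=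
  (gp a (g.pin T).G t).re + gq a g.G * NUSp.exc T g.τ + remG T g.c a g.σ g.w η t - (gp a g.G t).re

lemma dfG_zero {g : Gd} (h : |g.τ| ≤ T) (a : Bool) (t : ℝ) : dfG T g a η t = 0 := by
  unfold dfG
  have h' : |g.w.im| ≤ T := by rwa [Gd.im]
  rw [Gd.pin_of_le h, NUSp.remG_zero h', NUSp.exc_of_le h]
  ring

/-- inside the window -/
theorem dfG_in (g : Gd) (a : Bool) (hT : 0 ≤ T) (h : T ≤ |g.τ|) {t : ℝ} (ht : |t| ≤ T)
    (hη : |η t| < NUMF.l / 5) :
    |dfG T g a η t| ≤ 2 * kk (1 / 4) (NUMF.l / 5) * |η t| * Real.exp (-2 * |t - NUSp.pin T g.τ|) := by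
  have k0 := kk4_nonneg
  have h1 := NUSp.gp_in ht g.c a g.σ g.w η
  rw [Gd.im, ← Gd.pin_G] at h1
  have h2 := NUSp.re_curve (NUSp.potB_grp (w := g.w) l5pos l5 g.away g.c a g.σ) (t := t) hη
  have h3 := NUSp.re_curve (NUSp.potB_grp (w := (g.pin T).w) l5pos l5 (g.pin T).away g.c a g.σ)
    (t := t) hη
  rw [Gd.im] at h2 h3
  have h4 : Real.exp (-2 * |t - g.τ|) ≤ Real.exp (-2 * |t - NUSp.pin T g.τ|) := by
    refine Real.exp_le_exp.2 ?_
    have h5 : NUSp.sg g.τ * t ≤ T := (NUSp.sg_mul_le _ _).trans ht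
    have h6 := NUSp.geo_in hT h h5
    have h7 := NUSp.exc_nonneg T g.τ
    linarith
  have h5 : kk (1 / 4) (NUMF.l / 5) * |η t| * Real.exp (-2 * |t - g.τ|) ≤
      kk (1 / 4) (NUMF.l / 5) * |η t| * Real.exp (-2 * |t - NUSp.pin T g.τ|) :=
    mul_le_mul_of_nonneg_left h4 (by positivity)
  have e0 : (g.pin T).τ = NUSp.pin T g.τ := rfl
  rw [e0] at h3
  have e1 : dfG T g a η t =
      ((gp a (grp g.c g.σ g.w) (t + (η t : ℂ) * Complex.I)).re - (gp a (grp g.c g.σ g.w) t).re) -
      ((gp a (grp g.c g.σ (g.pin T).w) (t + (η t : ℂ) * Complex.I)).re -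
        (gp a (grp g.c g.σ (g.pin T).w) t).re) := by
    have e2 : gp a (g.pin T).G = gp a (grp g.c g.σ (g.pin T).w) := rfl
    have e3 : gp a g.G = gp a (grp g.c g.σ g.w) := rfl
    have e4 : gq a g.G = gq a (grp g.c g.σ g.w) := rfl
    unfold dfG
    rw [e2] at h1
    rw [e2, e3, e4, h1]
    ring
  rw [e1]
  refine (abs_sub _ _).trans ?_
  linarith

lemma pin_absT {τ : ℝ} (hT : 0 ≤ T) (h : T ≤ |τ|) : |NUSp.pin T τ| = T := by
  rw [NUSp.pin_eq_sg hT h, abs_mul, NUSp.sg_abs, one_mul, abs_of_nonneg hT]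

/-- distances to the pinned and to the true height -/
lemma geo_out {τ t : ℝ} (hT : 0 ≤ T) (ht : T ≤ |t|) :
    |(|t - NUSp.pin T τ| - |t - τ| + NUSp.exc T τ)| ≤ 2 * (|t| - T) := by
  rcases le_total |τ| T with h | h
  · rw [NUSp.pin_of_le h, NUSp.exc_of_le h, sub_self, zero_add, abs_zero]
    linarith
  · have h1 : |τ - NUSp.pin T τ| = NUSp.exc T τ := by
      rw [NUSp.exc_of_ge h, NUSp.pin_eq_sg hT h]
      have h9 : τ - NUSp.sg τ * T = NUSp.sg τ * (|τ| - T) := by
        rw [mul_sub]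
        congr 1
        exact NUSp.eq_sg τ
      rw [h9, abs_mul, NUSp.sg_abs, one_mul, abs_of_nonneg (by linarith)]
    have h2 : |t - τ| ≤ |t - NUSp.pin T τ| + NUSp.exc T τ := by
      rw [← h1, abs_sub_comm τ]
      exact abs_sub_le _ _ _
    have h3 := pin_absT hT h
    rw [abs_of_nonneg (by linarith)]
    rcases le_total 0 t with h0 | h0 <;> rcases le_total 0 τ with h5 | h5
    · rw [abs_of_nonneg h0] at ht
      rw [abs_of_nonneg h5] at h
      rw [NUSp.pin_of_ge hT h, NUSp.exc_of_ge (by rwa [abs_of_nonneg h5]), abs_of_nonneg h5,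
        abs_of_nonneg h0, abs_of_nonneg (by linarith : 0 ≤ t - T)]
      have := neg_abs_le (t - τ)
      have := le_abs_self (t - τ)
      linarith
    · rw [abs_of_nonneg h0] at ht
      rw [abs_of_nonpos h5] at h
      rw [NUSp.pin_of_le_neg hT (by linarith), NUSp.exc_of_ge (by rwa [abs_of_nonpos h5]),
        abs_of_nonpos h5, abs_of_nonneg h0, abs_of_nonneg (by linarith : 0 ≤ t - -T),
        abs_of_nonneg (by linarith : 0 ≤ t - τ)]
      linarith
    · rw [abs_of_nonpos h0] at ht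
      rw [abs_of_nonneg h5] at h
      rw [NUSp.pin_of_ge hT h, NUSp.exc_of_ge (by rwa [abs_of_nonneg h5]), abs_of_nonneg h5,
        abs_of_nonpos h0, abs_of_nonpos (by linarith : t - T ≤ 0),
        abs_of_nonpos (by linarith : t - τ ≤ 0)]
      linarith
    · rw [abs_of_nonpos h0] at ht
      rw [abs_of_nonpos h5] at h
      rw [NUSp.pin_of_le_neg hT (by linarith), NUSp.exc_of_ge (by rwa [abs_of_nonpos h5]),
        abs_of_nonpos h5, abs_of_nonpos h0, abs_of_nonpos (by linarith : t - -T ≤ 0)]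
      have := neg_abs_le (t - τ)
      have := le_abs_self (t - τ)
      linarith

/-- outside the window -/
theorem dfG_out (g : Gd) (a : Bool) (hT : 0 ≤ T) {t : ℝ} (ht : T ≤ |t|) (hη : |η t| < NUMF.l / 5) :
    |dfG T g a η t| ≤ 2 * kk (1 / 4) (NUMF.l / 5) + kr (1 / 4) (NUMF.l / 5) + 6 * (|t| - T) := by
  have k0 := kk4_nonneg
  have k1 : 0 ≤ kr (1 / 4) (NUMF.l / 5) := NUSp.rc_nonneg (NUSp.kk_nonneg _ _)
  have e1 : ∀ x : ℝ, Real.exp (-2 * |x|) ≤ 1 := fun x =>
    Real.exp_le_one_iff.2 (by have := abs_nonneg x; linarith)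
  have h1 := gp_axis (g.pin T) a t
  have h2 := gp_axis g a t
  have e2 : gq a (g.pin T).G = gq a g.G := by
    have a1 : gq a (g.pin T).G = if a = g.σ then NUSp.qc g.c else -NUSp.qc g.c :=
      NUSp.gq_grp _ _ _ _
    have a2 : gq a g.G = if a = g.σ then NUSp.qc g.c else -NUSp.qc g.c := NUSp.gq_grp _ _ _ _
    rw [a1, a2]
  have e3 : (g.pin T).τ = NUSp.pin T g.τ := rfl
  rw [e2, e3] at h1
  have h3 := NUSp.remG_le (w := g.w) (t := t) (η := η) l5pos l5 (by norm_num) g.away hT g.c a g.σ hη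
  have h5 : kk (1 / 4) (NUMF.l / 5) * Real.exp (-2 * |t - NUSp.pin T g.τ|) ≤
      kk (1 / 4) (NUMF.l / 5) * 1 := mul_le_mul_of_nonneg_left (e1 _) k0
  have h6 : kk (1 / 4) (NUMF.l / 5) * Real.exp (-2 * |t - g.τ|) ≤
      kk (1 / 4) (NUMF.l / 5) * 1 := mul_le_mul_of_nonneg_left (e1 _) k0
  have h7 : kr (1 / 4) (NUMF.l / 5) * Real.exp (-2 * |t - NUSp.pin T g.w.im|) ≤
      kr (1 / 4) (NUMF.l / 5) * 1 := mul_le_mul_of_nonneg_left (e1 _) k1
  have h8 : |gq a g.G * (|t - NUSp.pin T g.τ| - |t - g.τ| + NUSp.exc T g.τ)| ≤ 6 * (|t| - T) := by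
    rw [abs_mul]
    calc |gq a g.G| * |(|t - NUSp.pin T g.τ| - |t - g.τ| + NUSp.exc T g.τ)|
        ≤ 3 * (2 * (|t| - T)) := mul_le_mul (gq_abs g a) (geo_out hT ht) (abs_nonneg _) (by norm_num)
      _ = _ := by ring
  unfold dfG
  rw [abs_le] at h1 h2 h3 h8 ⊢
  constructor <;> nlinarith [h1.1, h1.2, h2.1, h2.2, h3.1, h3.2, h8.1, h8.2]

/-- **the linear term of a group** -/
theorem exists_dfG : ∃ K : ℝ, 0 ≤ K ∧ ∀ (g : Gd) (a : Bool) (T b s Hm : ℝ) (η : ℝ → ℝ), 0 ≤ T →
    b ≤ T → 0 ≤ s → 0 ≤ Hm → (∀ t, |η t| < NUMF.l / 5) → (∀ t, b < |t| → η t = 0) →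
    (∀ t, s * P t * |η t| ≤ Hm) →
    ∀ t, |s * P t * dfG T g a η t| ≤
      K * Hm * Real.exp (-(T - b)) * Real.exp (-(1 * |t - NUSp.pin T g.τ|)) +
      K * s * Real.exp (-(8 / 3 * T)) * (Real.exp (-(1 * |t - T|)) + Real.exp (-(1 * |t - -T|))) := by
  obtain ⟨C, hC, hP⟩ := NUSea.P_le
  have k0 := kk4_nonneg
  have k1 : 0 ≤ kr (1 / 4) (NUMF.l / 5) := NUSp.rc_nonneg (NUSp.kk_nonneg _ _)
  obtain ⟨A, hA⟩ : ∃ A, A = 2 * kk (1 / 4) (NUMF.l / 5) + kr (1 / 4) (NUMF.l / 5) + 6 := ⟨_, rfl⟩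
  have hA0 : 0 ≤ A := by rw [hA]; positivity
  obtain ⟨B, hB⟩ : ∃ B, B = 2 * A * (1 + C) := ⟨_, rfl⟩
  have hB0 : 0 ≤ B := by rw [hB]; positivity
  have hB1 : 2 * kk (1 / 4) (NUMF.l / 5) ≤ B := by
    have h1 : 2 * kk (1 / 4) (NUMF.l / 5) ≤ A := by rw [hA]; linarith
    rw [hB]
    nlinarith
  have hB2 : 2 * (A * C) ≤ B := by rw [hB]; nlinarith
  refine ⟨B, hB0, ?_⟩
  intro g a T b s Hm η hT hb hs hHm hη hz hH t
  have hPt := (NUSea.P_pos t).le
  have q1 : 0 ≤ B * Hm * Real.exp (-(T - b)) * Real.exp (-(1 * |t - NUSp.pin T g.τ|)) := by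
    positivity
  have q2 : 0 ≤ B * s * Real.exp (-(8 / 3 * T)) *
      (Real.exp (-(1 * |t - T|)) + Real.exp (-(1 * |t - -T|))) := by positivity
  rcases le_total |g.τ| T with h0 | h0
  · rw [dfG_zero h0, mul_zero, abs_zero]
    positivity
  rcases le_or_gt |t| T with ht | ht
  · -- inside
    refine le_trans ?_ (le_add_of_nonneg_right q2)
    rcases lt_or_ge b |t| with hbt | hbt
    · have h1 := dfG_in g a hT h0 ht (hη t)
      rw [hz t hbt, abs_zero, mul_zero, zero_mul] at h1
      rw [abs_mul, abs_of_nonneg (by positivity : 0 ≤ s * P t), le_antisymm h1 (abs_nonneg _), mul_zero]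
      exact q1
    · have h1 := dfG_in g a hT h0 ht (hη t)
      rw [abs_mul, abs_of_nonneg (by positivity : 0 ≤ s * P t)]
      have h2 : T - b ≤ |t - NUSp.pin T g.τ| := by
        have h3 := pin_absT hT h0
        have h4 := abs_sub_abs_le_abs_sub (NUSp.pin T g.τ) t
        rw [abs_sub_comm] at h4
        linarith
      have h3 : Real.exp (-2 * |t - NUSp.pin T g.τ|) ≤
          Real.exp (-(T - b)) * Real.exp (-(1 * |t - NUSp.pin T g.τ|)) := by
        rw [← Real.exp_add]
        exact Real.exp_le_exp.2 (by linarith)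
      calc s * P t * |dfG T g a η t| ≤ s * P t * (2 * kk (1 / 4) (NUMF.l / 5) * |η t| *
            Real.exp (-2 * |t - NUSp.pin T g.τ|)) := mul_le_mul_of_nonneg_left h1 (by positivity)
        _ = 2 * kk (1 / 4) (NUMF.l / 5) * (s * P t * |η t|) *
            Real.exp (-2 * |t - NUSp.pin T g.τ|) := by ring
        _ ≤ 2 * kk (1 / 4) (NUMF.l / 5) * Hm *
            (Real.exp (-(T - b)) * Real.exp (-(1 * |t - NUSp.pin T g.τ|))) := by
            have := hH t
            gcongr
        _ ≤ B * Hm *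
            (Real.exp (-(T - b)) * Real.exp (-(1 * |t - NUSp.pin T g.τ|))) := by gcongr
        _ = _ := by ring
  · -- outside
    refine le_trans ?_ (le_add_of_nonneg_left q1)
    have h1 := dfG_out g a hT ht.le (hη t)
    rw [abs_mul, abs_of_nonneg (by positivity : 0 ≤ s * P t)]
    obtain ⟨u, hu⟩ : ∃ u, u = |t| - T := ⟨_, rfl⟩
    have hu0 : 0 ≤ u := by rw [hu]; linarith
    have h2 : Real.exp (-(1 * u)) ≤
        Real.exp (-(1 * |t - T|)) + Real.exp (-(1 * |t - -T|)) := by
      rcases le_total 0 t with h3 | h3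
      · rw [abs_of_nonneg h3] at ht hu
        have h4 : Real.exp (-(1 * u)) = Real.exp (-(1 * |t - T|)) := by
          rw [abs_of_nonneg (by linarith), hu]
        have h5 : 0 ≤ Real.exp (-(1 * |t - -T|)) := by positivity
        linarith
      · rw [abs_of_nonpos h3] at ht hu
        have h4 : Real.exp (-(1 * u)) = Real.exp (-(1 * |t - -T|)) := by
          rw [abs_of_nonpos (by linarith), hu]
          congr 1
          ring
        have h5 : 0 ≤ Real.exp (-(1 * |t - T|)) := by positivity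
        linarith
    have h3 : Real.exp (-(8 / 3) * |t|) * (A + 6 * u) ≤
        Real.exp (-(8 / 3 * T)) * (Real.exp (-(1 * u)) * A * 2) := by
      have e4 : Real.exp (-(8 / 3) * |t|) =
          Real.exp (-(8 / 3 * T)) * (Real.exp (-(1 * u)) * Real.exp (-(5 / 3 * u))) := by
        rw [← Real.exp_add, ← Real.exp_add, hu]
        congr 1
        ring
      have e5 : Real.exp (-(5 / 3 * u)) * (A + 6 * u) ≤ A * 2 := by
        have a1 : Real.exp (-(5 / 3 * u)) ≤ 1 := Real.exp_le_one_iff.2 (by linarith)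
        have a2 : Real.exp (-(5 / 3 * u)) * u ≤ 1 := by
          have b1 := Real.add_one_le_exp (5 / 3 * u)
          have b2 : Real.exp (-(5 / 3 * u)) * Real.exp (5 / 3 * u) = 1 := by
            rw [← Real.exp_add]
            simp
          have b3 := Real.exp_pos (-(5 / 3 * u))
          nlinarith
        have hA6 : 6 ≤ A := by rw [hA]; linarith
        nlinarith
      rw [e4]
      calc Real.exp (-(8 / 3 * T)) * (Real.exp (-(1 * u)) * Real.exp (-(5 / 3 * u))) * (A + 6 * u)
          = Real.exp (-(8 / 3 * T)) * (Real.exp (-(1 * u)) *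
            (Real.exp (-(5 / 3 * u)) * (A + 6 * u))) := by ring
        _ ≤ Real.exp (-(8 / 3 * T)) * (Real.exp (-(1 * u)) * (A * 2)) := by gcongr
        _ = _ := by ring
    have h1' : |dfG T g a η t| ≤ A + 6 * u := by
      rw [hA, hu]
      linarith
    calc s * P t * |dfG T g a η t| ≤ s * (C * Real.exp (-(8 / 3) * |t|)) * (A + 6 * u) := by
          have := hP t
          gcongr
      _ = s * C * (Real.exp (-(8 / 3) * |t|) * (A + 6 * u)) := by ring
      _ ≤ s * C * (Real.exp (-(8 / 3 * T)) * (Real.exp (-(1 * u)) * A * 2)) := by gcongr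
      _ ≤ s * C * (Real.exp (-(8 / 3 * T)) *
          ((Real.exp (-(1 * |t - T|)) + Real.exp (-(1 * |t - -T|))) * A * 2)) := by gcongr
      _ = 2 * (A * C) * (s * (Real.exp (-(8 / 3 * T)) *
          (Real.exp (-(1 * |t - T|)) + Real.exp (-(1 * |t - -T|))))) := by ring
      _ ≤ B * (s * (Real.exp (-(8 / 3 * T)) *
          (Real.exp (-(1 * |t - T|)) + Real.exp (-(1 * |t - -T|))))) :=
          mul_le_mul_of_nonneg_right hB2 (by positivity)
      _ = _ := by ring

/-- the potential of a group against the sea -/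
theorem gp_int (G : Gd) (a : Bool) (s : ℝ) : Integrable fun t : ℝ => s * P t * (gp a G.G t).re := by
  have k0 := kk4_nonneg
  obtain ⟨C, hC, hP⟩ := NUSea.P_le
  have h0 : ∀ t : ℝ, |(gp a G.G t).re| ≤ 4 * (kk (1 / 4) (NUMF.l / 5) + |G.τ| + 1) * Real.exp |t| := by
    intro t
    have h1 := gp_axis G a t
    have h2 : Real.exp (-2 * |t - G.τ|) ≤ 1 :=
      Real.exp_le_one_iff.2 (by have := abs_nonneg (t - G.τ); linarith)
    have h3 : |gq a G.G * |t - G.τ| + -(gq a G.G * Real.log 2)| ≤ 3 * (|t| + |G.τ| + 1) := by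
      have a1 := gq_abs G a
      have a2 := abs_sub t G.τ
      have a3 := Real.log_two_lt_d9
      have a4 : 0 < Real.log 2 := Real.log_pos (by norm_num)
      rw [← sub_eq_add_neg, ← mul_sub, abs_mul]
      refine mul_le_mul a1 ?_ (abs_nonneg _) (by norm_num)
      rw [abs_le]
      have a5 := abs_nonneg (t - G.τ)
      have a6 := abs_nonneg t
      have a7 := abs_nonneg G.τ
      constructor <;> linarith
    have h4 := Real.add_one_le_exp |t|
    have h5 := abs_nonneg t
    have h6 := abs_nonneg G.τ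
    have h7 : |(gp a G.G t).re| ≤ kk (1 / 4) (NUMF.l / 5) * 1 + 3 * (|t| + |G.τ| + 1) := by
      have b1 := (abs_sub_abs_le_abs_sub _ _).trans
        (h1.trans (mul_le_mul_of_nonneg_left h2 k0))
      linarith
    have h8 : 1 ≤ Real.exp |t| := Real.one_le_exp h5
    nlinarith
  have h1 : Integrable fun t : ℝ => Real.exp (-(1 * |t - 0|)) :=
    (NUDispW.int_exp_abs (c := 1) one_pos 0).1
  refine (h1.const_mul (|s| * C * (4 * (kk (1 / 4) (NUMF.l / 5) + |G.τ| + 1)))).mono'
    (((continuous_const.mul NUSea.P_cont).mul (gp_cont G a)).aestronglyMeasurable)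
    (ae_of_all _ fun t => ?_)
  have hP0 := (NUSea.P_pos t).le
  rw [Real.norm_eq_abs, abs_mul, abs_mul, abs_of_nonneg hP0, sub_zero]
  have h6 := abs_nonneg G.τ
  calc |s| * P t * |(gp a G.G t).re|
      ≤ |s| * (C * Real.exp (-(8 / 3) * |t|)) *
        (4 * (kk (1 / 4) (NUMF.l / 5) + |G.τ| + 1) * Real.exp |t|) := by
        have := hP t
        have := h0 t
        gcongr
    _ = |s| * C * (4 * (kk (1 / 4) (NUMF.l / 5) + |G.τ| + 1)) *
        (Real.exp (-(8 / 3) * |t|) * Real.exp |t|) := by ring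
    _ ≤ |s| * C * (4 * (kk (1 / 4) (NUMF.l / 5) + |G.τ| + 1)) * Real.exp (-(1 * |t|)) := by
        refine mul_le_mul_of_nonneg_left ?_ (by positivity)
        rw [← Real.exp_add]
        refine Real.exp_le_exp.2 ?_
        have := abs_nonneg t
        linarith

/-- **the linear term at the true heights**, species `a` with density `s` and curve `η` -/
theorem exists_linT : ∃ K : ℝ, 0 ≤ K ∧ ∀ (a : Bool) (n : ℕ) (g : Fin n → Gd) (T b s Hm : ℝ)
    (η η1 : ℝ → ℝ), 0 ≤ T → b ≤ T → 0 ≤ s → 0 ≤ Hm → (∀ t, |η t| < NUMF.l / 5) →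
    (∀ t, HasDerivAt η (η1 t) t) → (∀ t, b < |t| → η t = 0) → (∀ t, s * P t * |η t| ≤ Hm) →
    |(∫ t, s * P t * ∑ i, (gp a ((g i).pin T).G t).re) + (∫ t, s * P t * BF T g η a t) +
      s * cstF T g a - ∫ t, s * P t * ∑ i, (gp a (g i).G t).re| ≤
      K * n * (Hm * Real.exp (-(T - b)) + s * Real.exp (-(8 / 3 * T))) := by
  obtain ⟨K, hK, H⟩ := exists_dfG
  refine ⟨4 * K, by positivity, ?_⟩
  intro a n g T b s Hm η η1 hT hb hs hHm hη hd hz hH
  have k0 := kk4_nonneg
  -- integrability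
  have iC : ∀ c : ℝ, Integrable fun t => s * P t * c := fun c =>
    (NUSea.P_int.const_mul s).mul_const c
  have iR : ∀ i : Fin n, Integrable fun t =>
      s * P t * remG T (g i).c a (g i).σ (g i).w η t := by
    intro i
    have h1 : Integrable fun t => s * P t := NUSea.P_int.const_mul s
    have hc : Continuous fun t => remG T (g i).c a (g i).σ (g i).w η t :=
      continuous_iff_continuousAt.2 fun t => (NUSp.hasDerivAt_remG l5pos l5
        (g i).away T (g i).c a (g i).σ (hη t) (hd t)).continuousAt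
    refine h1.mul_bdd (c := kr (1 / 4) (NUMF.l / 5)) hc.aestronglyMeasurable
      (ae_of_all _ fun t => ?_)
    have h2 := NUSp.remG_le (w := (g i).w) (t := t) (η := η) l5pos l5 (by norm_num) (g i).away hT
      (g i).c a (g i).σ (hη t)
    refine h2.trans ?_
    have h3 : Real.exp (-2 * |t - NUSp.pin T (g i).w.im|) ≤ 1 :=
      Real.exp_le_one_iff.2 (by have := abs_nonneg (t - NUSp.pin T (g i).w.im); linarith)
    have h4 : 0 ≤ kr (1 / 4) (NUMF.l / 5) := NUSp.rc_nonneg (NUSp.kk_nonneg _ _)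
    have := mul_le_mul_of_nonneg_left h3 h4
    linarith
  -- one group
  have eD : ∀ i : Fin n, (∫ t, s * P t * dfG T (g i) a η t) =
      (∫ t, s * P t * (gp a ((g i).pin T).G t).re) + s * (gq a (g i).G * NUSp.exc T (g i).τ) +
      (∫ t, s * P t * remG T (g i).c a (g i).σ (g i).w η t) -
      ∫ t, s * P t * (gp a (g i).G t).re := by
    intro i
    have e0 : (∫ t, s * P t * (gq a (g i).G * NUSp.exc T (g i).τ)) =
        s * (gq a (g i).G * NUSp.exc T (g i).τ) := by
      rw [integral_mul_const, integral_const_mul, NUSea.P_mass]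
      ring
    have j1 := gp_int ((g i).pin T) a s
    have j2 := iC (gq a (g i).G * NUSp.exc T (g i).τ)
    have j3 := iR i
    have j4 := gp_int (g i) a s
    have e : (fun t => s * P t * dfG T (g i) a η t) =
        (((fun t : ℝ => s * P t * (gp a ((g i).pin T).G t).re) +
          (fun t : ℝ => s * P t * (gq a (g i).G * NUSp.exc T (g i).τ))) +
          (fun t : ℝ => s * P t * remG T (g i).c a (g i).σ (g i).w η t)) -
        (fun t : ℝ => s * P t * (gp a (g i).G t).re) := by
      funext t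
      simp only [Pi.sub_apply, Pi.add_apply]
      unfold dfG
      ring
    rw [e, integral_sub' ((j1.add j2).add j3) j4, integral_add' (j1.add j2) j3,
      integral_add' j1 j2, e0]
  -- the sum
  have eS : ∀ g' : Fin n → Gd, (∫ t, s * P t * ∑ i, (gp a (g' i).G t).re) =
      ∑ i, ∫ t, s * P t * (gp a (g' i).G t).re := by
    intro g'
    rw [← integral_finsetSum _ fun i _ => gp_int (g' i) a s]
    refine integral_congr_ae (ae_of_all _ fun t => ?_)
    simp only
    rw [Finset.mul_sum]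
  have eB : (∫ t, s * P t * BF T g η a t) =
      ∑ i, ∫ t, s * P t * remG T (g i).c a (g i).σ (g i).w η t := by
    rw [← integral_finsetSum _ fun i _ => iR i]
    refine integral_congr_ae (ae_of_all _ fun t => ?_)
    show s * P t * BF T g η a t = _
    unfold BF
    rw [Finset.mul_sum]
  have e1 : (∫ t, s * P t * ∑ i, (gp a ((g i).pin T).G t).re) + (∫ t, s * P t * BF T g η a t) +
      s * cstF T g a - (∫ t, s * P t * ∑ i, (gp a (g i).G t).re) =
      ∑ i, ∫ t, s * P t * dfG T (g i) a η t := by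
    rw [eS (fun i => (g i).pin T), eS g, eB, Finset.sum_congr rfl fun i _ => eD i,
      Finset.sum_sub_distrib, Finset.sum_add_distrib, Finset.sum_add_distrib, ← Finset.mul_sum]
    unfold cstF
    ring
  rw [e1]
  -- the bound of one group
  have key : ∀ i, |∫ t, s * P t * dfG T (g i) a η t| ≤
      4 * K * (Hm * Real.exp (-(T - b)) + s * Real.exp (-(8 / 3 * T))) := by
    intro i
    have hE := fun x : ℝ => NUDispW.int_exp_abs (c := 1) one_pos x
    have hx := hE (NUSp.pin T (g i).τ)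
    have h1 := hE T
    have h2 := hE (-T)
    have hE2 : Integrable fun t => Real.exp (-(1 * |t - T|)) + Real.exp (-(1 * |t - -T|)) :=
      h1.1.add h2.1
    have hi : Integrable fun t => K * Hm * Real.exp (-(T - b)) *
        Real.exp (-(1 * |t - NUSp.pin T (g i).τ|)) + K * s * Real.exp (-(8 / 3 * T)) *
        (Real.exp (-(1 * |t - T|)) + Real.exp (-(1 * |t - -T|))) :=
      (hx.1.const_mul _).add (hE2.const_mul _)
    have hpt : ∀ t, ‖s * P t * dfG T (g i) a η t‖ ≤ K * Hm * Real.exp (-(T - b)) *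
        Real.exp (-(1 * |t - NUSp.pin T (g i).τ|)) + K * s * Real.exp (-(8 / 3 * T)) *
        (Real.exp (-(1 * |t - T|)) + Real.exp (-(1 * |t - -T|))) := fun t =>
      H (g i) a T b s Hm η hT hb hs hHm hη hz hH t
    refine (norm_integral_le_of_norm_le hi (ae_of_all _ hpt)).trans ?_
    rw [integral_add (hx.1.const_mul _) (hE2.const_mul _), integral_const_mul,
      integral_const_mul]
    have e2 : (∫ t, (Real.exp (-(1 * |t - T|)) + Real.exp (-(1 * |t - -T|)))) = 4 := by
      rw [integral_add h1.1 h2.1, h1.2, h2.2]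
      norm_num
    rw [e2, hx.2]
    have q1 : 0 ≤ K * Hm * Real.exp (-(T - b)) := by positivity
    linarith
  refine (Finset.abs_sum_le_sum_abs _ _).trans ?_
  refine (Finset.sum_le_card_nsmul _ _ _ fun i _ => key i).trans (le_of_eq ?_)
  rw [Finset.card_univ, Fintype.card_fin, nsmul_eq_mul]
  ring

end

end NUSea.PLX.H0
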