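import Pool.Agent.NUGC.ActGen

/-!
# The bounds by kinds with another number of rows

`KB_num`: the bounds by kinds at `m'` rows, `m ≤ m' ≤ Q m`, are bounds by kinds at `m` rows of the weight
times `exp ((m' - m) slkK)` (the slack `slk ≤ 2 A` of the additional rows).
-/

set_option autoImplicit false

noncomputable section

namespace NUGC.PLX

open NUO NUP1 NUGC

theorem cut_num {Q : ℝ} (hQ : 1 ≤ Q) {m m' : ℕ} (h : (m' : ℝ) ≤ Q * m) (β t : ℝ) :
    cut m' β t ≤ Q * cut m β t := by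
  unfold cut
  have hE := Real.exp_pos (-(2 * β) * |t|)
  rw [mul_min_of_nonneg _ _ (by linarith)]
  refine min_le_min (by linarith) ?_
  rw [← mul_assoc]
  exact mul_le_mul_of_nonneg_right h hE.le

theorem KB_num {B0 Q : ℝ} (hB0 : 0 ≤ B0) (hQ : 1 ≤ Q) {m m' : ℕ} (hm : (m : ℝ) ≤ m')
    (hm' : (m' : ℝ) ≤ Q * m) {β ρ A Y W t : ℝ} {slk : ℝ → ℝ} (hs : slk t ≤ 2 * A) (hρ : 0 < ρ)
    (hY : 0 ≤ Y) {kk : Kind} (h : KB B0 m' β ρ A Y W kk t) :
    KB (B0 * Q) m β ρ A Y (W * Real.exp (((m' : ℝ) - m) * slkK slk kk t)) kk t := by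
  have c1 := cut_num hQ hm' β t
  have c2 := cut_num hQ hm' (4 / 3) t
  have d1 := cut_nonneg m β t
  have d2 := cut_nonneg m (4 / 3) t
  have d3 := cut_nonneg m' (4 / 3) t
  have hd : (0 : ℝ) ≤ m' - m := by linarith
  have e1 := mul_le_mul_of_nonneg_left hs hd
  cases kk with
  | L =>
    simp only [KB, slkK, mul_zero, Real.exp_zero, mul_one] at h ⊢
    calc W ≤ B0 * cut m' β t := h
      _ ≤ B0 * (Q * cut m β t) := mul_le_mul_of_nonneg_left c1 hB0
      _ = _ := by ring
  | St =>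
    simp only [KB, slkK, mul_zero, Real.exp_zero, mul_one] at h ⊢
    calc W ≤ B0 * (cut m' β t * Y) := h
      _ ≤ B0 * ((Q * cut m β t) * Y) :=
          mul_le_mul_of_nonneg_left (mul_le_mul_of_nonneg_right c1 hY) hB0
      _ = _ := by ring
  | Svv =>
    simp only [KB, slkK, mul_zero, Real.exp_zero, mul_one] at h ⊢
    calc W ≤ B0 * cut m' (4 / 3) t := h
      _ ≤ B0 * (Q * cut m (4 / 3) t) := mul_le_mul_of_nonneg_left c2 hB0
      _ = _ := by ring
  | S =>
    simp only [KB, slkK] at h ⊢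
    calc W * Real.exp (((m' : ℝ) - m) * slk t) ≤
          (B0 * cut m' (4 / 3) t * Real.exp (-(2 * m' * A))) * Real.exp (((m' : ℝ) - m) * slk t) :=
          mul_le_mul_of_nonneg_right h (Real.exp_pos _).le
      _ = B0 * cut m' (4 / 3) t * Real.exp (-(2 * m' * A) + ((m' : ℝ) - m) * slk t) := by
          rw [Real.exp_add]
          ring
      _ ≤ B0 * (Q * cut m (4 / 3) t) * Real.exp (-(2 * m * A)) := by
          refine mul_le_mul (mul_le_mul_of_nonneg_left c2 hB0) (Real.exp_le_exp.2 (by linarith))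
            (Real.exp_pos _).le (by positivity)
      _ = _ := by ring
  | Sv =>
    simp only [KB, slkK] at h ⊢
    have hE := Real.exp_pos (-(8 / 3) * |t|)
    have hr : 0 ≤ ρ * Real.exp (-(8 / 3) * |t|) := by positivity
    have k1 : B0 * (m' * ρ * Real.exp (-(8 / 3) * |t|)) ≤
        B0 * Q * (m * ρ * Real.exp (-(8 / 3) * |t|)) := by
      calc B0 * (m' * ρ * Real.exp (-(8 / 3) * |t|)) =
            B0 * (m' * (ρ * Real.exp (-(8 / 3) * |t|))) := by ring
        _ ≤ B0 * ((Q * m) * (ρ * Real.exp (-(8 / 3) * |t|))) :=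
            mul_le_mul_of_nonneg_left (mul_le_mul_of_nonneg_right hm' hr) hB0
        _ = _ := by ring
    calc W * Real.exp (((m' : ℝ) - m) * (slk t / 2)) ≤
          (B0 / ρ * cut m' (4 / 3) t * Real.exp (-(m' * A) + B0 * (m' * ρ *
            Real.exp (-(8 / 3) * |t|)))) * Real.exp (((m' : ℝ) - m) * (slk t / 2)) :=
          mul_le_mul_of_nonneg_right h (Real.exp_pos _).le
      _ = B0 / ρ * cut m' (4 / 3) t * Real.exp ((-(m' * A) + ((m' : ℝ) - m) * (slk t / 2)) +
            B0 * (m' * ρ * Real.exp (-(8 / 3) * |t|))) := by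
          rw [mul_assoc, ← Real.exp_add]
          congr 2
          ring
      _ ≤ B0 / ρ * (Q * cut m (4 / 3) t) * Real.exp (-(m * A) +
            B0 * Q * (m * ρ * Real.exp (-(8 / 3) * |t|))) := by
          refine mul_le_mul (mul_le_mul_of_nonneg_left c2 (by positivity))
            (Real.exp_le_exp.2 (by linarith)) (Real.exp_pos _).le (by positivity)
      _ = _ := by ring

end NUGC.PLX

end
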