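import Pool.Agent.PLX.Ns
import Pool.Agent.PLX.NUGC.ThN
import Pool.Agent.NUGC.PsiT
import Pool.Agent.NUSea.OOneB
import Pool.Agent.NUSea.Inst

/-!
# TARGET-C: one body weight of `St` (the line of the own pole of the rows at `- l / 2`)

`wE_T0`: the weight of `St` times its mean field is at most `C * cut (2 M + 1) β t`, uniformly in
`0 < β ≤ 4 / 3`, `M`, `t`.  The row factor is `(1 / qT) ^ (M + 1 / 2)`, the bracket at most `4 qT ^ M`,
and `ThN (u) ThN (u - l) ≤ C qT ^ (1 / 2)`.
-/

set_option autoImplicit false

noncomputable section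

open Complex MeasureTheory Set

namespace NUGC.PLX

open NUP1 NUO

/-! ### rows off the real axis -/

/-! ### the ends -/

/-! ### the bracket -/

/-! ### the weight -/

end NUGC.PLX

end
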