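import Pool.Agent.PLX.Ns
import Pool.Agent.PLX.NUGC.OneT
import Pool.Agent.NURow.Pcut

/-!
# TARGET-C: row factors, ends and cutoff of the constituents of the objects

* `prN_ok`: the modulus of the factor of a pair of rows at offset `j`, `-1/2 < j < 7/2`;
* `Rrow_cH`: row factor times the cloud;
* `ThN_le`: the factor of the ends is bounded by `(sin (l / 2))⁻¹` for `0 ≤ j ≤ 4`;
* `phP_le_two`, `phP_le_cut`: the cutoff of the pairs.
-/

set_option autoImplicit false

noncomputable section

open Complex MeasureTheory Set

namespace NUGC.PLX

open NUP1 NUO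
open NUHM (Agh)

/-! ### rows -/

/-! ### the ends -/

/-! ### the cutoff -/

end NUGC.PLX

end
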