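import Pool.Agent.PLX.Ns
import Pool.Agent.PLX.NUGC.OneRow

/-!
# TARGET-C: bounds of the one body weights of the five kinds

`wE M β jL e ρ x` = weight of the object `x` in the gas with `M` pairs of rows and the ends, times
the exponential of its interaction with the clouds of `2 M + 1` rows of each group.  Same form as
`NUO/OneW`, with the gain `Agh` of the rows at `± l / 2`.
-/

set_option autoImplicit false

noncomputable section

open Complex MeasureTheory Set

namespace NUGC.PLX

open NUP1 NUO
open NUHM (Agh)

/-! ### `L` -/

/-! ### strings on `-(1 + e) l` -/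

/-! ### `Svv` -/

/-! ### `Sv` -/

/-- constant of the displacement of the satellite -/
def KVc : ℝ := 4 * Real.pi * NUMF.Kb (9 / 10 * l) * Real.exp (8 / 3 * l)

theorem KVc_pos : 0 < KVc := by
  have hl := l_pos
  have := NUMF.Kb_pos (b := 9 / 10 * l) (by positivity) (by rw [l_eq]; linarith)
  have hpi := Real.pi_pos
  unfold KVc
  positivity

end NUGC.PLX

end
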